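import Pool.Agent.Lib.MP_509488_nt.Sparse.Stmts

/-!
# Sparse bases: the arithmetic lemma and the Jacobian
-/

namespace Pool.Agent.Lib.MP_509488_nt.Sparse

open MvPolynomial Finset

/-- Sum over `Fin 3` starting at `k`. -/
theorem sum3 (k : Fin 3) (F : Fin 3 → ℤ) : ∑ i, F i = F k + F (k + 1) + F (k + 2) := by
  rw [Fin.sum_univ_three]
  fin_cases k
  · simp
  · show F 0 + F 1 + F 2 = F 1 + F 2 + F 0
    ring
  · show F 0 + F 1 + F 2 = F 2 + F 0 + F 1
    ring

theorem ne_add1 (k : Fin 3) : k ≠ k + 1 := by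
  fin_cases k <;> decide

theorem ne_add2 (k : Fin 3) : k ≠ k + 2 := by
  fin_cases k <;> decide

theorem add1_ne_add2 (k : Fin 3) : k + 1 ≠ k + 2 := by
  fin_cases k <;> decide

theorem cases3 (k i : Fin 3) : i = k ∨ i = k + 1 ∨ i = k + 2 := by
  fin_cases k <;> fin_cases i <;> decide

theorem two_terms {a b A B si sj : ℤ} (ha : 0 < a) (hab : IsCoprime a b)
    (hsi : si = 1 ∨ si = -1) (hsj : sj = 1 ∨ sj = -1)
    (h : si * a * A + sj * b * B = 0) (hB : |B| < a) : A = 0 ∧ B = 0 := by
  have h1 : a ∣ b * B := by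
    rcases hsj with rfl | rfl
    · exact ⟨- (si * A), by linear_combination h⟩
    · exact ⟨si * A, by linear_combination (-1) * h⟩
  have h2 : a ∣ B := hab.dvd_of_dvd_mul_left h1
  have h3 : B = 0 := by
    apply Int.eq_zero_of_abs_lt_dvd h2 hB
  refine ⟨?_, h3⟩
  rw [h3, mul_zero, add_zero] at h
  rcases mul_eq_zero.1 h with h4 | h4
  · rcases mul_eq_zero.1 h4 with h5 | h5
    · rcases hsi with rfl | rfl <;> omega
    · omega
  · exact h4

theorem arith_aux (s : Fin 3 → ℤ) (e : Fin 3 → ℕ) (P τ : Pt) (k : Fin 3)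
    (he : ∀ i, 1 ≤ e i)
    (h0 : ∑ i, s i * P i ^ e i = 0)
    (h1 : ∑ i, s i * e i * P i ^ (e i - 1) * τ i = 0) :
    s (k + 1) * P (k + 1) ^ (e (k + 1) - 1) *
        (e (k + 1) * τ (k + 1) * P k - e k * τ k * P (k + 1)) +
      s (k + 2) * P (k + 2) ^ (e (k + 2) - 1) *
        (e (k + 2) * τ (k + 2) * P k - e k * τ k * P (k + 2)) = 0 := by
  rw [sum3 k] at h0 h1
  have hp : ∀ i, P i ^ e i = P i ^ (e i - 1) * P i := by
    intro i
    rw [← pow_succ, Nat.sub_add_cancel (he i)]
  rw [hp k, hp (k + 1), hp (k + 2)] at h0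
  linear_combination (P k) * h1 - (e k * τ k) * h0

theorem arith : Arith := by
  intro s e P τ i₀ hs he hP hc h0 h1 hb
  have key : ∀ k, k ≠ i₀ → ∀ i, e i * τ i * P k = e k * τ k * P i := by
    intro k hk i
    have hA := arith_aux s e P τ k he h0 h1
    have hcop : IsCoprime (P (k + 1) ^ (e (k + 1) - 1)) (P (k + 2) ^ (e (k + 2) - 1)) :=
      (hc _ _ (add1_ne_add2 k)).pow
    have hpos : ∀ i, 0 < P i ^ (e i - 1) := fun i => pow_pos (by have := hP i; omega) _
    have hsmall : ∀ j, |e j * τ j * P k - e k * τ k * P j| < P i₀ ^ (e i₀ - 1) := by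
      intro j
      have t1 := abs_sub (e j * τ j * P k) (e k * τ k * P j)
      have t2 := hb j k
      have t3 := hb k j
      have e2 : (e j : ℤ) * P k * τ j = e j * τ j * P k := by ring
      have e3 : (e k : ℤ) * P j * τ k = e k * τ k * P j := by ring
      rw [e2] at t2
      rw [e3] at t3
      linarith
    have both : (e (k + 1) * τ (k + 1) * P k - e k * τ k * P (k + 1) = 0) ∧
        (e (k + 2) * τ (k + 2) * P k - e k * τ k * P (k + 2) = 0) := by
      rcases cases3 k i₀ with h | h | h
      · exact absurd h.symm hk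
      · rw [h] at hsmall
        exact two_terms (hpos _) hcop (hs _) (hs _) hA (hsmall _)
      · rw [h] at hsmall
        have hA' : s (k + 2) * P (k + 2) ^ (e (k + 2) - 1) *
              (e (k + 2) * τ (k + 2) * P k - e k * τ k * P (k + 2)) +
            s (k + 1) * P (k + 1) ^ (e (k + 1) - 1) *
              (e (k + 1) * τ (k + 1) * P k - e k * τ k * P (k + 1)) = 0 := by
          linear_combination hA
        have := two_terms (hpos _) hcop.symm (hs _) (hs _) hA' (hsmall _)
        exact ⟨this.2, this.1⟩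
    rcases cases3 k i with h | h | h
    · rw [h]
    · rw [h]
      linarith [both.1]
    · rw [h]
      linarith [both.2]
  intro i j
  by_cases hi : i = i₀
  · by_cases hj : j = i₀
    · rw [hi, hj]
    · exact key j hj i
  · exact (key i hi j).symm

theorem pderiv_fpoly (s : Fin 3 → ℤ) (e : Fin 3 → ℕ) (P : Pt) (j : Fin 3) :
    eval P (pderiv j (fpoly s e)) = s j * e j * P j ^ (e j - 1) := by
  unfold fpoly
  rw [map_sum, map_sum, Finset.sum_eq_single j]
  · rw [pderiv_C_mul, pderiv_pow, pderiv_X_self]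
    simp only [map_mul, eval_C, map_pow, eval_X, map_natCast, map_one]
    ring
  · intro i _ hij
    rw [pderiv_C_mul, pderiv_pow, pderiv_X_of_ne hij]
    simp
  · intro h
    exact absurd (Finset.mem_univ _) h

theorem jac_expand (f g H : Pol) (P : Pt) :
    jac ![f, g, H] P = ∑ j, eval P (pderiv j f) * crs g H j P := by
  unfold jac crs
  rw [Matrix.det_fin_three, Fin.sum_univ_three]
  simp only [Matrix.of_apply, Matrix.cons_val_zero, Matrix.cons_val_one, Matrix.cons_val]
  show _ = eval P (pderiv 0 f) * (eval P (pderiv 1 g) * eval P (pderiv 2 H) -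
      eval P (pderiv 2 g) * eval P (pderiv 1 H)) +
    eval P (pderiv 1 f) * (eval P (pderiv 2 g) * eval P (pderiv 0 H) -
      eval P (pderiv 0 g) * eval P (pderiv 2 H)) +
    eval P (pderiv 2 f) * (eval P (pderiv 0 g) * eval P (pderiv 1 H) -
      eval P (pderiv 1 g) * eval P (pderiv 0 H))
  ring

theorem crs_orth (g H : Pol) (P : Pt) : ∑ j, crs g H j P * eval P (pderiv j g) = 0 := by
  unfold crs
  rw [Fin.sum_univ_three]
  show (eval P (pderiv 1 g) * eval P (pderiv 2 H) -
      eval P (pderiv 2 g) * eval P (pderiv 1 H)) * eval P (pderiv 0 g) +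
    (eval P (pderiv 2 g) * eval P (pderiv 0 H) -
      eval P (pderiv 0 g) * eval P (pderiv 2 H)) * eval P (pderiv 1 g) +
    (eval P (pderiv 0 g) * eval P (pderiv 1 H) -
      eval P (pderiv 1 g) * eval P (pderiv 0 H)) * eval P (pderiv 2 g) = 0
  ring

theorem jacNe : JacNe := by
  intro s e P i₀ t g H A B hs he hP hc h0 heul hgt htH hHj hA hB hb hjac
  have hA0 : 0 ≤ A := le_trans (abs_nonneg _) (hA 0)
  have hB0 : 0 ≤ B := le_trans (abs_nonneg _) (hB 0)
  have hτ : ∀ a, |crs g H a P| ≤ 2 * (A * B) := by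
    intro a
    unfold crs
    have m : ∀ i j, |eval P (pderiv i g) * eval P (pderiv j H)| ≤ A * B := by
      intro i j
      rw [abs_mul]
      exact mul_le_mul (hA i) (hB j) (abs_nonneg _) hA0
    have t1 := abs_sub (eval P (pderiv (a + 1) g) * eval P (pderiv (a + 2) H))
      (eval P (pderiv (a + 2) g) * eval P (pderiv (a + 1) H))
    have t2 := m (a + 1) (a + 2)
    have t3 := m (a + 2) (a + 1)
    linarith
  rw [jac_expand] at hjac
  have h1 : ∑ i, s i * e i * P i ^ (e i - 1) * crs g H i P = 0 := by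
    rw [← hjac]
    apply Finset.sum_congr rfl
    intro i _
    rw [pderiv_fpoly]
  have hrel := arith s e P (fun a => crs g H a P) i₀ hs he hP hc h0 h1 (by
    intro i j
    refine lt_of_le_of_lt ?_ (hb i j)
    have hpos : (0 : ℤ) ≤ e i * P j := by
      have := hP j
      positivity
    rw [abs_mul, abs_of_nonneg hpos]
    have := mul_le_mul_of_nonneg_left (hτ i) hpos
    linarith)
  have hzero : ∀ j, crs g H j P = 0 := by
    intro j
    have hc1 : ∀ i, (cof e i : ℤ) * e i = e 0 * e 1 * e 2 := by
      intro i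
      unfold cof
      fin_cases i
      · show ((e 1 * e 2 : ℕ) : ℤ) * e 0 = _
        push_cast
        ring
      · show ((e 2 * e 0 : ℕ) : ℤ) * e 1 = _
        push_cast
        ring
      · show ((e 0 * e 1 : ℕ) : ℤ) * e 2 = _
        push_cast
        ring
    have hm : crs g H j P * (e j * eul e g P) = 0 := by
      unfold eul
      have e1 : crs g H j P * (e j * ∑ i, (cof e i : ℤ) * P i * eval P (pderiv i g)) =
          (e 0 * e 1 * e 2) * P j * ∑ i, crs g H i P * eval P (pderiv i g) := by
        rw [Finset.mul_sum, Finset.mul_sum, Finset.mul_sum]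
        apply Finset.sum_congr rfl
        intro i _
        have r := hrel i j
        have c1 := hc1 i
        linear_combination (cof e i * eval P (pderiv i g)) * (-r) +
          (P j * crs g H i P * eval P (pderiv i g)) * c1
      rw [e1, crs_orth, mul_zero]
    rcases mul_eq_zero.1 hm with h | h
    · exact h
    · exfalso
      rcases mul_eq_zero.1 h with h | h
      · have := he j
        omega
      · exact heul h
  have hHt : eval P (pderiv t H) = 0 := by
    rw [pderiv_eq_zero_of_notMem_vars htH, map_zero]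
  obtain ⟨j, hj⟩ := hHj
  rcases cases3 t j with h | h | h
  · rw [h] at hj
    exact hj hHt
  · -- `j = t + 1`: component `t + 2`
    have z := hzero (t + 2)
    unfold crs at z
    have e1 : t + 2 + 1 = t := by fin_cases t <;> decide
    have e2 : t + 2 + 2 = t + 1 := by fin_cases t <;> decide
    rw [e1, e2, hHt, mul_zero, sub_zero, ← h] at z
    rcases mul_eq_zero.1 z with z | z
    · exact hgt z
    · exact hj z
  · have z := hzero (t + 1)
    unfold crs at z
    have e1 : t + 1 + 1 = t + 2 := by fin_cases t <;> decide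
    have e2 : t + 1 + 2 = t := by fin_cases t <;> decide
    rw [e1, e2, hHt, mul_zero, zero_sub, neg_eq_zero, ← h] at z
    rcases mul_eq_zero.1 z with z | z
    · exact hgt z
    · exact hj z

end Pool.Agent.Lib.MP_509488_nt.Sparse
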