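import Pool.Agent.Lib.MP_509488_nt.Sparse.Stmts

/-!
# Sparse bases: the degenerate case
-/

namespace Pool.Agent.Lib.MP_509488_nt.Sparse

open MvPolynomial Finset

theorem deg_univ3 : ∀ i j k : Fin 3, i ≠ j → i ≠ k → j ≠ k → (univ : Finset (Fin 3)) = {i, j, k} := by
  decide

theorem deg_sum3 {M : Type} [AddCommMonoid M] (f : Fin 3 → M) {i j k : Fin 3} (hij : i ≠ j)
    (hik : i ≠ k) (hjk : j ≠ k) : ∑ l, f l = f i + f j + f k := by
  rw [deg_univ3 i j k hij hik hjk, sum_insert (by simp [hij, hik]), sum_insert (by simp [hjk]),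
    sum_singleton, add_assoc]

theorem deg_prod3 {M : Type} [CommMonoid M] (f : Fin 3 → M) {i j k : Fin 3} (hij : i ≠ j)
    (hik : i ≠ k) (hjk : j ≠ k) : ∏ l, f l = f i * f j * f k := by
  rw [deg_univ3 i j k hij hik hjk, prod_insert (by simp [hij, hik]), prod_insert (by simp [hjk]),
    prod_singleton, mul_assoc]

theorem deg_cof (e : Fin 3 → ℕ) {i j k : Fin 3} (hij : i ≠ j)
    (hik : i ≠ k) (hjk : j ≠ k) : cof e i = e j * e k := by
  fin_cases i <;> fin_cases j <;> fin_cases k <;> first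
    | exact absurd rfl hij
    | exact absurd rfl hik
    | exact absurd rfl hjk
    | rfl
    | exact mul_comm _ _

theorem deg_wt (e : Fin 3 → ℕ) (m : Fin 3 →₀ ℕ) {i j k : Fin 3} (hij : i ≠ j)
    (hik : i ≠ k) (hjk : j ≠ k) :
    wt e m = e j * e k * m i + e i * e k * m j + e i * e j * m k := by
  unfold wt
  rw [deg_sum3 _ hij hik hjk, deg_cof e hij hik hjk, deg_cof e hij.symm hjk hik,
    deg_cof e hik.symm hjk.symm hij]

theorem deg_ext {m m' : Fin 3 →₀ ℕ} {i j k : Fin 3} (hij : i ≠ j)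
    (hik : i ≠ k) (hjk : j ≠ k) (h1 : m i = m' i) (h2 : m j = m' j) (h3 : m k = m' k) :
    m = m' := by
  ext l
  have : l ∈ (univ : Finset (Fin 3)) := mem_univ _
  rw [deg_univ3 i j k hij hik hjk] at this
  simp only [mem_insert, mem_singleton] at this
  rcases this with rfl | rfl | rfl <;> assumption

/-- Three different primes: one coordinate is determined by the weight. -/
theorem deg_coord {e : Fin 3 → ℕ} {D : ℕ} {m m' : Fin 3 →₀ ℕ} {i j k : Fin 3} (hij : i ≠ j)
    (hik : i ≠ k) (hjk : j ≠ k) (he : ∀ i, (e i).Prime) (h1 : e i ≠ e j) (h2 : e i ≠ e k)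
    (hD : 2 * D ≤ e i) (hm : m i < D) (hm' : m' i < D) (hw : wt e m = wt e m') : m i = m' i := by
  rw [deg_wt e m hij hik hjk, deg_wt e m' hij hik hjk] at hw
  have hc : IsCoprime (e i : ℤ) ((e j : ℤ) * e k) := by
    apply IsCoprime.mul_right
    · exact Nat.isCoprime_iff_coprime.2 ((Nat.coprime_primes (he i) (he j)).2 h1)
    · exact Nat.isCoprime_iff_coprime.2 ((Nat.coprime_primes (he i) (he k)).2 h2)
  have hd : (e i : ℤ) ∣ (e j : ℤ) * e k * ((m i : ℤ) - m' i) := by
    have hw' : (e j : ℤ) * e k * m i + e i * e k * m j + e i * e j * m k =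
        e j * e k * m' i + e i * e k * m' j + e i * e j * m' k := by exact_mod_cast hw
    refine ⟨e k * m' j + e j * m' k - e k * m j - e j * m k, ?_⟩
    linear_combination hw'
  have h0 := Int.eq_zero_of_abs_lt_dvd (hc.dvd_of_dvd_mul_left hd) (by
    rw [abs_lt]
    constructor <;> omega)
  omega

/-- Two equal primes. -/
theorem deg_pair {e : Fin 3 → ℕ} {D : ℕ} {m m' : Fin 3 →₀ ℕ} {i j k : Fin 3} (hij : i ≠ j)
    (hik : i ≠ k) (hjk : j ≠ k) (he : ∀ i, (e i).Prime) (h1 : e i = e j) (h2 : e k ≠ e i)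
    (hD : 2 * D ≤ e i) (hm : ∀ i, m i < D) (hm' : ∀ i, m' i < D) (hw : wt e m = wt e m') :
    m i + m j = m' i + m' j ∧ m k = m' k := by
  rw [deg_wt e m hij hik hjk, deg_wt e m' hij hik hjk, ← h1] at hw
  have hpos : (e i : ℤ) ≠ 0 := by exact_mod_cast (he i).ne_zero
  have hc : IsCoprime (e i : ℤ) (e k : ℤ) :=
    Nat.isCoprime_iff_coprime.2 ((Nat.coprime_primes (he i) (he k)).2 h2.symm)
  have hw' : (e k : ℤ) * ((m i : ℤ) + m j - m' i - m' j) = e i * (m' k - m k) := by
    have hw' : (e i : ℤ) * e k * m i + e i * e k * m j + e i * e i * m k =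
        e i * e k * m' i + e i * e k * m' j + e i * e i * m' k := by exact_mod_cast hw
    apply mul_left_cancel₀ hpos
    linear_combination hw'
  have hd : (e i : ℤ) ∣ (e k : ℤ) * ((m i : ℤ) + m j - m' i - m' j) := ⟨_, hw'⟩
  have a1 := hm i
  have a2 := hm j
  have a3 := hm' i
  have a4 := hm' j
  have h0 := Int.eq_zero_of_abs_lt_dvd (hc.dvd_of_dvd_mul_left hd) (by
    rw [abs_lt]
    constructor <;> omega)
  rw [h0, mul_zero] at hw'
  have h3 : (m' k : ℤ) - m k = 0 := by
    rcases mul_eq_zero.1 hw'.symm with h | h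
    · exact absurd h hpos
    · exact h
  omega

theorem deg_caseB {s : Fin 3 → ℤ} {e : Fin 3 → ℕ} {D B : ℕ} {G : Pol} {T : Finset Pt}
    (hs : Sgn s) (he : ∀ i, (e i).Prime) {i j k : Fin 3} (hij : i ≠ j)
    (hik : i ≠ k) (hjk : j ≠ k) (h1 : e i = e j) (h2 : e k ≠ e i)
    (hD : 2 * D ≤ e i) (hG : G ≠ 0) (hB : Bdd D B G)
    (hT : ∀ P ∈ T, (∀ i, 1 ≤ P i) ∧ Cop P ∧ ∑ i, s i * P i ^ e i = 0 ∧ ∀ w, comp e w G P = 0) :
    T.card ≤ D := by
  classical
  obtain ⟨m₀, hm₀⟩ : ∃ m, m ∈ G.support := by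
    by_contra h
    push Not at h
    exact hG (MvPolynomial.support_eq_empty.1 (eq_empty_of_forall_notMem h))
  set S := G.support.filter (fun m => wt e m = wt e m₀) with hS
  have hSm : ∀ m ∈ S, m i + m j = m₀ i + m₀ j ∧ m k = m₀ k := by
    intro m hm
    rw [hS, mem_filter] at hm
    exact deg_pair hij hik hjk he h1 h2 hD (hB m hm.1).1 (hB m₀ hm₀).1 hm.2
  let Q : Polynomial ℚ := ∑ m ∈ S, Polynomial.C ((G.coeff m : ℤ) : ℚ) * Polynomial.X ^ (m i)
  have hQ0 : Q ≠ 0 := by
    intro h
    have hc : Q.coeff (m₀ i) = ((G.coeff m₀ : ℤ) : ℚ) := by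
      simp only [Q, Polynomial.finsetSum_coeff, Polynomial.coeff_C_mul, Polynomial.coeff_X_pow]
      rw [sum_eq_single m₀]
      · simp
      · intro m hm hne
        have hne' : m₀ i ≠ m i := by
          intro h
          apply hne
          have := hSm m hm
          exact deg_ext hij hik hjk h.symm (by omega) this.2
        simp [hne']
      · intro h
        exact absurd (by rw [hS, mem_filter]; exact ⟨hm₀, rfl⟩) h
    rw [h, Polynomial.coeff_zero] at hc
    exact (MvPolynomial.mem_support_iff.1 hm₀) (by exact_mod_cast hc.symm)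
  have hQd : Q.natDegree ≤ D := by
    apply Polynomial.natDegree_sum_le_of_forall_le
    intro m hm
    rw [hS, mem_filter] at hm
    exact (Polynomial.natDegree_C_mul_X_pow_le _ _).trans ((hB m hm.1).1 i).le
  have hroot : ∀ P ∈ T, ((P i : ℚ) / P j) ∈ Q.roots.toFinset := by
    intro P hP
    obtain ⟨hpos, -, -, hcomp⟩ := hT P hP
    have hj : (P j : ℚ) ≠ 0 := by
      have := hpos j
      exact_mod_cast (by omega : P j ≠ 0)
    have hk : (P k : ℚ) ≠ 0 := by
      have := hpos k
      exact_mod_cast (by omega : P k ≠ 0)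
    rw [Multiset.mem_toFinset, Polynomial.mem_roots hQ0, Polynomial.IsRoot]
    have h := hcomp (wt e m₀)
    unfold comp at h
    have h' : ∑ m ∈ S, ((G.coeff m : ℤ) : ℚ) * ∏ l, (P l : ℚ) ^ m l = 0 := by exact_mod_cast h
    have key : (P k : ℚ) ^ m₀ k * (P j : ℚ) ^ (m₀ i + m₀ j) * Q.eval ((P i : ℚ) / P j) =
        ∑ m ∈ S, ((G.coeff m : ℤ) : ℚ) * ∏ l, (P l : ℚ) ^ m l := by
      simp only [Q, Polynomial.eval_finsetSum, Polynomial.eval_mul, Polynomial.eval_C,
        Polynomial.eval_pow, Polynomial.eval_X, mul_sum]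
      apply sum_congr rfl
      intro m hm
      rw [deg_prod3 _ hij hik hjk, ← (hSm m hm).1, (hSm m hm).2, pow_add, div_pow]
      have : (P j : ℚ) ^ m i ≠ 0 := pow_ne_zero _ hj
      field_simp
    rw [h'] at key
    rcases mul_eq_zero.1 key with h | h
    · exact absurd h (mul_ne_zero (pow_ne_zero _ hk) (pow_ne_zero _ hj))
    · exact h
  have hinj : Set.InjOn (fun P : Pt => (P i : ℚ) / P j) T := by
    intro P hP P' hP' h
    obtain ⟨hpos, hcop, hsum, -⟩ := hT P hP
    obtain ⟨hpos', hcop', hsum', -⟩ := hT P' hP'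
    simp only at h
    have hj : (P j : ℚ) ≠ 0 := by
      have := hpos j
      exact_mod_cast (by omega : P j ≠ 0)
    have hj' : (P' j : ℚ) ≠ 0 := by
      have := hpos' j
      exact_mod_cast (by omega : P' j ≠ 0)
    rw [div_eq_div_iff hj hj'] at h
    have h' : P i * P' j = P' i * P j := by exact_mod_cast h
    have c1 := hcop i j hij
    have c2 := hcop' i j hij
    have d1 : P i ∣ P' i := c1.dvd_of_dvd_mul_right ⟨P' j, h'.symm⟩
    have d2 : P' i ∣ P i := c2.dvd_of_dvd_mul_right ⟨P j, h'⟩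
    have p1 := hpos i
    have p2 := hpos' i
    have ei : P i = P' i := Int.dvd_antisymm (by omega) (by omega) d1 d2
    have ej : P j = P' j := by
      rw [ei] at h'
      exact (mul_left_cancel₀ (by omega) h').symm
    have ek : P k = P' k := by
      rw [deg_sum3 _ hij hik hjk] at hsum hsum'
      rw [ei, ej] at hsum
      have h3 : s k * P k ^ e k = s k * P' k ^ e k := by linear_combination hsum - hsum'
      have hsk : s k ≠ 0 := by
        rcases hs k with h | h <;> rw [h] <;> decide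
      have h4 := mul_left_cancel₀ hsk h3
      have q1 := hpos k
      have q2 := hpos' k
      exact (pow_left_inj₀ (by omega) (by omega) (he k).ne_zero).1 h4
    funext l
    have : l ∈ (univ : Finset (Fin 3)) := mem_univ _
    rw [deg_univ3 i j k hij hik hjk] at this
    simp only [mem_insert, mem_singleton] at this
    rcases this with rfl | rfl | rfl <;> assumption
  calc T.card ≤ Q.roots.toFinset.card :=
        card_le_card_of_injOn _ (fun P hP => hroot P hP) hinj
    _ ≤ Multiset.card Q.roots := Multiset.toFinset_card_le _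
    _ ≤ Q.natDegree := Polynomial.card_roots' _
    _ ≤ D := hQd

theorem deg_caseA {s : Fin 3 → ℤ} {e : Fin 3 → ℕ} {D B : ℕ} {G : Pol} {T : Finset Pt}
    (he : ∀ i, (e i).Prime) {i j k : Fin 3} (hij : i ≠ j)
    (hik : i ≠ k) (hjk : j ≠ k) (h1 : e i ≠ e j) (h2 : e i ≠ e k) (h3 : e j ≠ e k)
    (hDi : 2 * D ≤ e i) (hDj : 2 * D ≤ e j) (hG : G ≠ 0) (hB : Bdd D B G)
    (hT : ∀ P ∈ T, (∀ i, 1 ≤ P i) ∧ Cop P ∧ ∑ i, s i * P i ^ e i = 0 ∧ ∀ w, comp e w G P = 0) :
    T.card ≤ D := by
  classical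
  obtain ⟨m₀, hm₀⟩ : ∃ m, m ∈ G.support := by
    by_contra h
    push Not at h
    exact hG (MvPolynomial.support_eq_empty.1 (eq_empty_of_forall_notMem h))
  have hT0 : T = ∅ := by
    apply eq_empty_of_forall_notMem
    intro P hP
    obtain ⟨hpos, -, -, hcomp⟩ := hT P hP
    have h := hcomp (wt e m₀)
    have hS : G.support.filter (fun m => wt e m = wt e m₀) = {m₀} := by
      apply Subset.antisymm
      · intro m hm
        rw [mem_filter] at hm
        rw [mem_singleton]
        have bm := (hB m hm.1).1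
        have bm₀ := (hB m₀ hm₀).1
        have e1 := deg_coord hij hik hjk he h1 h2 hDi (bm i) (bm₀ i) hm.2
        have e2 := deg_coord hij.symm hjk hik he h1.symm h3 hDj (bm j) (bm₀ j) hm.2
        have hw := hm.2
        rw [deg_wt e m hij hik hjk, deg_wt e m₀ hij hik hjk, e1, e2] at hw
        have e3 : e i * e j * m k = e i * e j * m₀ k := by omega
        exact deg_ext hij hik hjk e1 e2
          (Nat.eq_of_mul_eq_mul_left (Nat.mul_pos (he i).pos (he j).pos) e3)
      · intro m hm
        rw [mem_singleton] at hm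
        rw [hm, mem_filter]
        exact ⟨hm₀, rfl⟩
    unfold comp at h
    rw [hS, sum_singleton] at h
    rcases mul_eq_zero.1 h with h | h
    · exact (MvPolynomial.mem_support_iff.1 hm₀) h
    · rw [prod_eq_zero_iff] at h
      obtain ⟨l, -, hl⟩ := h
      have := hpos l
      exact (pow_ne_zero (m₀ l) (by omega : P l ≠ 0)) hl
  rw [hT0]
  simp

theorem deg_third : ∀ i j : Fin 3, ∃ k : Fin 3, i ≠ k ∧ j ≠ k := by
  decide

theorem degen : Degen := by
  intro s e D B G T hs he hne hbig hG hB hT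
  obtain ⟨i, j, hij, hi, hj⟩ := hbig
  obtain ⟨k, hik, hjk⟩ : ∃ k : Fin 3, i ≠ k ∧ j ≠ k := deg_third i j
  by_cases h1 : e i = e j
  · have h2 : e k ≠ e i := by
      intro h2
      apply hne
      have hall : ∀ l, e l = e i := by
        intro l
        have : l ∈ (univ : Finset (Fin 3)) := mem_univ _
        rw [deg_univ3 i j k hij hik hjk] at this
        simp only [mem_insert, mem_singleton] at this
        rcases this with rfl | rfl | rfl
        · rfl
        · exact h1.symm
        · exact h2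
      exact ⟨by rw [hall 0, hall 1], by rw [hall 1, hall 2]⟩
    exact deg_caseB hs he hij hik hjk h1 h2 hi hG hB hT
  · by_cases h2 : e i = e k
    · exact deg_caseB hs he hik hij hjk.symm h2 (Ne.symm h1) hi hG hB hT
    · by_cases h3 : e j = e k
      · exact deg_caseB hs he hjk hij.symm hik.symm h3 h1 hj hG hB hT
      · exact deg_caseA he hij hik hjk h1 h2 h3 hi hj hG hB hT

end Pool.Agent.Lib.MP_509488_nt.Sparse
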