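import Pool.Agent.Lib.MP_509488_nt.Sparse.Stmts

/-!
# Sparse bases: derivatives and values (modules V, V', E)
-/

namespace Pool.Agent.Lib.MP_509488_nt.Sparse

open MvPolynomial Finset

/-! ## Values -/

theorem card_support_le {D B : ℕ} {G : Pol} (h : Bdd D B G) : G.support.card ≤ D ^ 3 := by
  classical
  have hinj : Set.InjOn (fun m : Fin 3 →₀ ℕ => (m : Fin 3 → ℕ)) (G.support : Set (Fin 3 →₀ ℕ)) :=
    fun a _ b _ hab => DFunLike.coe_injective hab
  have : G.support.card ≤ (Fintype.piFinset (fun _ : Fin 3 => Finset.range D)).card := by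
    refine Finset.card_le_card_of_injOn _ ?_ hinj
    intro m hm
    simp only [Finset.mem_coe, Fintype.mem_piFinset, Finset.mem_range]
    exact (h m hm).1
  simpa using this

theorem evalBdd : EvalBdd := by
  intro G D B N P h hP
  classical
  rw [MvPolynomial.eval_eq]
  refine (Finset.abs_sum_le_sum_abs _ _).trans ?_
  have hterm : ∀ m ∈ G.support, |G.coeff m * ∏ i ∈ m.support, P i ^ m i| ≤
      (B : ℤ) * (N : ℤ) ^ (3 * D) := by
    intro m hm
    obtain ⟨hd, hc⟩ := h m hm
    rw [abs_mul]
    have hN : (1 : ℤ) ≤ N := (hP 0).1.trans (hP 0).2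
    have hprod : |∏ i ∈ m.support, P i ^ m i| ≤ (N : ℤ) ^ (3 * D) := by
      rw [Finset.abs_prod]
      calc ∏ i ∈ m.support, |P i ^ m i| ≤ ∏ i ∈ m.support, (N : ℤ) ^ D := by
            refine Finset.prod_le_prod (fun _ _ => abs_nonneg _) fun i _ => ?_
            rw [abs_pow, abs_of_pos (by have := (hP i).1; omega)]
            calc P i ^ m i ≤ (N : ℤ) ^ m i :=
                  pow_le_pow_left₀ (by have := (hP i).1; omega) (hP i).2 _
              _ ≤ (N : ℤ) ^ D := pow_le_pow_right₀ hN (hd i).le
        _ = (N : ℤ) ^ (D * m.support.card) := by rw [Finset.prod_const, pow_mul]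
        _ ≤ (N : ℤ) ^ (3 * D) := by
            refine pow_le_pow_right₀ hN ?_
            have : m.support.card ≤ 3 := by simpa using Finset.card_le_univ m.support
            nlinarith
    exact mul_le_mul hc hprod (abs_nonneg _) (by positivity)
  refine (Finset.sum_le_sum hterm).trans ?_
  rw [Finset.sum_const, nsmul_eq_mul]
  push_cast
  have hc : ((G.support.card : ℕ) : ℤ) ≤ (D : ℤ) ^ 3 := by
    exact_mod_cast card_support_le h
  calc (G.support.card : ℤ) * ((B : ℤ) * (N : ℤ) ^ (3 * D))
      ≤ (D : ℤ) ^ 3 * ((B : ℤ) * (N : ℤ) ^ (3 * D)) :=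
        mul_le_mul_of_nonneg_right hc (by positivity)
    _ = (D : ℤ) ^ 3 * B * N ^ (3 * D) := by ring

/-! ## Derivatives -/

theorem coeff_pderiv (H : Pol) (j : Fin 3) (m : Fin 3 →₀ ℕ) :
    (pderiv j H).coeff m = H.coeff (m + Finsupp.single j 1) * ((m j : ℤ) + 1) := by
  classical
  induction H using MvPolynomial.induction_on' with
  | monomial u a =>
    rw [pderiv_monomial, coeff_monomial, coeff_monomial]
    by_cases h : u = m + Finsupp.single j 1
    · subst h
      simp
    · rw [if_neg h]
      by_cases h2 : u - Finsupp.single j 1 = m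
      · rw [if_pos h2]
        have hu : u j = 0 := by
          by_contra hne
          apply h
          rw [← h2]
          ext i
          by_cases hi : i = j
          · subst hi
            simp
            omega
          · simp [Finsupp.single_eq_of_ne (Ne.symm hi), Finsupp.single_eq_of_ne hi]
        simp [hu]
      · rw [if_neg h2]
        simp
  | add p q hp hq =>
    rw [map_add, coeff_add, coeff_add, hp, hq]
    ring

theorem bdd_pderiv {D B : ℕ} {H : Pol} (j : Fin 3) (h : Bdd D B H) :
    Bdd D (B * D) (pderiv j H) := by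
  intro m hm
  have hc : H.coeff (m + Finsupp.single j 1) ≠ 0 := by
    intro h0
    rw [mem_support_iff, coeff_pderiv, h0, zero_mul] at hm
    exact hm rfl
  obtain ⟨hd, hb⟩ := h _ (mem_support_iff.mpr hc)
  refine ⟨fun i => ?_, ?_⟩
  · have := hd i
    rw [Finsupp.add_apply] at this
    omega
  · rw [coeff_pderiv, abs_mul]
    have hj := hd j
    rw [Finsupp.add_apply, Finsupp.single_eq_same] at hj
    have h1 : |((m j : ℤ) + 1)| ≤ D := by
      rw [abs_of_nonneg (by positivity)]
      exact_mod_cast hj.le
    push_cast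
    exact mul_le_mul hb h1 (abs_nonneg _) (by positivity)

theorem vars_pderiv_subset (H : Pol) (j : Fin 3) : (pderiv j H).vars ⊆ H.vars := by
  classical
  intro i hi
  rw [mem_vars] at hi ⊢
  obtain ⟨d, hd, hid⟩ := hi
  have hc : H.coeff (d + Finsupp.single j 1) ≠ 0 := by
    intro h0
    rw [mem_support_iff, coeff_pderiv, h0, zero_mul] at hd
    exact hd rfl
  refine ⟨_, mem_support_iff.mpr hc, ?_⟩
  rw [Finsupp.mem_support_iff] at hid ⊢
  rw [Finsupp.add_apply]
  omega

theorem derivBdd : DerivBdd := by
  intro H v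
  induction v with
  | nil =>
    intro D B h
    simpa [dl] using h
  | cons j l ih =>
    intro D B h
    obtain ⟨h1, h2⟩ := ih D B h
    refine ⟨?_, (vars_pderiv_subset _ _).trans h2⟩
    have := bdd_pderiv j h1
    rw [List.length_cons, pow_succ, ← mul_assoc]
    exact this

/-! ## A nonvanishing derivative -/

theorem dl_append (v w : List (Fin 3)) (H : Pol) : dl (v ++ w) H = dl v (dl w H) := by
  induction v with
  | nil => rfl
  | cons j l ih => rw [List.cons_append, dl, dl, ih]

theorem totalDegree_pderiv_lt {H : Pol} {j : Fin 3} (h : pderiv j H ≠ 0) :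
    (pderiv j H).totalDegree < H.totalDegree := by
  classical
  obtain ⟨m, hm⟩ := Finset.exists_max_image (pderiv j H).support
    (fun m => m.sum fun _ e => e) (by rwa [Finset.nonempty_iff_ne_empty, Ne, support_eq_empty])
  have hc : H.coeff (m + Finsupp.single j 1) ≠ 0 := by
    intro h0
    have := hm.1
    rw [mem_support_iff, coeff_pderiv, h0, zero_mul] at this
    exact this rfl
  have h1 : (pderiv j H).totalDegree ≤ m.sum fun _ e => e := by
    rw [totalDegree]
    exact Finset.sup_le fun b hb => hm.2 b hb
  have h2 : (m + Finsupp.single j 1).sum (fun _ e => e) ≤ H.totalDegree :=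
    le_totalDegree (mem_support_iff.mpr hc)
  rw [Finsupp.sum_add_index' (fun _ => rfl) (fun _ _ _ => rfl), Finsupp.sum_single_index rfl] at h2
  omega

theorem exists_dl_ne (P : Pt) : ∀ (n : ℕ) (H : Pol), H ≠ 0 → H.totalDegree ≤ n →
    ∃ v : List (Fin 3), v.length ≤ H.totalDegree ∧ eval P (dl v H) ≠ 0 := by
  classical
  intro n
  induction n with
  | zero =>
    intro H hH hd
    have h0 : H.totalDegree = 0 := by omega
    rw [totalDegree_eq_zero_iff_eq_C] at h0
    refine ⟨[], by simp, ?_⟩
    rw [dl, h0, eval_C]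
    intro hc
    rw [hc, C_0] at h0
    exact hH h0
  | succ n ih =>
    intro H hH hd
    by_cases h0 : H.totalDegree = 0
    · obtain ⟨v, hv, hv2⟩ := ih H hH (by omega)
      exact ⟨v, hv, hv2⟩
    · -- some derivative is not zero
      obtain ⟨m, hm, hmj⟩ : ∃ m ∈ H.support, ∃ j, m j ≠ 0 := by
        by_contra hcon
        push Not at hcon
        apply h0
        rw [totalDegree_eq_zero_iff]
        intro m hm x
        exact hcon m hm x
      obtain ⟨j, hj⟩ := hmj
      have hder : pderiv j H ≠ 0 := by
        intro hz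
        have h1 : (pderiv j H).coeff (m - Finsupp.single j 1) = 0 := by rw [hz, coeff_zero]
        rw [coeff_pderiv] at h1
        have h2 : m - Finsupp.single j 1 + Finsupp.single j 1 = m := by
          apply tsub_add_cancel_of_le
          rw [Finsupp.single_le_iff]
          omega
        rw [h2] at h1
        rcases mul_eq_zero.mp h1 with h3 | h3
        · exact (mem_support_iff.mp hm) h3
        · have : (0 : ℤ) ≤ ((m - Finsupp.single j 1 : Fin 3 →₀ ℕ) j : ℤ) := by positivity
          omega
      have hlt := totalDegree_pderiv_lt hder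
      obtain ⟨v, hv, hv2⟩ := ih (pderiv j H) hder (by omega)
      refine ⟨v ++ [j], ?_, ?_⟩
      · rw [List.length_append, List.length_singleton]
        omega
      · rw [dl_append]
        exact hv2

theorem totalDegree_le_of_bdd {D B : ℕ} {H : Pol} (h : Bdd D B H) (hH : H ≠ 0) :
    H.totalDegree + 3 ≤ 3 * D := by
  classical
  have hne : H.support.Nonempty := by rwa [Finset.nonempty_iff_ne_empty, Ne, support_eq_empty]
  obtain ⟨m, hm, hmm⟩ := Finset.exists_mem_eq_sup H.support hne (fun m => m.sum fun _ e => e)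
  have hd := (h m hm).1
  have h1 : H.totalDegree = m.sum fun _ e => e := hmm
  rw [h1, Finsupp.sum_fintype _ _ (fun _ => rfl), Fin.sum_univ_three]
  have h0 := hd 0
  have h1' := hd 1
  have h2 := hd 2
  omega

theorem minDeriv : MinDeriv := by
  classical
  intro H P D B hH hB hz
  obtain ⟨v, hv, hv2⟩ := exists_dl_ne P _ H hH le_rfl
  have hex : ∃ n, ∃ v : List (Fin 3), v.length = n ∧ eval P (dl v H) ≠ 0 := ⟨_, v, rfl, hv2⟩
  obtain ⟨w, hw, hw2⟩ := Nat.find_spec hex
  have hmin : ∀ u : List (Fin 3), u.length < w.length → eval P (dl u H) = 0 := by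
    intro u hu
    by_contra hne
    exact Nat.find_min hex (m := u.length) (by omega) ⟨u, rfl, hne⟩
  have hwv : w.length ≤ v.length := by
    rw [hw]
    exact Nat.find_min' hex ⟨v, rfl, hv2⟩
  cases w with
  | nil =>
    exact absurd hz (by simpa [dl] using hw2)
  | cons j l =>
    have hdeg := totalDegree_le_of_bdd hB hH
    refine ⟨l, ?_, hmin l (by simp), j, by simpa [dl] using hw2⟩
    rw [List.length_cons] at hwv
    omega

end Pool.Agent.Lib.MP_509488_nt.Sparse
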