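import Pool.Agent.Lib.MP_509488_nt.Sparse.Stmts

/-!
# Sparse bases: the final count (module SZ)
-/

namespace Pool.Agent.Lib.MP_509488_nt.Sparse

open Finset Filter

/-- The inequalities for large `N`. -/
theorem final_ev (ε : ℝ) (A C Q₀ h : ℕ) (hh : 25 / ε < (h : ℝ)) (hε : 0 < ε) :
    ∀ᶠ N : ℕ in atTop, (Q₀ : ℝ) + 1 ≤ (N : ℝ) ^ (1 / (h : ℝ)) ∧
      2 * Real.log N ^ (A + 1) + 1 ≤ (N : ℝ) ^ (1 / (h : ℝ)) ∧
      (Real.log N ^ A + 1) ^ 3 * (C * ((N : ℝ) ^ (1 / (h : ℝ))) ^ 22) ≤ (N : ℝ) ^ ε ∧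
      1 ≤ Real.log N := by
  have hh0 : (0 : ℝ) < h := lt_trans (by positivity) hh
  have hpos : (0 : ℝ) < 1 / (h : ℝ) := by positivity
  have t1 : Tendsto (fun N : ℕ => (N : ℝ) ^ (1 / (h : ℝ))) atTop atTop :=
    (tendsto_rpow_atTop hpos).comp tendsto_natCast_atTop_atTop
  have t2 : Tendsto (fun N : ℕ => Real.log N) atTop atTop :=
    Real.tendsto_log_atTop.comp tendsto_natCast_atTop_atTop
  have e1 : ∀ᶠ N : ℕ in atTop, (Q₀ : ℝ) + 1 ≤ (N : ℝ) ^ (1 / (h : ℝ)) :=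
    t1.eventually_ge_atTop _
  have e4 : ∀ᶠ N : ℕ in atTop, 1 ≤ Real.log N := t2.eventually_ge_atTop _
  -- log bounds
  have e2 : ∀ᶠ N : ℕ in atTop, Real.log N ^ (A + 1) ≤ (1 / 3) * (N : ℝ) ^ (1 / (h : ℝ)) := by
    have := (isLittleO_log_rpow_rpow_atTop ((A : ℝ) + 1) hpos).bound
      (show (0 : ℝ) < 1 / 3 by norm_num)
    have := tendsto_natCast_atTop_atTop.eventually this
    filter_upwards [this, e4] with N hN hl
    have e : Real.log N ^ ((A : ℝ) + 1) = Real.log N ^ (A + 1) := by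
      rw [← Real.rpow_natCast]; push_cast; rfl
    rw [e, Real.norm_of_nonneg (by positivity), Real.norm_of_nonneg (by positivity)] at hN
    exact hN
  have e3 : ∀ᶠ N : ℕ in atTop, (2 : ℝ) ^ 3 * C * Real.log N ^ (3 * A) ≤
      (N : ℝ) ^ (ε - 22 / (h : ℝ)) := by
    have hpos' : 0 < ε - 22 / (h : ℝ) := by
      have : 25 / (h : ℝ) < ε := by
        rw [div_lt_iff₀ hh0]; rw [div_lt_iff₀ hε] at hh; linarith
      have h3 : 22 / (h : ℝ) ≤ 25 / (h : ℝ) := by gcongr; norm_num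
      linarith
    have := (isLittleO_log_rpow_rpow_atTop ((3 * A : ℕ) : ℝ) hpos').bound
      (show (0 : ℝ) < 1 / (2 ^ 3 * C + 1) by positivity)
    have := tendsto_natCast_atTop_atTop.eventually this
    filter_upwards [this, e4] with N hN hl
    rw [Real.rpow_natCast, Real.norm_of_nonneg (by positivity),
      Real.norm_of_nonneg (by positivity)] at hN
    have h5 : (2 ^ 3 * (C : ℝ) + 1) * Real.log N ^ (3 * A) ≤ (N : ℝ) ^ (ε - 22 / (h : ℝ)) := by
      calc (2 ^ 3 * (C : ℝ) + 1) * Real.log N ^ (3 * A)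
          ≤ (2 ^ 3 * (C : ℝ) + 1) * (1 / (2 ^ 3 * C + 1) * (N : ℝ) ^ (ε - 22 / (h : ℝ))) := by
            gcongr
        _ = (N : ℝ) ^ (ε - 22 / (h : ℝ)) := by field_simp
    have h6 : (0 : ℝ) ≤ Real.log N ^ (3 * A) := by positivity
    nlinarith
  filter_upwards [e1, e2, e3, e4, t1.eventually_ge_atTop 3, eventually_ge_atTop 1] with
    N h1 h2 h3 h4 h5 h6
  refine ⟨h1, by linarith, ?_, h4⟩
  have hN : (0 : ℝ) < N := by exact_mod_cast h6
  have h7 : (1 : ℝ) ≤ Real.log N ^ A := one_le_pow₀ h4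
  calc (Real.log N ^ A + 1) ^ 3 * (C * ((N : ℝ) ^ (1 / (h : ℝ))) ^ 22)
      ≤ (2 * Real.log N ^ A) ^ 3 * (C * ((N : ℝ) ^ (1 / (h : ℝ))) ^ 22) := by
        gcongr
        linarith
    _ = (2 ^ 3 * C * Real.log N ^ (3 * A)) * (N : ℝ) ^ (22 / (h : ℝ)) := by
        rw [← Real.rpow_natCast ((N : ℝ) ^ (1 / (h : ℝ))) 22, ← Real.rpow_mul hN.le]
        have : (1 / (h : ℝ) * ((22 : ℕ) : ℝ)) = 22 / (h : ℝ) := by push_cast; ring
        rw [this, mul_pow, ← pow_mul, mul_comm A 3]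
        ring
    _ ≤ (N : ℝ) ^ (ε - 22 / (h : ℝ)) * (N : ℝ) ^ (22 / (h : ℝ)) := by gcongr
    _ = (N : ℝ) ^ ε := by
        rw [← Real.rpow_add hN]
        congr 1
        ring

/-- The points of a fibre. -/
def toPt (v : ℕ × ℕ × ℕ × ℕ × ℕ × ℕ) : Pt := ![(v.1 : ℤ), (v.2.1 : ℤ), (v.2.2.1 : ℤ)]

/-- The exponents. -/
def toE (v : ℕ × ℕ × ℕ × ℕ × ℕ × ℕ) : ℕ × ℕ × ℕ := (v.2.2.2.1, v.2.2.2.2.1, v.2.2.2.2.2)

theorem final (h1 : Core) (h2 : ExpBound) : Final := by
  classical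
  intro ε hε
  obtain ⟨h, hh⟩ := exists_nat_gt (25 / ε)
  have hh0 : (0 : ℝ) < h := lt_trans (by positivity) hh
  have hh1 : 1 ≤ h := by
    have : 0 < h := by exact_mod_cast hh0
    exact this
  obtain ⟨K, C, Q₀, hC⟩ := h1 h hh1
  obtain ⟨A, N₁, hE⟩ := h2
  obtain ⟨N₀, hN₀⟩ := Filter.eventually_atTop.1 (final_ev ε A C Q₀ h hh hε)
  refine ⟨K, max N₀ N₁, fun N hN => ?_⟩
  obtain ⟨a1, a2, a3, a4⟩ := hN₀ N (le_trans (le_max_left _ _) hN)
  have hE' := hE N (le_trans (le_max_right _ _) hN)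
  set R : ℝ := (N : ℝ) ^ (1 / (h : ℝ)) with hR
  have hR0 : 0 ≤ R := by positivity
  set Q : ℕ := ⌊R⌋₊ with hQ
  have hQ1 : (Q : ℝ) ≤ R := Nat.floor_le hR0
  have hQ2 : R < Q + 1 := Nat.lt_floor_add_one R
  have hQ0 : Q₀ ≤ Q := by
    have : (Q₀ : ℝ) < Q + 1 := by linarith
    have : Q₀ < Q + 1 := by exact_mod_cast this
    omega
  have hNQ : N < (Q + 1) ^ h := by
    have e1 : R ^ h = N := by
      rw [hR, ← Real.rpow_natCast, ← Real.rpow_mul (by positivity)]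
      rw [one_div, inv_mul_cancel₀ hh0.ne', Real.rpow_one]
    have e2 : R ^ h < ((Q : ℝ) + 1) ^ h := by
      apply pow_lt_pow_left₀ hQ2 hR0 (by omega)
    rw [e1] at e2
    exact_mod_cast e2
  have hl2 : Real.log N ^ (A + 1) * 2 ≤ Q := by linarith
  have hlA : Real.log N ^ A ≤ Real.log N ^ (A + 1) := pow_le_pow_right₀ a4 (by omega)
  have hlA1 : (1 : ℝ) ≤ Real.log N ^ A := one_le_pow₀ a4
  have hN1 : 1 ≤ N := by
    rcases Nat.eq_zero_or_pos N with h0 | h0
    · subst h0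
      simp at a4
      linarith
    · exact h0
  set M : ℕ := ⌊Real.log N ^ A⌋₊ with hM
  have hM1 : (M : ℝ) ≤ Real.log N ^ A := Nat.floor_le (by positivity)
  -- facts on exponents
  have hexp : ∀ p : ℕ, (p : ℝ) ≤ Real.log N ^ A → p ≤ M ∧ p ≤ Q ∧ N ^ p ≤ 2 ^ Q := by
    intro p hp
    refine ⟨Nat.le_floor hp, ?_, ?_⟩
    · have : (p : ℝ) ≤ Q := by nlinarith
      exact_mod_cast this
    · have e1 : (p : ℝ) * Real.log N ≤ Q * Real.log 2 := by
        have e2 : (p : ℝ) * Real.log N ≤ Real.log N ^ (A + 1) := by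
          rw [pow_succ]
          gcongr
        have e3 : Real.log N ^ (A + 1) ≤ Q * (1 / 2) := by linarith
        have e4 : (1 / 2 : ℝ) ≤ Real.log 2 := by
          have := Real.log_two_gt_d9
          linarith
        have e5 : (Q : ℝ) * (1 / 2) ≤ Q * Real.log 2 := by gcongr
        linarith
      have e2 : ((N : ℝ) ^ p) ≤ (2 : ℝ) ^ Q := by
        rw [← Real.log_le_log_iff (by positivity) (by positivity), Real.log_pow, Real.log_pow]
        exact e1
      exact_mod_cast e2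
  -- the finite set
  let F : Finset (ℕ × ℕ × ℕ × ℕ × ℕ × ℕ) :=
    ((range (N + 1)) ×ˢ (range (N + 1)) ×ˢ (range (N + 1)) ×ˢ (range (M + 1)) ×ˢ
      (range (M + 1)) ×ˢ (range (M + 1))).filter (fun v => v ∈ SolSet K N)
  have hSF : SolSet K N = (F : Set (ℕ × ℕ × ℕ × ℕ × ℕ × ℕ)) := by
    ext v
    simp only [F, Finset.coe_filter, Set.mem_ofPred_eq]
    constructor
    · intro hv
      refine ⟨?_, hv⟩
      obtain ⟨x, y, z, p, q, r, rfl, hx, hx', hy, hy', hz, hz', hc, hp, hq, hr, he, -, -⟩ := hv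
      obtain ⟨b1, b2, b3⟩ := hE' x y z p q r hx hx' hy hy' hz hz' hc hp hq hr he
      have c1 := (hexp p b1).1
      have c2 := (hexp q b2).1
      have c3 := (hexp r b3).1
      simp only [Finset.mem_product, Finset.mem_range]
      omega
    · exact fun hv => hv.2
  have hfib : ∀ b ∈ (range (M + 1)) ×ˢ (range (M + 1)) ×ˢ (range (M + 1)),
      (F.filter (fun v => toE v = b)).card ≤ C * Q ^ 22 := by
    rintro ⟨p, q, r⟩ -
    rcases (F.filter (fun v => toE v = (p, q, r))).eq_empty_or_nonempty with h0 | ⟨v₀, hv₀⟩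
    · rw [h0]; simp
    have key : ∀ v ∈ F.filter (fun v => toE v = (p, q, r)), ∃ x y z : ℕ,
        v = (x, y, z, p, q, r) ∧ 2 ≤ x ∧ x ≤ N ∧ 2 ≤ y ∧ y ≤ N ∧ 2 ≤ z ∧ z ≤ N ∧
        Nat.Coprime x y ∧ p.Prime ∧ q.Prime ∧ r.Prime ∧ x ^ p + y ^ q = z ^ r ∧
        ¬ (p = q ∧ q = r) ∧ ((K ≤ p ∧ K ≤ q) ∨ (K ≤ p ∧ K ≤ r) ∨ (K ≤ q ∧ K ≤ r)) := by
      intro v hv
      rw [Finset.mem_filter] at hv
      obtain ⟨hv, hve⟩ := hv
      have hv' := (Finset.mem_filter.1 hv).2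
      obtain ⟨x, y, z, p', q', r', rfl, h'⟩ := hv'
      simp only [toE, Prod.mk.injEq] at hve
      obtain ⟨rfl, rfl, rfl⟩ := hve
      exact ⟨x, y, z, rfl, h'⟩
    obtain ⟨x₀, y₀, z₀, -, hx, hx', hy, hy', hz, hz', hc, hp, hq, hr, he, hne, hK⟩ := key v₀ hv₀
    obtain ⟨b1, b2, b3⟩ := hE' x₀ y₀ z₀ p q r hx hx' hy hy' hz hz' hc hp hq hr he
    obtain ⟨-, c1, c1'⟩ := hexp p b1
    obtain ⟨-, c2, c2'⟩ := hexp q b2
    obtain ⟨-, c3, c3'⟩ := hexp r b3
    have hcard : (F.filter (fun v => toE v = (p, q, r))).card =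
        ((F.filter (fun v => toE v = (p, q, r))).image toPt).card := by
      rw [Finset.card_image_of_injOn]
      intro v hv w hw hvw
      obtain ⟨x, y, z, rfl, -⟩ := key v hv
      obtain ⟨x', y', z', rfl, -⟩ := key w hw
      have g0 := congrFun hvw 0
      have g1 := congrFun hvw 1
      have g2 := congrFun hvw 2
      simp only [toPt, Matrix.cons_val_zero, Matrix.cons_val_one, Matrix.cons_val,
        Nat.cast_inj] at g0 g1 g2
      rw [g0, g1, g2]
    rw [hcard]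
    refine hC Q N hQ0 hNQ ![1, 1, -1] ![p, q, r] _ ?_ ?_ ?_ ?_ ?_ ?_ ?_
    · intro i
      fin_cases i <;> simp
    · intro i
      fin_cases i
      · exact hp
      · exact hq
      · exact hr
    · exact hne
    · intro i
      fin_cases i
      · exact c1
      · exact c2
      · exact c3
    · intro i
      fin_cases i
      · exact c1'
      · exact c2'
      · exact c3'
    · rcases hK with hK | hK | hK
      · exact ⟨0, 1, by decide, hK.1, hK.2⟩
      · exact ⟨0, 2, by decide, hK.1, hK.2⟩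
      · exact ⟨1, 2, by decide, hK.1, hK.2⟩
    · intro P hP
      obtain ⟨v, hv, rfl⟩ := Finset.mem_image.1 hP
      obtain ⟨x, y, z, rfl, hx, hx', hy, hy', hz, hz', hc, -, -, -, he, -, -⟩ := key v hv
      have hp0 : p ≠ 0 := hp.ne_zero
      have hq0 : q ≠ 0 := hq.ne_zero
      have hr0 : r ≠ 0 := hr.ne_zero
      have cxz : Nat.Coprime x z := by
        by_contra hcon
        obtain ⟨l, hl, hlx, hlz⟩ := Nat.Prime.not_coprime_iff_dvd.1 hcon
        have d1 : l ∣ x ^ p := dvd_pow hlx hp0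
        have d2 : l ∣ z ^ r := dvd_pow hlz hr0
        have d3 : l ∣ y ^ q := by
          rw [← he] at d2
          exact (Nat.dvd_add_right d1).1 d2
        have d4 : l ∣ y := hl.dvd_of_dvd_pow d3
        exact Nat.Prime.not_coprime_iff_dvd.2 ⟨l, hl, hlx, d4⟩ hc
      have cyz : Nat.Coprime y z := by
        by_contra hcon
        obtain ⟨l, hl, hly, hlz⟩ := Nat.Prime.not_coprime_iff_dvd.1 hcon
        have d1 : l ∣ y ^ q := dvd_pow hly hq0
        have d2 : l ∣ z ^ r := dvd_pow hlz hr0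
        have d3 : l ∣ x ^ p := by
          rw [← he] at d2
          exact (Nat.dvd_add_left d1).1 d2
        have d4 : l ∣ x := hl.dvd_of_dvd_pow d3
        exact Nat.Prime.not_coprime_iff_dvd.2 ⟨l, hl, d4, hly⟩ hc
      have Cxy : IsCoprime (x : ℤ) y := Nat.isCoprime_iff_coprime.2 hc
      have Cxz : IsCoprime (x : ℤ) z := Nat.isCoprime_iff_coprime.2 cxz
      have Cyz : IsCoprime (y : ℤ) z := Nat.isCoprime_iff_coprime.2 cyz
      refine ⟨?_, ?_, ?_⟩
      · intro i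
        fin_cases i <;> simp [toPt] <;> omega
      · intro i j hij
        fin_cases i <;> fin_cases j <;> first
          | exact absurd rfl hij
          | exact Cxy
          | exact Cxz
          | exact Cyz
          | exact Cxy.symm
          | exact Cxz.symm
          | exact Cyz.symm
      · have he' : (x : ℤ) ^ p + (y : ℤ) ^ q = (z : ℤ) ^ r := by exact_mod_cast he
        rw [Fin.sum_univ_three]
        simp only [toPt, Matrix.cons_val_zero, Matrix.cons_val_one, Matrix.cons_val]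
        linarith
  have hmaps : ∀ v ∈ F, toE v ∈ (range (M + 1)) ×ˢ (range (M + 1)) ×ˢ (range (M + 1)) := by
    intro v hv
    have := (Finset.mem_filter.1 hv).1
    simp only [Finset.mem_product] at this
    simp only [toE, Finset.mem_product]
    exact this.2.2.2
  have hcardF : F.card ≤ (C * Q ^ 22) * ((M + 1) * ((M + 1) * (M + 1))) := by
    have := Finset.card_le_mul_card_image_of_maps_to hmaps (C * Q ^ 22) hfib
    simpa [Finset.card_product] using this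
  refine ⟨?_, ?_⟩
  · rw [hSF]
    exact F.finite_toSet
  · rw [hSF, Set.ncard_coe_finset]
    calc ((F.card : ℕ) : ℝ) ≤ (((C * Q ^ 22) * ((M + 1) * ((M + 1) * (M + 1))) : ℕ) : ℝ) := by
          exact_mod_cast hcardF
      _ = ((M : ℝ) + 1) ^ 3 * (C * (Q : ℝ) ^ 22) := by push_cast; ring
      _ ≤ (Real.log N ^ A + 1) ^ 3 * (C * R ^ 22) := by gcongr
      _ ≤ (N : ℝ) ^ ε := a3

end Pool.Agent.Lib.MP_509488_nt.Sparse
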