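import Pool.Agent.Lib.MP_509488_nt.Sparse.Stmts

/-!
# Sparse bases: parametrisation near a smooth point (N2, N3)
-/

namespace Pool.Agent.Lib.MP_509488_nt.Sparse

open MvPolynomial Finset

/-- Evaluation of a composition. -/
theorem par_eval_bind (g : Fin 3 → Pol) (f : Pol) (P : Pt) :
    eval P (bind₁ g f) = eval (fun i => eval P (g i)) f := by
  induction f using MvPolynomial.induction_on with
  | C a => simp
  | add p q hp hq => simp [hp, hq]
  | mul_X p i hp => simp [hp]

/-- Variables of a composition. -/
theorem par_vars_bind (g : Fin 3 → Pol) (f : Pol) (K : Finset (Fin 3))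
    (h : ∀ i, (g i).vars ⊆ K) : (bind₁ g f).vars ⊆ K := by
  refine (vars_bind₁ g f).trans ?_
  intro i hi
  simp only [Finset.mem_biUnion] at hi
  obtain ⟨j, _, hj⟩ := hi
  exact h j hj

/-- Variables of `p + C w * q`. -/
theorem par_vars_add (p q : Pol) (w : ℤ) (K : Finset (Fin 3)) (hp : p.vars ⊆ K)
    (hq : q.vars ⊆ K) : (p + MvPolynomial.C w * q).vars ⊆ K := by
  refine (vars_add_subset _ _).trans (Finset.union_subset hp ?_)
  refine (vars_mul _ _).trans (Finset.union_subset ?_ hq)
  rw [vars_C]
  exact Finset.empty_subset _

/-- Inverse modulo a prime. -/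
theorem par_inv (l : ℕ) (hl : l.Prime) (d : ℤ) (hd : ¬ (l : ℤ) ∣ d) :
    ∃ w : ℤ, (l : ℤ) ∣ 1 - w * d := by
  have hc : IsCoprime (l : ℤ) d :=
    (Prime.coprime_iff_not_dvd (Nat.prime_iff_prime_int.1 hl)).2 hd
  obtain ⟨u, v, huv⟩ := hc
  exact ⟨v, u, by linear_combination -huv⟩

theorem param1 (h : Taylor) : Param1 := by
  intro f c t l M hl hd
  obtain ⟨w, hw⟩ := par_inv l hl _ hd
  suffices H : ∃ q : Pol, q.vars ⊆ univ.erase t ∧
      ∀ P : Pt, Cg l P c → eval P f = 0 → (l : ℤ) ^ M ∣ P t - eval P q by
    obtain ⟨q, hq1, hq2⟩ := H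
    refine ⟨fun i => if i = t then q else X i, ?_, ?_⟩
    · intro i
      by_cases hi : i = t
      · simpa [hi] using hq1
      · simp [hi, vars_X]
    · intro P hP hf i
      by_cases hi : i = t
      · subst hi
        simpa using hq2 P hP hf
      · simp [hi]
  induction M with
  | zero => exact ⟨0, by simp, fun P _ _ => by simp⟩
  | succ M ih =>
    rcases Nat.eq_zero_or_pos M with hM | hM
    · subst hM
      refine ⟨MvPolynomial.C (c t), by rw [vars_C]; exact Finset.empty_subset _, ?_⟩
      intro P hP _
      simpa using hP t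
    · obtain ⟨q, hq1, hq2⟩ := ih
      have hg : ∀ i, ((fun i => if i = t then q else X i : Fin 3 → Pol) i).vars ⊆
          univ.erase t := by
        intro i
        by_cases hi : i = t
        · simpa [hi] using hq1
        · simp [hi, vars_X]
      refine ⟨q + MvPolynomial.C (-w) * bind₁ (fun i => if i = t then q else X i) f,
        par_vars_add _ _ _ _ hq1 (par_vars_bind _ _ _ hg), ?_⟩
      intro P hP hf
      set R : Pt := fun i => eval P ((fun i => if i = t then q else X i : Fin 3 → Pol) i) with hR
      have hRt : R t = eval P q := by simp [hR]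
      have hRi : ∀ i, i ≠ t → R i = P i := fun i hi => by simp [hR, hi]
      have h1 : ∀ i, (l : ℤ) ^ M ∣ P i - R i := by
        intro i
        by_cases hi : i = t
        · subst hi
          rw [hRt]
          exact hq2 P hP hf
        · rw [hRi i hi]; simp
      have h2 := h f c P R l M hM hP h1
      rw [hf] at h2
      have h3 : ∑ i, eval c (pderiv i f) * (P i - R i) =
          eval c (pderiv t f) * (P t - R t) := by
        rw [Finset.sum_eq_single t]
        · intro i _ hi
          rw [hRi i hi]; ring
        · simp
      rw [h3] at h2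
      have h4 : (l : ℤ) ^ (M + 1) ∣ (1 - w * eval c (pderiv t f)) * (P t - R t) := by
        rw [pow_succ, mul_comm ((l : ℤ) ^ M)]
        exact mul_dvd_mul hw (h1 t)
      have h5 : eval P (q + MvPolynomial.C (-w) *
          bind₁ (fun i => if i = t then q else X i) f) = R t - w * eval R f := by
        rw [map_add, map_mul, eval_C, par_eval_bind, hRt]
        ring
      rw [h5]
      have h6 : P t - (R t - w * eval R f) =
          (1 - w * eval c (pderiv t f)) * (P t - R t) -
            w * (0 - eval R f - eval c (pderiv t f) * (P t - R t)) := by ring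
      rw [h6]
      exact dvd_sub h4 (Dvd.dvd.mul_left h2 w)

/-- The three indices. -/
theorem par_cases (a i : Fin 3) : i = a ∨ i = a + 1 ∨ i = a + 2 := by
  revert a i; decide

theorem par_ne (a : Fin 3) : a + 1 ≠ a ∧ a + 2 ≠ a ∧ a + 2 ≠ a + 1 := by
  revert a; decide

theorem par_sum (a : Fin 3) (F : Fin 3 → ℤ) : ∑ i, F i = F a + F (a + 1) + F (a + 2) := by
  rw [Fin.sum_univ_three]
  fin_cases a
  · rfl
  · show F 0 + F 1 + F 2 = F 1 + F 2 + F 0
    ring
  · show F 0 + F 1 + F 2 = F 2 + F 0 + F 1
    ring

theorem param2 (h : Taylor) : Param2 := by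
  intro f g c a l M hl hd
  obtain ⟨w, hw⟩ := par_inv l hl _ hd
  obtain ⟨n1, n2, n3⟩ := par_ne a
  suffices H : ∃ φ : Fin 3 → Pol, (∀ i, (φ i).vars ⊆ {a}) ∧ φ a = X a ∧
      ∀ P : Pt, Cg l P c → eval P f = 0 → eval P g = 0 →
        ∀ i, (l : ℤ) ^ M ∣ P i - eval P (φ i) by
    obtain ⟨φ, h1, _, h3⟩ := H
    exact ⟨φ, h1, h3⟩
  induction M with
  | zero =>
    refine ⟨fun i => if i = a then X a else 0, ?_, by simp, fun P _ _ _ i => by simp⟩
    intro i
    by_cases hi : i = a
    · simp [hi, vars_X]
    · simp [hi]
  | succ M ih =>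
    rcases Nat.eq_zero_or_pos M with hM | hM
    · subst hM
      refine ⟨fun i => if i = a then X a else MvPolynomial.C (c i), ?_, by simp, ?_⟩
      · intro i
        by_cases hi : i = a
        · simp [hi, vars_X]
        · simp only [hi, if_false]
          rw [vars_C]
          exact Finset.empty_subset _
      · intro P hP _ _ i
        by_cases hi : i = a
        · simp [hi]
        · simpa [hi] using hP i
    · obtain ⟨φ, hφ1, hφ2, hφ3⟩ := ih
      set fb := bind₁ φ f with hfb
      set gb := bind₁ φ g with hgb
      set f1 := eval c (pderiv (a + 1) f) with hf1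
      set f2 := eval c (pderiv (a + 2) f) with hf2
      set g1 := eval c (pderiv (a + 1) g) with hg1
      set g2 := eval c (pderiv (a + 2) g) with hg2
      have hcrs : crs f g a c = f1 * g2 - f2 * g1 := rfl
      rw [hcrs] at hw
      have hvf : fb.vars ⊆ {a} := par_vars_bind _ _ _ hφ1
      have hvg : gb.vars ⊆ {a} := par_vars_bind _ _ _ hφ1
      refine ⟨fun i => if i = a then X a else if i = a + 1 then
        φ i + MvPolynomial.C (-(w * g2)) * fb + MvPolynomial.C (w * f2) * gb else
        φ i + MvPolynomial.C (w * g1) * fb + MvPolynomial.C (-(w * f1)) * gb, ?_, by simp, ?_⟩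
      · intro i
        by_cases hi : i = a
        · simp [hi, vars_X]
        · by_cases hi' : i = a + 1
          · simp only [hi', n1, if_true, if_false]
            exact par_vars_add _ _ _ _ (par_vars_add _ _ _ _ (hφ1 _) hvf) hvg
          · simp only [hi, hi', if_false]
            exact par_vars_add _ _ _ _ (par_vars_add _ _ _ _ (hφ1 _) hvf) hvg
      · intro P hP hf hg
        set R : Pt := fun i => eval P (φ i) with hR
        have hRa : R a = P a := by simp [hR, hφ2]
        have h1 : ∀ i, (l : ℤ) ^ M ∣ P i - R i := fun i => hφ3 P hP hf hg i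
        have hFb : eval P fb = eval R f := par_eval_bind _ _ _
        have hGb : eval P gb = eval R g := par_eval_bind _ _ _
        have h2 := h f c P R l M hM hP h1
        have h3 := h g c P R l M hM hP h1
        rw [hf, par_sum a, hRa] at h2
        rw [hg, par_sum a, hRa] at h3
        rw [← hf1, ← hf2] at h2
        rw [← hg1, ← hg2] at h3
        have h4 : ∀ i, (l : ℤ) ^ (M + 1) ∣ (1 - w * (f1 * g2 - f2 * g1)) * (P i - R i) := by
          intro i
          rw [pow_succ, mul_comm ((l : ℤ) ^ M)]
          exact mul_dvd_mul hw (h1 i)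
        intro i
        rcases par_cases a i with hi | hi | hi
        · subst hi
          simp
        · subst hi
          have h5 : eval P ((fun i => if i = a then X a else if i = a + 1 then
              φ i + MvPolynomial.C (-(w * g2)) * fb + MvPolynomial.C (w * f2) * gb else
              φ i + MvPolynomial.C (w * g1) * fb + MvPolynomial.C (-(w * f1)) * gb :
              Fin 3 → Pol) (a + 1)) =
              R (a + 1) - w * g2 * eval R f + w * f2 * eval R g := by
            simp only [n1, if_true, if_false, map_add, map_mul, eval_C, hFb, hGb]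
            simp only [hR]
            ring
          rw [h5]
          have h6 : P (a + 1) - (R (a + 1) - w * g2 * eval R f + w * f2 * eval R g) =
              (1 - w * (f1 * g2 - f2 * g1)) * (P (a + 1) - R (a + 1)) -
              (w * g2 * (0 - eval R f - (eval c (pderiv a f) * (P a - P a) +
                f1 * (P (a + 1) - R (a + 1)) + f2 * (P (a + 2) - R (a + 2)))) -
              w * f2 * (0 - eval R g - (eval c (pderiv a g) * (P a - P a) +
                g1 * (P (a + 1) - R (a + 1)) + g2 * (P (a + 2) - R (a + 2))))) := by ring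
          rw [h6]
          exact dvd_sub (h4 _) (dvd_sub (Dvd.dvd.mul_left h2 _) (Dvd.dvd.mul_left h3 _))
        · subst hi
          have h5 : eval P ((fun i => if i = a then X a else if i = a + 1 then
              φ i + MvPolynomial.C (-(w * g2)) * fb + MvPolynomial.C (w * f2) * gb else
              φ i + MvPolynomial.C (w * g1) * fb + MvPolynomial.C (-(w * f1)) * gb :
              Fin 3 → Pol) (a + 2)) =
              R (a + 2) + w * g1 * eval R f - w * f1 * eval R g := by
            simp only [n2, n3, if_false, map_add, map_mul, eval_C, hFb, hGb]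
            simp only [hR]
            ring
          rw [h5]
          have h6 : P (a + 2) - (R (a + 2) + w * g1 * eval R f - w * f1 * eval R g) =
              (1 - w * (f1 * g2 - f2 * g1)) * (P (a + 2) - R (a + 2)) -
              (w * f1 * (0 - eval R g - (eval c (pderiv a g) * (P a - P a) +
                g1 * (P (a + 1) - R (a + 1)) + g2 * (P (a + 2) - R (a + 2)))) -
              w * g1 * (0 - eval R f - (eval c (pderiv a f) * (P a - P a) +
                f1 * (P (a + 1) - R (a + 1)) + f2 * (P (a + 2) - R (a + 2))))) := by ring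
          rw [h6]
          exact dvd_sub (h4 _) (dvd_sub (Dvd.dvd.mul_left h3 _) (Dvd.dvd.mul_left h2 _))

end Pool.Agent.Lib.MP_509488_nt.Sparse
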