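import Pool.Agent.Lib.MP_509488_nt.Sparse.Stmts

/-!
# Sparse bases: the pigeonhole construction of an auxiliary polynomial
-/

namespace Pool.Agent.Lib.MP_509488_nt.Sparse

namespace Pig

open MvPolynomial Finset

/-- The polynomials with variables in `K` whose coefficient at `a` is divisible by `l ^ |a|`. -/
def sub (l : ℕ) (K : Finset (Fin 3)) : Subring Pol where
  carrier := {F | ∀ a : Fin 3 →₀ ℕ, ((l : ℤ) ^ a.degree ∣ F.coeff a) ∧
    (F.coeff a ≠ 0 → a.support ⊆ K)}
  zero_mem' := by
    intro a
    simp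
  one_mem' := by
    intro a
    by_cases h : a = 0
    · subst h
      simp
    · have h1 : (1 : Pol).coeff a = 0 := by
        rw [MvPolynomial.coeff_one, if_neg (fun h' => h h'.symm)]
      rw [h1]
      simp
  add_mem' := by
    intro F G hF hG a
    refine ⟨?_, ?_⟩
    · rw [coeff_add]
      exact dvd_add (hF a).1 (hG a).1
    · intro h
      by_cases h1 : F.coeff a = 0
      · apply (hG a).2
        intro h2
        apply h
        rw [coeff_add, h1, h2, add_zero]
      · exact (hF a).2 h1
  neg_mem' := by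
    intro F hF a
    refine ⟨?_, ?_⟩
    · rw [coeff_neg]
      exact (dvd_neg).2 (hF a).1
    · intro h
      apply (hF a).2
      intro h1
      apply h
      rw [coeff_neg, h1, neg_zero]
  mul_mem' := by
    classical
    intro F G hF hG a
    refine ⟨?_, ?_⟩
    · rw [coeff_mul]
      apply Finset.dvd_sum
      intro x hx
      rw [Finset.HasAntidiagonal.mem_antidiagonal] at hx
      rw [← hx, map_add, pow_add]
      exact mul_dvd_mul (hF _).1 (hG _).1
    · intro h
      rw [coeff_mul] at h
      obtain ⟨x, hx, hx2⟩ := Finset.exists_ne_zero_of_sum_ne_zero h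
      rw [Finset.HasAntidiagonal.mem_antidiagonal] at hx
      rw [← hx]
      refine (Finsupp.support_add).trans (Finset.union_subset ?_ ?_)
      · exact (hF _).2 (left_ne_zero_of_mul hx2)
      · exact (hG _).2 (right_ne_zero_of_mul hx2)

theorem mem_sub {l : ℕ} {K : Finset (Fin 3)} {F : Pol} : F ∈ sub l K ↔
    ∀ a : Fin 3 →₀ ℕ, ((l : ℤ) ^ a.degree ∣ F.coeff a) ∧ (F.coeff a ≠ 0 → a.support ⊆ K) :=
  Iff.rfl

theorem C_mem (l : ℕ) (K : Finset (Fin 3)) (z : ℤ) : (C z : Pol) ∈ sub l K := by
  have : (C z : Pol) = (z : Pol) := by simp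
  rw [this]
  exact intCast_mem (sub l K) z

theorem lX_mem (l : ℕ) (K : Finset (Fin 3)) (j : Fin 3) (hj : j ∈ K) :
    (C (l : ℤ) * X j : Pol) ∈ sub l K := by
  classical
  intro a
  rw [coeff_C_mul, coeff_X]
  split_ifs with h
  · subst h
    refine ⟨by simp, fun _ => ?_⟩
    refine (Finsupp.support_single_subset).trans ?_
    simpa using hj
  · simp

theorem aeval_mem (l : ℕ) (K : Finset (Fin 3)) (ψ : Fin 3 → Pol) (hψ : ∀ i, ψ i ∈ sub l K)
    (G : Pol) : aeval ψ G ∈ sub l K := by
  induction G using MvPolynomial.induction_on with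
  | C z =>
    rw [aeval_C]
    exact C_mem l K z
  | add p q hp hq =>
    rw [map_add]
    exact (sub l K).add_mem hp hq
  | mul_X p i hp =>
    rw [map_mul, aeval_X]
    exact (sub l K).mul_mem hp (hψ i)

/-- Congruent points give congruent values. -/
theorem eval_cong (q : ℤ) (P R : Pt) (h : ∀ i, q ∣ P i - R i) (G : Pol) :
    q ∣ eval P G - eval R G := by
  induction G using MvPolynomial.induction_on with
  | C z => simp
  | add p r hp hr =>
    rw [map_add, map_add]
    have : eval P p + eval P r - (eval R p + eval R r) =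
        (eval P p - eval R p) + (eval P r - eval R r) := by ring
    rw [this]
    exact dvd_add hp hr
  | mul_X p i hp =>
    rw [map_mul, map_mul, eval_X, eval_X]
    have : eval P p * P i - eval R p * R i =
        (eval P p - eval R p) * P i + eval R p * (P i - R i) := by ring
    rw [this]
    exact dvd_add (hp.mul_right _) ((h i).mul_left _)

/-- the exponent vector -/
noncomputable def ex {m : ℕ} (K : Finset (Fin 3)) (a : K → Fin m) : Fin 3 →₀ ℕ :=
  Finsupp.equivFunOnFinite.symm (fun i => if h : i ∈ K then (a ⟨i, h⟩ : ℕ) else 0)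

theorem ex_apply {m : ℕ} (K : Finset (Fin 3)) (a : K → Fin m) (i : Fin 3) :
    ex K a i = if h : i ∈ K then (a ⟨i, h⟩ : ℕ) else 0 := rfl

/-- the polynomial with given coefficients -/
noncomputable def gp (E : Finset (Fin 3 →₀ ℕ)) (v : (Fin 3 →₀ ℕ) → ℤ) : Pol :=
  ∑ d ∈ E, monomial d (v d)

theorem coeff_gp (E : Finset (Fin 3 →₀ ℕ)) (v : (Fin 3 →₀ ℕ) → ℤ) (d : Fin 3 →₀ ℕ) :
    (gp E v).coeff d = if d ∈ E then v d else 0 := by
  classical
  unfold gp
  rw [coeff_sum]
  simp only [coeff_monomial]
  rw [Finset.sum_ite_eq' E d v]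

theorem gp_sub (E : Finset (Fin 3 →₀ ℕ)) (v w : (Fin 3 →₀ ℕ) → ℤ) :
    gp E v - gp E w = gp E (fun d => v d - w d) := by
  unfold gp
  rw [← Finset.sum_sub_distrib]
  apply Finset.sum_congr rfl
  intro d _
  rw [map_sub]

end Pig

open MvPolynomial Finset Pig in
/-- The pigeonhole construction of an auxiliary polynomial. -/
theorem pigeon : Pigeon := by
  classical
  intro φ K c l m b E hl hm hφ hcard
  have hE : 0 < E.card := by
    rcases Nat.eq_zero_or_pos E.card with h | h
    · rw [h, mul_zero] at hcard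
      have : 0 < m ^ (K.card + 1) := Nat.pow_pos hm
      omega
    · exact h
  have hlpos : 0 < l := hl.pos
  have : NeZero (l ^ m) := ⟨(Nat.pow_pos hlpos).ne'⟩
  -- the substitution
  set σ : Fin 3 → Pol := fun j => C (c j) + C (l : ℤ) * X j with hσ
  set σ' : Fin 3 → Pol := fun j => if j ∈ K then C (c j) + C (l : ℤ) * X j else 0 with hσ'
  set ψ : Fin 3 → Pol := fun i => aeval σ (φ i) with hψ
  have hσ'mem : ∀ j, σ' j ∈ sub l K := by
    intro j
    rw [hσ']
    dsimp only
    split_ifs with h
    · exact (sub l K).add_mem (C_mem l K _) (lX_mem l K j h)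
    · exact (sub l K).zero_mem
  have hψmem : ∀ i, ψ i ∈ sub l K := by
    intro i
    have h1 : ψ i = aeval σ' (φ i) := by
      rw [hψ]
      apply MvPolynomial.eval₂Hom_congr' rfl _ rfl
      intro j hj _
      have hjK : j ∈ K := hφ i hj
      rw [hσ, hσ']
      simp only [if_pos hjK]
    rw [h1]
    exact aeval_mem l K σ' hσ'mem (φ i)
  -- the coefficients
  let vv : (E → Fin (l ^ b + 1)) → (Fin 3 →₀ ℕ) → ℤ :=
    fun v d => if h : d ∈ E then ((v ⟨d, h⟩ : ℕ) : ℤ) else 0
  let f : (E → Fin (l ^ b + 1)) → ((K → Fin m) → ZMod (l ^ m)) :=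
    fun v a => (((aeval ψ (gp E (vv v))).coeff (ex K a) : ℤ) : ZMod (l ^ m))
  have hlt : Fintype.card ((K → Fin m) → ZMod (l ^ m)) < Fintype.card (E → Fin (l ^ b + 1)) := by
    rw [Fintype.card_fun, Fintype.card_fun, Fintype.card_fun, ZMod.card, Fintype.card_fin,
      Fintype.card_fin, Fintype.card_coe, Fintype.card_coe]
    calc (l ^ m) ^ (m ^ K.card) = l ^ (m ^ (K.card + 1)) := by
          rw [← pow_mul, pow_succ, mul_comm]
      _ ≤ l ^ (b * E.card) := Nat.pow_le_pow_right hlpos hcard
      _ = (l ^ b) ^ E.card := by rw [pow_mul]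
      _ < (l ^ b + 1) ^ E.card := Nat.pow_lt_pow_left (Nat.lt_succ_self _) hE.ne'
  obtain ⟨v, w, hvw, hf⟩ := Fintype.exists_ne_map_eq_of_card_lt f hlt
  set G : Pol := gp E (fun d => vv v d - vv w d) with hG
  have hGsub : gp E (vv v) - gp E (vv w) = G := gp_sub E _ _
  -- all coefficients of the composition are divisible
  have hcoef : ∀ d : Fin 3 →₀ ℕ, (l : ℤ) ^ m ∣ (aeval ψ G).coeff d := by
    intro d
    obtain ⟨h1, h2⟩ := mem_sub.1 (aeval_mem l K ψ hψmem G) d
    by_cases h0 : (aeval ψ G).coeff d = 0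
    · rw [h0]; exact dvd_zero _
    have hd := h2 h0
    by_cases hall : ∀ i, d i < m
    · have hex : d = ex K (fun i : K => (⟨d i, hall i⟩ : Fin m)) := by
        ext i
        rw [ex_apply]
        split_ifs with h
        · rfl
        · by_contra hne
          exact h (hd (Finsupp.mem_support_iff.2 hne))
      have hfa := congrFun hf (fun i : K => (⟨d i, hall i⟩ : Fin m))
      have hfa' : (((aeval ψ (gp E (vv v))).coeff d : ℤ) : ZMod (l ^ m)) =
          (((aeval ψ (gp E (vv w))).coeff d : ℤ) : ZMod (l ^ m)) := by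
        have e1 : f v (fun i : K => (⟨d i, hall i⟩ : Fin m)) =
          (((aeval ψ (gp E (vv v))).coeff d : ℤ) : ZMod (l ^ m)) := by
            show (((aeval ψ (gp E (vv v))).coeff (ex K _) : ℤ) : ZMod (l ^ m)) = _
            rw [← hex]
        have e2 : f w (fun i : K => (⟨d i, hall i⟩ : Fin m)) =
          (((aeval ψ (gp E (vv w))).coeff d : ℤ) : ZMod (l ^ m)) := by
            show (((aeval ψ (gp E (vv w))).coeff (ex K _) : ℤ) : ZMod (l ^ m)) = _
            rw [← hex]
        rw [← e1, ← e2, hfa]
      have h3 := (ZMod.intCast_eq_intCast_iff_dvd_sub _ _ _).1 hfa'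
      rw [← hGsub, map_sub, coeff_sub]
      have h4 : ((l ^ m : ℕ) : ℤ) ∣ (aeval ψ (gp E (vv v))).coeff d -
          (aeval ψ (gp E (vv w))).coeff d := by
        rw [← dvd_neg, neg_sub]
        exact h3
      simpa using h4
    · push Not at hall
      obtain ⟨i, hi⟩ := hall
      have h5 : m ≤ d.degree := by
        refine hi.trans ?_
        rw [Finsupp.degree_eq_sum]
        exact Finset.single_le_sum (f := fun i => d i) (fun _ _ => Nat.zero_le _)
          (Finset.mem_univ i)
      exact (pow_dvd_pow _ h5).trans h1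
  refine ⟨G, ?_, ?_, ?_, ?_⟩
  · -- nonzero
    intro h0
    apply hvw
    funext d
    have h1 : G.coeff d.1 = 0 := by rw [h0]; simp
    rw [hG, coeff_gp, if_pos d.2] at h1
    have h2 : vv v d.1 = vv w d.1 := sub_eq_zero.1 h1
    simp only [vv, dif_pos d.2] at h2
    apply Fin.ext
    exact_mod_cast h2
  · -- support
    intro d hd
    by_contra hdE
    rw [mem_support_iff, hG, coeff_gp, if_neg hdE] at hd
    exact hd rfl
  · -- size
    intro d
    rw [hG, coeff_gp]
    split_ifs with h
    · simp only [vv, dif_pos h]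
      have h1 : ((v ⟨d, h⟩ : ℕ) : ℤ) ≤ (l : ℤ) ^ b := by
        have := Nat.lt_succ_iff.1 (v ⟨d, h⟩).2
        exact_mod_cast this
      have h2 : ((w ⟨d, h⟩ : ℕ) : ℤ) ≤ (l : ℤ) ^ b := by
        have := Nat.lt_succ_iff.1 (w ⟨d, h⟩).2
        exact_mod_cast this
      have h3 : (0 : ℤ) ≤ ((v ⟨d, h⟩ : ℕ) : ℤ) := Int.natCast_nonneg _
      have h4 : (0 : ℤ) ≤ ((w ⟨d, h⟩ : ℕ) : ℤ) := Int.natCast_nonneg _
      rw [abs_le]
      constructor <;> linarith
    · simp
  · -- vanishing
    intro P hP hPφ
    choose u hu using hP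
    have h1 := eval_cong ((l : ℤ) ^ m) P (fun i => eval P (φ i)) hPφ G
    have hPu : ∀ j, P j = c j + l * u j := fun j => by
      have := hu j
      linarith
    have h2 : eval (fun i => eval P (φ i)) G = eval u (aeval ψ G) := by
      have h3 : ∀ i, eval P (φ i) = eval u (ψ i) := by
        intro i
        rw [hψ]
        have h4 : eval u (aeval σ (φ i)) = eval (fun j => eval u (σ j)) (φ i) := by
          have := MvPolynomial.eval₂_comp_left (eval u) (C : ℤ →+* Pol) σ (φ i)
          have h5 : (eval u).comp (C : ℤ →+* Pol) = RingHom.id ℤ := by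
            ext z
            simp
          rw [h5] at this
          exact this
        show eval P (φ i) = eval u (aeval σ (φ i))
        rw [h4]
        congr 1
        congr 1
        funext j
        rw [hPu j, hσ]
        simp
      have h4 : eval u (aeval ψ G) = eval (fun j => eval u (ψ j)) G := by
        have := MvPolynomial.eval₂_comp_left (eval u) (C : ℤ →+* Pol) ψ G
        have h5 : (eval u).comp (C : ℤ →+* Pol) = RingHom.id ℤ := by
          ext z
          simp
        rw [h5] at this
        exact this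
      rw [h4]
      congr 1
      congr 1
      funext i
      exact h3 i
    have h3 : (l : ℤ) ^ m ∣ eval u (aeval ψ G) := by
      rw [MvPolynomial.eval_eq]
      apply Finset.dvd_sum
      intro d _
      exact (hcoef d).mul_right _
    rw [← h2] at h3
    have := dvd_add h1 h3
    simpa using this

end Pool.Agent.Lib.MP_509488_nt.Sparse
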