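import Pool.Agent.Lib.MP_509488_nt.Sparse.Stmts

/-!
# Sparse bases: a nonzero integer is not divisible by all primes of an interval
-/

namespace Pool.Agent.Lib.MP_509488_nt.Sparse

open Finset

theorem pri_aux : ∃ Q₀ : ℕ, 10 ≤ Q₀ ∧ ∀ Q : ℕ, Q₀ ≤ Q → Real.log Q ≤ (1 / 50 : ℝ) * Q := by
  have h := (Real.isLittleO_log_id_atTop.def (show (0 : ℝ) < 1 / 50 by norm_num))
  have h2 := (tendsto_natCast_atTop_atTop (R := ℝ)).eventually h
  obtain ⟨a, ha⟩ := Filter.eventually_atTop.1 h2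
  refine ⟨max a 10, le_max_right _ _, fun Q hQ => ?_⟩
  have h3 := ha Q (le_trans (le_max_left _ _) hQ)
  have h4 : ‖id (Q : ℝ)‖ = Q := by
    rw [id, Real.norm_eq_abs, abs_of_nonneg (Nat.cast_nonneg Q)]
  rw [h4, Real.norm_eq_abs] at h3
  exact le_trans (le_abs_self _) h3

theorem primeNot : PrimeNot := by
  obtain ⟨Q₀, hQ10, hQ₀⟩ := pri_aux
  refine ⟨Q₀, fun Q hQ Z hZ hZQ => ?_⟩
  by_contra hcon
  push Not at hcon
  set S : Finset ℕ := (Nat.primesLE (Q ^ 2)) \ (Nat.primesLE Q) with hS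
  have hQQ : Q ≤ Q ^ 2 := by nlinarith
  have hmem : ∀ l ∈ S, l.Prime ∧ Q < l ∧ l ≤ Q ^ 2 := by
    intro l hl
    obtain ⟨h1, h2⟩ := Finset.mem_sdiff.1 hl
    rw [Nat.mem_primesLE] at h1 h2
    refine ⟨h1.2, ?_, h1.1⟩
    by_contra h3
    exact h2 ⟨not_lt.1 h3, h1.2⟩
  have hdvd : (∏ l ∈ S, l) ∣ Z.natAbs := by
    refine Finset.prod_primes_dvd _ (fun l hl => (hmem l hl).1.prime) fun l hl => ?_
    obtain ⟨h1, h2, h3⟩ := hmem l hl
    have := hcon l h1 h2 h3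
    exact Int.natCast_dvd.1 this
  have hprod : ∏ l ∈ S, l < Q ^ Q := by
    refine lt_of_le_of_lt (Nat.le_of_dvd (Int.natAbs_pos.2 hZ) hdvd) ?_
    have : (Z.natAbs : ℤ) < (Q : ℤ) ^ Q := by
      rw [Int.natCast_natAbs]
      exact hZQ
    exact_mod_cast this
  have hQpos : 0 < Q := by omega
  have hQR : (10 : ℝ) ≤ Q := by exact_mod_cast le_trans hQ10 hQ
  have hlog : ∑ l ∈ S, Real.log l < Q * Real.log Q := by
    rw [← Real.log_prod (fun l hl => by
      have := (hmem l hl).1.pos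
      positivity), ← Real.log_pow]
    refine Real.log_lt_log (Finset.prod_pos fun l hl => by
      have := (hmem l hl).1.pos
      positivity) ?_
    rw [← Nat.cast_prod]
    exact_mod_cast hprod
  have hsub : Nat.primesLE Q ⊆ Nat.primesLE (Q ^ 2) := by
    intro l hl
    rw [Nat.mem_primesLE] at hl ⊢
    exact ⟨le_trans hl.1 hQQ, hl.2⟩
  have hsum : ∑ l ∈ S, Real.log l + Chebyshev.theta Q = Chebyshev.theta ((Q ^ 2 : ℕ) : ℝ) := by
    rw [Chebyshev.theta_eq_sum_primesLE_log, Chebyshev.theta_eq_sum_primesLE_log, hS]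
    exact Finset.sum_sdiff hsub
  have h1 := Chebyshev.theta_ge (Q ^ 2)
  have h2 := Chebyshev.theta_le_log4_mul_x (Nat.cast_nonneg Q : (0 : ℝ) ≤ Q)
  have hL := hQ₀ Q hQ
  have hL0 : 0 ≤ Real.log Q := Real.log_nonneg (by linarith)
  have h3 : Real.log (((Q ^ 2 : ℕ) : ℝ) + 1) ≤ Real.log 2 + 2 * Real.log Q := by
    have h4 : Real.log 2 + 2 * Real.log Q = Real.log (2 * (Q : ℝ) ^ 2) := by
      rw [Real.log_mul (by norm_num) (by positivity), Real.log_pow]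
      norm_num
    rw [h4]
    refine Real.log_le_log (by positivity) ?_
    push_cast
    nlinarith
  have h5 : √((Q ^ 2 : ℕ) : ℝ) = Q := by
    push_cast
    exact Real.sqrt_sq (by linarith)
  have h6 : Real.log ((Q ^ 2 : ℕ) : ℝ) = 2 * Real.log Q := by
    push_cast
    rw [Real.log_pow]
    norm_num
  rw [h5, h6] at h1
  have h7 : (0.69 : ℝ) < Real.log 2 := by
    have := Real.log_two_gt_d9
    linarith
  have h8 : Real.log 2 < (0.7 : ℝ) := by
    have := Real.log_two_lt_d9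
    linarith
  have h9 : Real.log 4 = 2 * Real.log 2 := by
    rw [show (4 : ℝ) = 2 ^ 2 by norm_num, Real.log_pow]
    norm_num
  rw [h9] at h2
  push_cast at h1 h3 hsum
  have h10 : (Q : ℝ) * Real.log Q ≤ (1 / 50) * (Q : ℝ) ^ 2 := by nlinarith
  have h11 : 0.69 * (Q : ℝ) ^ 2 ≤ (Q : ℝ) ^ 2 * Real.log 2 := by nlinarith [sq_nonneg (Q : ℝ)]
  have h12 : 2 * Real.log 2 * (Q : ℝ) ≤ 1.4 * Q := by nlinarith
  have h13 : 100 ≤ (Q : ℝ) ^ 2 := by nlinarith
  have h14 : 1.5 * (Q : ℝ) ≤ 0.15 * (Q : ℝ) ^ 2 := by nlinarith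
  linarith

end Pool.Agent.Lib.MP_509488_nt.Sparse
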