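import Pool.Agent.Lib.MP_509488_nt.Sparse.Stmts

/-!
# Sparse bases: points of a class on a surface or a curve
-/

namespace Pool.Agent.Lib.MP_509488_nt.Sparse

open MvPolynomial Finset

/-- Exponents `< D` supported on `S`. -/
noncomputable def expSet (S : Finset (Fin 3)) (D : ℕ) : Finset (Fin 3 →₀ ℕ) :=
  S.finsupp fun _ => Finset.range D

theorem expSet_card (S : Finset (Fin 3)) (D : ℕ) : (expSet S D).card = D ^ S.card := by
  unfold expSet
  rw [Finset.card_finsupp]
  simp

theorem mem_expSet {S : Finset (Fin 3)} {D : ℕ} {m : Fin 3 →₀ ℕ} :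
    m ∈ expSet S D ↔ m.support ⊆ S ∧ ∀ i ∈ S, m i < D := by
  unfold expSet
  rw [Finset.mem_finsupp_iff]
  simp

theorem eval_bound (S : Finset (Fin 3)) (D B N : ℕ) (G : Pol) (P : Pt)
    (hG : G.support ⊆ expSet S D) (hB : ∀ d, |G.coeff d| ≤ (B : ℤ)) (hP : Box N P) :
    |eval P G| ≤ ((D ^ S.card * B * N ^ (S.card * D) : ℕ) : ℤ) := by
  have hN : (1 : ℤ) ≤ N := le_trans (hP 0).1 (hP 0).2
  rw [eval_eq']
  refine le_trans (Finset.abs_sum_le_sum_abs _ _) ?_
  have hterm : ∀ d ∈ G.support, |G.coeff d * ∏ i, P i ^ d i| ≤ (B : ℤ) * N ^ (S.card * D) := by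
    intro d hd
    have hm := mem_expSet.1 (hG hd)
    rw [abs_mul]
    apply mul_le_mul (hB d) _ (abs_nonneg _) (by positivity)
    have hnn : 0 ≤ ∏ i, P i ^ d i :=
      Finset.prod_nonneg fun i _ => pow_nonneg (by have := (hP i).1; omega) _
    rw [abs_of_nonneg hnn]
    have h1 : ∏ i, P i ^ d i = ∏ i ∈ S, P i ^ d i := by
      symm
      apply Finset.prod_subset (Finset.subset_univ _)
      intro i _ hi
      have : d i = 0 := by
        by_contra hne
        exact hi (hm.1 (Finsupp.mem_support_iff.2 hne))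
      rw [this, pow_zero]
    rw [h1]
    calc ∏ i ∈ S, P i ^ d i ≤ ∏ _i ∈ S, (N : ℤ) ^ D := by
          apply Finset.prod_le_prod
          · intro i _
            exact pow_nonneg (by have := (hP i).1; omega) _
          · intro i hi
            calc P i ^ d i ≤ (N : ℤ) ^ d i :=
                  pow_le_pow_left₀ (by have := (hP i).1; omega) (hP i).2 _
              _ ≤ (N : ℤ) ^ D := pow_le_pow_right₀ hN (le_of_lt (hm.2 i hi))
      _ = (N : ℤ) ^ (S.card * D) := by
          rw [Finset.prod_const, ← pow_mul, mul_comm]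
  refine le_trans (Finset.sum_le_sum hterm) ?_
  rw [Finset.sum_const, nsmul_eq_mul]
  have hc : G.support.card ≤ D ^ S.card := by
    rw [← expSet_card]
    exact Finset.card_le_card hG
  have hc' : (G.support.card : ℤ) ≤ (D : ℤ) ^ S.card := by
    exact_mod_cast hc
  push_cast
  rw [mul_assoc]
  exact mul_le_mul_of_nonneg_right hc' (by positivity)

theorem stSurf (h1 : Param1) (h2 : Pigeon) : StSurf := by
  intro f c t l b D N hl hft hb hD hsize
  obtain ⟨φ, hφ, hφP⟩ := h1 f c t l (4 * b) hl hft
  have hcard : (univ.erase t : Finset (Fin 3)).card = 2 := by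
    rw [Finset.card_erase_of_mem (Finset.mem_univ _)]
    simp
  obtain ⟨G, hG0, hGs, hGc, hGP⟩ := h2 φ (univ.erase t) c l (4 * b) b (expSet univ D) hl
    (by omega) hφ (by
      rw [hcard, expSet_card]
      simpa using hD)
  refine ⟨G, hG0, ?_, ?_⟩
  · intro m hm
    refine ⟨fun i => (mem_expSet.1 (hGs hm)).2 i (Finset.mem_univ _), ?_⟩
    push_cast
    exact hGc m
  · intro P hBox hCg hf
    have hdvd := hGP P hCg (hφP P hCg hf)
    have hbd := eval_bound univ D (l ^ b) N G P hGs (by
      intro d
      push_cast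
      exact hGc d) hBox
    apply Int.eq_zero_of_abs_lt_dvd hdvd
    refine lt_of_le_of_lt hbd ?_
    have : D ^ (univ : Finset (Fin 3)).card * l ^ b * N ^ ((univ : Finset (Fin 3)).card * D) <
        l ^ (4 * b) := by simpa using hsize
    exact_mod_cast this

theorem stCurve (h1 : Param2) (h2 : Pigeon) : StCurve := by
  intro f g c a t l b D N hl hcrs hb hD hsize
  obtain ⟨φ, hφ, hφP⟩ := h1 f g c a l (4 * b) hl hcrs
  have hcard : (univ.erase t : Finset (Fin 3)).card = 2 := by
    rw [Finset.card_erase_of_mem (Finset.mem_univ _)]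
    simp
  obtain ⟨G, hG0, hGs, hGc, hGP⟩ := h2 φ {a} c l (4 * b) b (expSet (univ.erase t) D) hl
    (by omega) hφ (by
      rw [expSet_card, hcard, Finset.card_singleton]
      exact hD)
  have hDpos : 0 < D := by
    rcases Nat.eq_zero_or_pos D with h | h
    · exfalso
      rw [h] at hD
      have : 0 < (4 * b) ^ 2 := by positivity
      omega
    · exact h
  refine ⟨G, hG0, ?_, ?_, ?_⟩
  · intro ht
    rw [mem_vars_iff_mem_support] at ht
    obtain ⟨d, hd, hdt⟩ := ht
    have := (mem_expSet.1 (hGs hd)).1 hdt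
    exact (Finset.notMem_erase t _) this
  · intro m hm
    have hme := mem_expSet.1 (hGs hm)
    refine ⟨fun i => ?_, ?_⟩
    · by_cases hi : i = t
      · have : m i = 0 := by
          by_contra hne
          have := hme.1 (Finsupp.mem_support_iff.2 hne)
          rw [hi] at this
          exact (Finset.notMem_erase t _) this
        omega
      · exact hme.2 i (Finset.mem_erase.2 ⟨hi, Finset.mem_univ _⟩)
    · push_cast
      exact hGc m
  · intro P hBox hCg hf hg
    have hdvd := hGP P hCg (hφP P hCg hf hg)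
    have hbd := eval_bound (univ.erase t) D (l ^ b) N G P hGs (by
      intro d
      push_cast
      exact hGc d) hBox
    apply Int.eq_zero_of_abs_lt_dvd hdvd
    refine lt_of_le_of_lt hbd ?_
    rw [hcard]
    exact_mod_cast hsize

end Pool.Agent.Lib.MP_509488_nt.Sparse
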