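import Pool.Agent.Lib.MP_509488_nt.Sparse.Stmts

/-!
# Module SA: Taylor formula and Hensel uniqueness
-/

namespace Pool.Agent.Lib.MP_509488_nt.Sparse

open MvPolynomial Finset

namespace Tay

/-- Congruent points give congruent values. -/
lemma eval_congr (F : Pol) {P R : Pt} {d : ℤ} (h : ∀ i, d ∣ P i - R i) :
    d ∣ eval P F - eval R F := by
  induction F using MvPolynomial.induction_on with
  | C a => simp
  | add p q hp hq =>
    rw [map_add, map_add]
    have e : eval P p + eval P q - (eval R p + eval R q) =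
        (eval P p - eval R p) + (eval P q - eval R q) := by ring
    rw [e]
    exact dvd_add hp hq
  | mul_X p i hp =>
    rw [map_mul, map_mul, eval_X, eval_X]
    have e : eval P p * P i - eval R p * R i =
        (eval P p - eval R p) * P i + eval R p * (P i - R i) := by ring
    rw [e]
    exact dvd_add (hp.mul_right _) ((h i).mul_left _)

/-- The derivative of `p X_j`. -/
lemma sum_mul_X (p : Pol) (j : Fin 3) (c d : Pt) :
    ∑ i, eval c (pderiv i (p * X j)) * d i =
      c j * (∑ i, eval c (pderiv i p) * d i) + eval c p * d j := by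
  have h : ∀ i : Fin 3, eval c (pderiv i (p * X j)) * d i =
      c j * (eval c (pderiv i p) * d i) + (if i = j then eval c p * d i else 0) := by
    intro i
    rw [pderiv_mul, map_add, map_mul, map_mul, eval_X, pderiv_X]
    by_cases hij : i = j
    · subst hij
      simp
      ring
    · rw [if_neg hij, Pi.single_eq_of_ne (Ne.symm hij)]
      simp
      ring
  rw [Finset.sum_congr rfl fun i _ => h i, Finset.sum_add_distrib, ← Finset.mul_sum]
  simp

/-- Uniqueness in Hensel's lemma. -/
lemma hensel_unique (hT : Taylor) (F : Fin 3 → Pol) {P R : Pt} {l : ℕ} (hl : l.Prime)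
    (hP : ∀ i, eval P (F i) = 0) (hR : ∀ i, eval R (F i) = 0) (hJ : ¬ (l : ℤ) ∣ jac F P)
    (hc : ∀ i, (l : ℤ) ∣ P i - R i) : P = R := by
  have hlp : Prime (l : ℤ) := Nat.prime_iff_prime_int.mp hl
  have hcop : IsCoprime (l : ℤ) (jac F P) :=
    (Prime.coprime_iff_not_dvd hlp).mpr hJ
  have key : ∀ M : ℕ, ∀ i, (l : ℤ) ^ (M + 1) ∣ P i - R i := by
    intro M
    induction M with
    | zero => simpa using hc
    | succ M ih =>
      set J : Matrix (Fin 3) (Fin 3) ℤ := Matrix.of (fun i j : Fin 3 => eval P (pderiv j (F i)))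
        with hJdef
      set d : Fin 3 → ℤ := fun i => P i - R i with hd
      have h1 : ∀ a, (l : ℤ) ^ (M + 1 + 1) ∣ (J.mulVec d) a := by
        intro a
        have h2 := hT (F a) P P R l (M + 1) (by omega) (fun i => by simp) ih
        rw [hP, hR, sub_zero, zero_sub, dvd_neg] at h2
        exact h2
      intro i
      have h3 : jac F P * d i = ∑ a, J.adjugate i a * (J.mulVec d) a := by
        have h4 : J.adjugate.mulVec (J.mulVec d) = J.det • d := by
          rw [Matrix.mulVec_mulVec, Matrix.adjugate_mul, Matrix.smul_mulVec, Matrix.one_mulVec]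
        have h5 := congrFun h4 i
        rw [Pi.smul_apply, smul_eq_mul] at h5
        rw [jac, ← hJdef, ← h5]
        rfl
      have h6 : (l : ℤ) ^ (M + 1 + 1) ∣ jac F P * d i := by
        rw [h3]
        exact Finset.dvd_sum fun a _ => (h1 a).mul_left _
      exact hcop.pow_left.dvd_of_dvd_mul_left h6
  funext i
  by_contra hne
  have h0 : (P i - R i).natAbs ≠ 0 := by
    rw [Int.natAbs_ne_zero]
    exact sub_ne_zero.mpr hne
  set n := (P i - R i).natAbs with hn
  have h1 : l ^ (n + 1) ∣ n := by
    have h2 := Int.natAbs_dvd_natAbs.mpr (key n i)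
    rwa [Int.natAbs_pow, Int.natAbs_natCast] at h2
  have h3 := Nat.le_of_dvd (Nat.pos_of_ne_zero h0) h1
  have h4 : n + 1 < 2 ^ (n + 1) := Nat.lt_two_pow_self
  have h5 : 2 ^ (n + 1) ≤ l ^ (n + 1) := Nat.pow_le_pow_left hl.two_le _
  omega

end Tay

open Tay

/-- T: Taylor formula to the first order. -/
theorem taylor : Taylor := by
  intro F c P R l M hM hPc hPR
  have hRc : ∀ i, (l : ℤ) ∣ R i - c i := by
    intro i
    have h1 : (l : ℤ) ∣ P i - R i := (dvd_pow_self (l : ℤ) (by omega)).trans (hPR i)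
    have e : R i - c i = (P i - c i) - (P i - R i) := by ring
    rw [e]
    exact dvd_sub (hPc i) h1
  induction F using MvPolynomial.induction_on with
  | C a => simp
  | add p q hp hq =>
    have e : eval P (p + q) - eval R (p + q) - ∑ i, eval c (pderiv i (p + q)) * (P i - R i) =
        (eval P p - eval R p - ∑ i, eval c (pderiv i p) * (P i - R i)) +
        (eval P q - eval R q - ∑ i, eval c (pderiv i q) * (P i - R i)) := by
      simp only [map_add, add_mul, Finset.sum_add_distrib]
      ring
    rw [e]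
    exact dvd_add hp hq
  | mul_X p j hp =>
    rw [sum_mul_X p j c (fun i => P i - R i)]
    set S := ∑ i, eval c (pderiv i p) * (P i - R i) with hS
    have e : eval P (p * X j) - eval R (p * X j) - (c j * S + eval c p * (P j - R j)) =
        P j * (eval P p - eval R p - S) + (P j - c j) * S +
          (eval R p - eval c p) * (P j - R j) := by
      rw [map_mul, map_mul, eval_X, eval_X]
      ring
    have hSd : (l : ℤ) ^ M ∣ S := Finset.dvd_sum fun i _ => (hPR i).mul_left _
    have hpw : (l : ℤ) ^ (M + 1) = (l : ℤ) * (l : ℤ) ^ M := by ring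
    rw [e]
    refine dvd_add (dvd_add (hp.mul_left _) ?_) ?_
    · rw [hpw]
      exact mul_dvd_mul (hPc j) hSd
    · rw [hpw]
      exact mul_dvd_mul (eval_congr p hRc) (hPR j)

/-- N1: Hensel uniqueness. -/
theorem nonDeg (h : Taylor) : NonDeg := by
  classical
  intro F T L R hL hT
  have hcard : ∀ l ∈ L, (T.filter fun P => ¬ (l : ℤ) ∣ jac F P).card ≤ R ^ 3 := by
    intro l hl
    obtain ⟨hlp, hlR⟩ := hL l hl
    have : NeZero l := ⟨hlp.ne_zero⟩
    have h1 : (T.filter fun P => ¬ (l : ℤ) ∣ jac F P).card ≤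
        (Finset.univ : Finset (Fin 3 → ZMod l)).card := by
      refine Finset.card_le_card_of_injOn (fun P i => (P i : ZMod l)) (fun _ _ => Finset.mem_univ _) ?_
      intro P hP Q hQ hPQ
      rw [Finset.mem_coe, Finset.mem_filter] at hP hQ
      refine hensel_unique h F hlp (hT P hP.1).1 (hT Q hQ.1).1 hP.2 fun i => ?_
      have h2 : ((P i : ℤ) : ZMod l) = ((Q i : ℤ) : ZMod l) := congrFun hPQ i
      rw [← ZMod.intCast_zmod_eq_zero_iff_dvd, Int.cast_sub, h2, sub_self]
    refine h1.trans ?_
    rw [Finset.card_univ, Fintype.card_fun, ZMod.card, Fintype.card_fin]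
    exact Nat.pow_le_pow_left hlR 3
  have hsub : T ⊆ L.biUnion fun l => T.filter fun P => ¬ (l : ℤ) ∣ jac F P := by
    intro P hP
    obtain ⟨_, l, hl, hJ⟩ := hT P hP
    rw [Finset.mem_biUnion]
    exact ⟨l, hl, Finset.mem_filter.mpr ⟨hP, hJ⟩⟩
  calc T.card ≤ _ := Finset.card_le_card hsub
    _ ≤ ∑ l ∈ L, (T.filter fun P => ¬ (l : ℤ) ∣ jac F P).card := Finset.card_biUnion_le
    _ ≤ ∑ _l ∈ L, R ^ 3 := Finset.sum_le_sum hcard
    _ = L.card * R ^ 3 := by rw [Finset.sum_const, smul_eq_mul]

end Pool.Agent.Lib.MP_509488_nt.Sparse
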