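import Pool.Agent.Lib.MP_509488_nt.Sparse.Stmts

/-!
# Sparse bases: weights and the Euler operator (modules W, W')
-/

namespace Pool.Agent.Lib.MP_509488_nt.Sparse

open MvPolynomial Finset

/-- The value of a monomial. -/
noncomputable def mv (P : Pt) (m : Fin 3 →₀ ℕ) : ℤ := ∏ i, P i ^ m i

theorem eval_monomial' (P : Pt) (m : Fin 3 →₀ ℕ) (a : ℤ) :
    eval P (monomial m a) = a * mv P m := by
  rw [eval_monomial, mv, Finsupp.prod_fintype _ _ (fun _ => pow_zero _)]

theorem eval_eulk (e : Fin 3 → ℕ) (k : ℕ) (G : Pol) (P : Pt) :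
    eval P (eulk e k G) = ∑ m ∈ G.support, G.coeff m * (wt e m : ℤ) ^ k * mv P m := by
  rw [eulk, map_sum]
  exact Finset.sum_congr rfl fun m _ => eval_monomial' P m _

theorem P_mul_eval_pderiv (P : Pt) (m : Fin 3 →₀ ℕ) (a : ℤ) (i : Fin 3) :
    P i * eval P (pderiv i (monomial m a)) = a * (m i : ℤ) * mv P m := by
  classical
  rw [pderiv_monomial, eval_monomial']
  by_cases h : m i = 0
  · simp [h]
  · have : mv P m = P i * mv P (m - Finsupp.single i 1) := by
      rw [mv, mv, ← Finset.mul_prod_erase Finset.univ (fun j => P j ^ m j) (mem_univ i),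
        ← Finset.mul_prod_erase Finset.univ
          (fun j => P j ^ (m - Finsupp.single i 1 : Fin 3 →₀ ℕ) j) (mem_univ i), ← mul_assoc]
      congr 1
      · have h1 : (m - Finsupp.single i 1 : Fin 3 →₀ ℕ) i = m i - 1 := by simp
        rw [h1, ← pow_succ']
        congr 1
        omega
      · refine Finset.prod_congr rfl fun j hj => ?_
        have hne : j ≠ i := Finset.ne_of_mem_erase hj
        have h1 : (m - Finsupp.single i 1 : Fin 3 →₀ ℕ) j = m j := by
          simp [Finsupp.single_eq_of_ne hne]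
        rw [h1]
    rw [this]
    ring

theorem eul_eulk (e : Fin 3 → ℕ) (k : ℕ) (G : Pol) (P : Pt) :
    eul e (eulk e k G) P = ∑ m ∈ G.support, G.coeff m * (wt e m : ℤ) ^ (k + 1) * mv P m := by
  rw [eul]
  have h1 : ∀ i : Fin 3, (cof e i : ℤ) * P i * eval P (pderiv i (eulk e k G)) =
      ∑ m ∈ G.support, (cof e i : ℤ) * (m i : ℤ) * (G.coeff m * (wt e m : ℤ) ^ k * mv P m) := by
    intro i
    rw [eulk, map_sum, map_sum, Finset.mul_sum]
    refine Finset.sum_congr rfl fun m _ => ?_
    rw [mul_assoc, P_mul_eval_pderiv]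
    ring
  rw [Finset.sum_congr rfl fun i _ => h1 i, Finset.sum_comm]
  refine Finset.sum_congr rfl fun m _ => ?_
  rw [← Finset.sum_mul]
  have h2 : ∑ i, (cof e i : ℤ) * (m i : ℤ) = (wt e m : ℤ) := by
    rw [wt]
    push_cast
    rfl
  rw [h2]
  ring

theorem card_support_le' {D B : ℕ} {G : Pol} (h : Bdd D B G) : G.support.card ≤ D ^ 3 := by
  classical
  have hinj : Set.InjOn (fun m : Fin 3 →₀ ℕ => (m : Fin 3 → ℕ)) (G.support : Set (Fin 3 →₀ ℕ)) :=
    fun a _ b _ hab => DFunLike.coe_injective hab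
  have : G.support.card ≤ (Fintype.piFinset (fun _ : Fin 3 => Finset.range D)).card := by
    refine Finset.card_le_card_of_injOn _ ?_ hinj
    intro m hm
    simp only [Finset.mem_coe, Fintype.mem_piFinset, Finset.mem_range]
    exact (h m hm).1
  simpa using this

/-- the power sums `S_k` determine the components -/
theorem comp_eq_zero (e : Fin 3 → ℕ) (G : Pol) (P : Pt) (n : ℕ) (hn : G.support.card ≤ n)
    (h : ∀ k ≤ n, ∑ m ∈ G.support, G.coeff m * (wt e m : ℤ) ^ k * mv P m = 0) (w : ℕ) :
    comp e w G P = 0 := by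
  classical
  set W : Finset ℕ := G.support.image (wt e) with hW
  have hWcard : W.card ≤ n := Finset.card_image_le.trans hn
  -- all polynomials of degree at most n
  have hpoly : ∀ p : Polynomial ℤ, p.natDegree ≤ n →
      ∑ m ∈ G.support, G.coeff m * p.eval (wt e m : ℤ) * mv P m = 0 := by
    intro p hp
    have : ∀ m ∈ G.support, G.coeff m * p.eval (wt e m : ℤ) * mv P m =
        ∑ k ∈ Finset.range (n + 1), p.coeff k * (G.coeff m * (wt e m : ℤ) ^ k * mv P m) := by
      intro m _
      rw [Polynomial.eval_eq_sum_range' (Nat.lt_succ_of_le hp), Finset.mul_sum, Finset.sum_mul]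
      refine Finset.sum_congr rfl fun k _ => ?_
      ring
    rw [Finset.sum_congr rfl this, Finset.sum_comm]
    refine Finset.sum_eq_zero fun k hk => ?_
    rw [← Finset.mul_sum, h k (by rw [Finset.mem_range] at hk; omega), mul_zero]
  by_cases hw : w ∈ W
  · set p : Polynomial ℤ := ∏ v ∈ W.erase w, (Polynomial.X - Polynomial.C (v : ℤ)) with hp
    have hdeg : p.natDegree ≤ n := by
      rw [hp, Polynomial.natDegree_prod_of_monic _ _ (fun v _ => Polynomial.monic_X_sub_C _)]
      simp only [Polynomial.natDegree_X_sub_C, Finset.sum_const, smul_eq_mul, mul_one]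
      exact (Finset.card_erase_le).trans hWcard
    have h0 : ∀ v ∈ W, v ≠ w → p.eval (v : ℤ) = 0 := by
      intro v hv hne
      rw [hp, Polynomial.eval_prod]
      refine Finset.prod_eq_zero (Finset.mem_erase.mpr ⟨hne, hv⟩) ?_
      simp
    have hw0 : p.eval (w : ℤ) ≠ 0 := by
      rw [hp, Polynomial.eval_prod, Finset.prod_ne_zero_iff]
      intro v hv
      have : v ≠ w := Finset.ne_of_mem_erase hv
      simp only [Polynomial.eval_sub, Polynomial.eval_X, Polynomial.eval_C]
      intro h0
      apply this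
      have : (w : ℤ) = v := by linarith
      exact_mod_cast this.symm
    have hs := hpoly p hdeg
    have hs2 : ∑ m ∈ G.support, G.coeff m * p.eval (wt e m : ℤ) * mv P m =
        p.eval (w : ℤ) * comp e w G P := by
      rw [comp, Finset.mul_sum, Finset.sum_filter]
      refine Finset.sum_congr rfl fun m hm => ?_
      by_cases hmw : wt e m = w
      · rw [if_pos hmw, hmw, mv]
        ring
      · rw [if_neg hmw, h0 _ (Finset.mem_image_of_mem _ hm) hmw]
        ring
    rw [hs2] at hs
    exact (mul_eq_zero.mp hs).resolve_left hw0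
  · rw [comp, Finset.sum_eq_zero]
    intro m hm
    rw [Finset.mem_filter] at hm
    exact absurd (hm.2 ▸ Finset.mem_image_of_mem _ hm.1) hw

theorem weights : Weights := by
  classical
  intro e D B G P hB h0
  by_cases hex : ∃ k < D ^ 3, eval P (eulk e k G) = 0 ∧ eul e (eulk e k G) P ≠ 0
  · exact Or.inl hex
  · right
    push Not at hex
    have hS : ∀ k ≤ D ^ 3, ∑ m ∈ G.support, G.coeff m * (wt e m : ℤ) ^ k * mv P m = 0 := by
      intro k
      induction k with
      | zero =>
        intro _
        have : eval P G = ∑ m ∈ G.support, G.coeff m * mv P m := by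
          rw [MvPolynomial.eval_eq']
          rfl
        rw [← h0, this]
        refine Finset.sum_congr rfl fun m _ => ?_
        rw [pow_zero, mul_one]
      | succ k ih =>
        intro hk
        have h1 := ih (by omega)
        have h2 := hex k (by omega) (by rw [eval_eulk]; exact h1)
        rwa [eul_eulk] at h2
    exact comp_eq_zero e G P (D ^ 3) (card_support_le' hB) hS

theorem coeff_eulk (e : Fin 3 → ℕ) (k : ℕ) (G : Pol) (m : Fin 3 →₀ ℕ) :
    (eulk e k G).coeff m = G.coeff m * (wt e m : ℤ) ^ k := by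
  classical
  rw [eulk, coeff_sum]
  simp only [coeff_monomial]
  rw [Finset.sum_ite_eq' G.support m (fun m => G.coeff m * (wt e m : ℤ) ^ k)]
  by_cases h : m ∈ G.support
  · rw [if_pos h]
  · rw [if_neg h, notMem_support_iff.mp h, zero_mul]

theorem eulBdd : EulBdd := by
  intro e D B E k G hB hE m hm
  have hc : m ∈ G.support := by
    rw [mem_support_iff, coeff_eulk] at hm
    rw [mem_support_iff]
    exact left_ne_zero_of_mul hm
  obtain ⟨hd, hb⟩ := hB m hc
  refine ⟨hd, ?_⟩
  rw [coeff_eulk, abs_mul]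
  have hwt : wt e m ≤ 3 * D * E ^ 2 := by
    rw [wt]
    calc ∑ i, cof e i * m i ≤ ∑ _i : Fin 3, E ^ 2 * D := by
          refine Finset.sum_le_sum fun i _ => Nat.mul_le_mul ?_ (hd i).le
          rw [cof, sq]
          exact Nat.mul_le_mul (hE _) (hE _)
      _ = 3 * D * E ^ 2 := by
          rw [Finset.sum_const, Finset.card_univ, Fintype.card_fin, smul_eq_mul]
          ring
  have h1 : |(wt e m : ℤ) ^ k| ≤ ((3 * D * E ^ 2 : ℕ) : ℤ) ^ k := by
    rw [abs_of_nonneg (by positivity)]
    exact pow_le_pow_left₀ (by positivity) (by exact_mod_cast hwt) _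
  calc |G.coeff m| * |(wt e m : ℤ) ^ k| ≤ (B : ℤ) * ((3 * D * E ^ 2 : ℕ) : ℤ) ^ k :=
        mul_le_mul hb h1 (abs_nonneg _) (by positivity)
    _ = ((B * (3 * D * E ^ 2) ^ k : ℕ) : ℤ) := by push_cast; ring

end Pool.Agent.Lib.MP_509488_nt.Sparse
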