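import Pool.Agent.Lib.MP_509488_nt.Sparse.Core1
import Pool.Agent.Lib.MP_509488_nt.Sparse.Tay
import Pool.Agent.Lib.MP_509488_nt.Sparse.Par
import Pool.Agent.Lib.MP_509488_nt.Sparse.Pig
import Pool.Agent.Lib.MP_509488_nt.Sparse.St
import Pool.Agent.Lib.MP_509488_nt.Sparse.Ari
import Pool.Agent.Lib.MP_509488_nt.Sparse.Wei
import Pool.Agent.Lib.MP_509488_nt.Sparse.Deg
import Pool.Agent.Lib.MP_509488_nt.Sparse.Der
import Pool.Agent.Lib.MP_509488_nt.Sparse.Pri
import Pool.Agent.Lib.MP_509488_nt.Sparse.Exp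
import Pool.Agent.Lib.MP_509488_nt.Sparse.Fin
import Pool.Agent.Lib.MP_509488_nt.Unif.All3

/-!
# Sparse bases: assembly
-/

namespace Pool.Agent.Lib.MP_509488_nt.Sparse

theorem allCurve : StCurve := stCurve (param2 taylor) pigeon

theorem allSurf : StSurf := stSurf (param1 taylor) pigeon

theorem allCore2 : Core2 :=
  core2 (nonDeg taylor) allCurve jacNe minDeriv derivBdd evalBdd primeNot

theorem allCore : Core := core allSurf weights eulBdd degen primeNot allCore2

theorem allExp : ExpBound :=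
  expBound Unif.allRB1 (Unif.rBound2 Unif.allTwo Unif.allArch) Unif.allRB3

theorem allFinal : Final := final allCore allExp

end Pool.Agent.Lib.MP_509488_nt.Sparse
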