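import Pool.Agent.Lib.MP_509488_nt.Sparse.StmtsB

/-!
# B0: the discriminant of a number field and an integral basis of `L / ℚ`
-/

namespace Pool.Agent.Lib.MP_509488_nt.Sparse

open Finset NumberField Module

/-- B0. -/
theorem discrBound : DiscrBound := by
  intro L _ _ n b M hM hint hσ
  classical
  let w' : Basis (Fin n) ℚ L := (integralBasis L).reindex ((integralBasis L).indexEquiv b)
  have h1 : Algebra.discr ℚ b = (w'.toMatrix b).det ^ 2 * Algebra.discr ℚ w' := by
    conv_lhs => rw [← w'.toMatrix_map_vecMul b]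
    rw [Algebra.discr_of_matrix_vecMul]
  have h2 : Algebra.discr ℚ w' = (discr L : ℚ) := by
    rw [coe_discr, Basis.coe_reindex, Algebra.discr_reindex]
  -- the determinant is an integer
  have hP : ∀ i j, IsIntegral ℤ (w'.toMatrix b i j) := by
    intro i j
    have h3 : (integralBasis L).repr (b j) (((integralBasis L).indexEquiv b).symm i) =
        w'.toMatrix b i j := by
      simp [w', Basis.toMatrix_apply]
    rw [← h3]
    have h4 := integralBasis_repr_apply (K := L) (⟨b j, hint j⟩ : 𝓞 L)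
      (((integralBasis L).indexEquiv b).symm i)
    have h5 : algebraMap (𝓞 L) L ⟨b j, hint j⟩ = b j := rfl
    rw [h5] at h4
    rw [h4]
    exact isIntegral_algebraMap
  obtain ⟨r, hr⟩ := IsIntegrallyClosed.isIntegral_iff.1 (IsIntegral.det hP)
  have hb : Algebra.discr ℚ b ≠ 0 := Algebra.discr_not_zero_of_basis ℚ b
  have hr0 : r ≠ 0 := by
    rintro rfl
    rw [map_zero] at hr
    rw [h1, ← hr] at hb
    exact hb (by ring)
  have h6 : (|discr L| : ℝ) ≤ |((Algebra.discr ℚ b : ℚ) : ℝ)| := by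
    rw [h1, h2, ← hr]
    have h7 : ((((algebraMap ℤ ℚ) r) ^ 2 * (discr L : ℚ) : ℚ) : ℝ) = (r : ℝ) ^ 2 * (discr L : ℝ) := by
      simp
    rw [h7, abs_mul]
    have h8 : (1 : ℝ) ≤ |(r : ℝ) ^ 2| := by
      rw [abs_of_nonneg (sq_nonneg _)]
      have h9 : (1 : ℤ) ≤ r ^ 2 := by
        have := sq_nonneg r
        rcases this.lt_or_eq with h | h
        · omega
        · exact absurd (pow_eq_zero_iff (two_ne_zero)|>.1 h.symm) hr0
      exact_mod_cast h9
    have h10 : (0 : ℝ) ≤ |(discr L : ℝ)| := abs_nonneg _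
    nlinarith
  refine h6.trans ?_
  -- the determinant of the conjugates
  have hcard : Fintype.card (L →ₐ[ℚ] ℂ) = Fintype.card (Fin n) := by
    rw [AlgHom.card, finrank_eq_card_basis b]
  let e : Fin n ≃ (L →ₐ[ℚ] ℂ) := (Fintype.equivOfCardEq hcard).symm
  have h11 := Algebra.discr_eq_det_embeddingsMatrixReindex_pow_two ℚ ℂ b e
  have h12 : |((Algebra.discr ℚ b : ℚ) : ℝ)| =
      ‖(Algebra.embeddingsMatrixReindex ℚ ℂ b e).det‖ ^ 2 := by
    rw [← norm_pow, ← h11]
    have : algebraMap ℚ ℂ (Algebra.discr ℚ b) = (((Algebra.discr ℚ b : ℚ) : ℝ) : ℂ) := by simp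
    rw [this, Complex.norm_real, Real.norm_eq_abs]
  rw [h12]
  refine pow_le_pow_left₀ (norm_nonneg _) ?_ 2
  have h13 := Matrix.det_le (A := Algebra.embeddingsMatrixReindex ℚ ℂ b e)
    (abv := NormedField.toAbsoluteValue ℂ) (x := M) (fun i j => hσ i (e j : L →+* ℂ))
  rw [Fintype.card_fin, nsmul_eq_mul] at h13
  exact h13

end Pool.Agent.Lib.MP_509488_nt.Sparse
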