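import Pool.Agent.Lib.MP_509488_nt.Sparse.Stmts

/-!
# Sparse bases, second part: one large exponent. Statements of the modules

Equation `Y ^ q - W ^ r = X ^ p`, `W` small, in a number field containing `ζ_q` and `θ`,
`θ ^ q = W`.
-/

namespace Pool.Agent.Lib.MP_509488_nt.Sparse

open Finset NumberField Module

/-- B0: the discriminant is bounded in terms of an integral basis of `L / ℚ`. -/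
def DiscrBound : Prop := ∀ (L : Type) [Field L] [NumberField L] (n : ℕ) (b : Basis (Fin n) ℚ L)
  (M : ℝ), 1 ≤ M → (∀ i, IsIntegral ℤ (b i)) → (∀ i (σ : L →+* ℂ), ‖σ (b i)‖ ≤ M) →
  (|discr L| : ℝ) ≤ ((n.factorial : ℝ) * M ^ n) ^ 2

/-- B1: the field, of small discriminant. -/
def FieldEx : Prop := ∀ q : ℕ, q.Prime → ∃ c : ℕ, ∀ W : ℤ, W ≠ 0 →
  ∃ (L : Type) (_ : Field L) (_ : NumberField L) (ζ θ : 𝓞 L), IsPrimitiveRoot ζ q ∧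
    θ ^ q = (W : 𝓞 L) ∧ finrank ℚ L ≤ q ^ 2 ∧ (discr L).natAbs ≤ c * W.natAbs ^ c

/-- B2: the number of ideals of small norm. -/
def IdealCount : Prop := ∀ d : ℕ, ∃ c : ℕ, ∀ (L : Type) [Field L] [NumberField L],
  finrank ℚ L ≤ d → ∀ R : ℕ, 1 ≤ R → ∃ S : Finset (Ideal (𝓞 L)), S.card ≤ R ^ c ∧
    ∀ I : Ideal (𝓞 L), I ≠ ⊥ → Ideal.absNorm I ≤ R → I ∈ S

/-- B3: the units modulo `p`-th powers. -/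
def UnitLabel : Prop := ∀ (L : Type) [Field L] [NumberField L] (p : ℕ), p.Prime →
  ∃ f : (𝓞 L)ˣ → Fin (p ^ finrank ℚ L), ∀ u v, f u = f v → ∃ w : (𝓞 L)ˣ, u = v * w ^ p

/-- B4: the factors of a `p`-th power, almost coprime, are almost `p`-th powers. -/
def FacPow : Prop := ∀ (L : Type) [Field L] [NumberField L] (I J X M : Ideal (𝓞 L)) (p : ℕ),
  1 ≤ p → I ≠ ⊥ → J ≠ ⊥ → M ≠ ⊥ → I * J = X ^ p → M ≤ I ⊔ J →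
  ∃ B A : Ideal (𝓞 L), I = B * A ^ p ∧ B ∣ M ^ p

/-- `(a) = B A ^ p` with `B ∣ M`. -/
def AlmostPow {L : Type} [Field L] [NumberField L] (p : ℕ) (M : Ideal (𝓞 L)) (a : 𝓞 L) : Prop :=
  a ≠ 0 ∧ ∃ B A : Ideal (𝓞 L), Ideal.span {a} = B * A ^ p ∧ B ∣ M

/-- B5: the classes of almost `p`-th powers modulo `p`-th powers. -/
def ClassLabel : Prop := ∀ d p m : ℕ, p.Prime → 1 ≤ m → ∃ c : ℕ, ∀ (L : Type) [Field L]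
  [NumberField L], finrank ℚ L ≤ d →
  ∃ f : 𝓞 L → Fin (c * (discr L).natAbs ^ c), ∀ a b : 𝓞 L,
    AlmostPow p (Ideal.span {(m : 𝓞 L)}) a → AlmostPow p (Ideal.span {(m : 𝓞 L)}) b → f a = f b →
    ∃ α : 𝓞 L, α ^ p = a * b ^ (p - 1)

/-- The arguments of all conjugates of `α` and `β` are close. -/
def ArgClose {L : Type} [Field L] [NumberField L] (p : ℕ) (α β : 𝓞 L) : Prop :=
  ∀ σ : L →+* ℂ, |(σ α).arg - (σ β).arg| < Real.pi / (4 * p)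

/-- B6: divisibility: the difference of two roots. Here `A₁ = Y - ω T`, `A₂ = Y' - ω T`,
`B₁ = Y - ω' T`, `B₂ = Y' - ω' T`, `T = θ ^ r`. -/
def GapDiv : Prop := ∀ (L : Type) [Field L] [NumberField L] (p r q : ℕ) (W : ℤ)
  (θ a b A₁ A₂ B₁ B₂ α₁ α₂ β₁ β₂ : 𝓞 L), 2 ≤ p → 1 ≤ q → θ ^ q = (W : 𝓞 L) →
  IsCoprime (a * b) θ → IsCoprime (A₂ * B₁) θ → a ≠ 0 → b ≠ 0 →
  α₁ ^ p = A₁ * a ^ (p - 1) → α₂ ^ p = A₂ * a ^ (p - 1) →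
  β₁ ^ p = B₁ * b ^ (p - 1) → β₂ ^ p = B₂ * b ^ (p - 1) →
  ((p : 𝓞 L) * (W : 𝓞 L) ∣ α₁ - α₂) → ((p : 𝓞 L) * (W : 𝓞 L) ∣ β₁ - β₂) →
  θ ^ r ∣ A₁ * B₂ - A₂ * B₁ →
  ∃ D : 𝓞 L, (a * b) ^ (p - 1) * D = (α₁ * β₂ - α₂ * β₁) ^ p ∧ (θ ^ r) ^ p ∣ (p : 𝓞 L) ^ p * D

/-- B7: the archimedean part: `|U - V| |V| ^ (p - 1) ≤ |U ^ p - V ^ p|` if `U / V` is close to
the positive real axis. -/
def GapArch : Prop := ∀ (p : ℕ) (u₁ u₂ v₁ v₂ : ℂ), 1 ≤ p → u₁ ≠ 0 → u₂ ≠ 0 → v₁ ≠ 0 → v₂ ≠ 0 →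
  |u₁.arg - v₁.arg| < Real.pi / (4 * p) → |u₂.arg - v₂.arg| < Real.pi / (4 * p) →
  ‖u₁ * v₂ - v₁ * u₂‖ * ‖v₁ * u₂‖ ^ (p - 1) ≤ ‖(u₁ * v₂) ^ p - (v₁ * u₂) ^ p‖

/-- B8: the gap inequality for one pair of factors. -/
def GapPair : Prop := ∀ (L : Type) [Field L] [NumberField L] (p r q : ℕ) (W Y Y' : ℤ)
  (θ ω ω' a b α₁ α₂ β₁ β₂ : 𝓞 L), 2 ≤ p → 1 ≤ q → 1 ≤ r → W ≠ 0 → θ ^ q = (W : 𝓞 L) →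
  IsCoprime Y W → IsCoprime Y' W → ω ^ q = 1 → ω' ^ q = 1 → ω ≠ ω' → Y ≠ Y' →
  IsCoprime (a * b) θ → a ≠ 0 → b ≠ 0 →
  (Y : 𝓞 L) - ω * θ ^ r ≠ 0 → (Y' : 𝓞 L) - ω * θ ^ r ≠ 0 →
  (Y : 𝓞 L) - ω' * θ ^ r ≠ 0 → (Y' : 𝓞 L) - ω' * θ ^ r ≠ 0 →
  α₁ ^ p = (Y - ω * θ ^ r) * a ^ (p - 1) → α₂ ^ p = (Y' - ω * θ ^ r) * a ^ (p - 1) →
  β₁ ^ p = (Y - ω' * θ ^ r) * b ^ (p - 1) → β₂ ^ p = (Y' - ω' * θ ^ r) * b ^ (p - 1) →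
  ((p : 𝓞 L) * (W : 𝓞 L) ∣ α₁ - α₂) → ((p : 𝓞 L) * (W : 𝓞 L) ∣ β₁ - β₂) →
  ArgClose p α₁ α₂ → ArgClose p β₁ β₂ →
  ((Algebra.norm ℤ ((Y' : 𝓞 L) - ω * θ ^ r)).natAbs *
    (Algebra.norm ℤ ((Y : 𝓞 L) - ω' * θ ^ r)).natAbs) ^ (p - 1) ≤
    (2 * p * (Y - Y').natAbs) ^ (p * finrank ℚ L)

/-- B9: the gap inequality for two solutions in the same class. -/
def GapAll : Prop := ∀ (L : Type) [Field L] [NumberField L] (p r q : ℕ) (W Y Y' X X' : ℤ)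
  (ζ θ : 𝓞 L) (a α₁ α₂ : 𝓞 L → 𝓞 L), 2 ≤ p → q.Prime → 1 ≤ r → W ≠ 0 → IsPrimitiveRoot ζ q →
  θ ^ q = (W : 𝓞 L) → IsCoprime Y W → IsCoprime Y' W → Y ≠ Y' → X ≠ 0 → X' ≠ 0 →
  Y ^ q - W ^ r = X ^ p → Y' ^ q - W ^ r = X' ^ p →
  (∀ ω : 𝓞 L, ω ^ q = 1 → a ω ≠ 0 ∧ IsCoprime (a ω) θ ∧
    (α₁ ω) ^ p = (Y - ω * θ ^ r) * (a ω) ^ (p - 1) ∧
    (α₂ ω) ^ p = (Y' - ω * θ ^ r) * (a ω) ^ (p - 1) ∧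
    ((p : 𝓞 L) * (W : 𝓞 L) ∣ α₁ ω - α₂ ω) ∧ ArgClose p (α₁ ω) (α₂ ω)) →
  (X.natAbs * X'.natAbs) ^ (p - 1) ≤ (2 * p * (Y - Y').natAbs) ^ q

/-- B10: every factor of `Y ^ q - W ^ r = X ^ p` is almost a `p`-th power. -/
def FacAlmost : Prop := ∀ (L : Type) [Field L] [NumberField L] (p r q : ℕ) (W Y X : ℤ)
  (ζ θ ω : 𝓞 L), 1 ≤ p → q.Prime → 1 ≤ r → W ≠ 0 → IsPrimitiveRoot ζ q → θ ^ q = (W : 𝓞 L) →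
  IsCoprime Y W → X ≠ 0 → Y ^ q - W ^ r = X ^ p → ω ^ q = 1 →
  AlmostPow p (Ideal.span {((q ^ p : ℕ) : 𝓞 L)}) ((Y : 𝓞 L) - ω * θ ^ r)

/-- B11: labels: solutions with the same label satisfy the gap inequality. -/
def Labels : Prop := ∀ p q : ℕ, p.Prime → q.Prime → ∃ c : ℕ, ∀ (W : ℤ) (r : ℕ), W ≠ 0 → 1 ≤ r →
  ∀ S : Finset (ℤ × ℤ), (∀ v ∈ S, 1 ≤ v.1 ∧ v.2 ≠ 0 ∧ IsCoprime v.1 W ∧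
    v.1 ^ q - W ^ r = v.2 ^ p) →
  ∃ f : ℤ × ℤ → Fin (c * W.natAbs ^ c), ∀ v ∈ S, ∀ w ∈ S, v.1 ≠ w.1 → f v = f w →
    (v.2.natAbs * w.2.natAbs) ^ (p - 1) ≤ (2 * p * (v.1 - w.1).natAbs) ^ q

/-- B12: the number of solutions for given `W`. -/
def OneW : Prop := ∀ p q : ℕ, p.Prime → q.Prime → 3 ≤ p → ∃ c : ℕ, ∀ (N : ℕ) (W : ℤ) (r : ℕ),
  W ≠ 0 → 1 ≤ r → ∀ S : Finset (ℤ × ℤ), (∀ v ∈ S, 1 ≤ v.1 ∧ v.2 ≠ 0 ∧ v.2.natAbs ≤ N ∧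
    IsCoprime v.1 W ∧ v.1 ^ q - W ^ r = v.2 ^ p) →
  S.card ≤ c * W.natAbs ^ c * (Nat.log 2 N + 1)

/-- B13: for given exponents, one of them large. -/
def CoreB : Prop := ∀ (K : ℕ) (ε : ℝ), 0 < ε → ∃ K' N₀ : ℕ, ∀ N : ℕ, N₀ ≤ N →
  ∀ (s : Fin 3 → ℤ) (e : Fin 3 → ℕ) (k : Fin 3) (T : Finset Pt), Sgn s → (∀ i, (e i).Prime) →
  K' ≤ e k → (∀ i, i ≠ k → e i < K) → (∃ i, i ≠ k ∧ e i ≠ 2) → (∀ P ∈ T, Sol s e N P) →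
  (T.card : ℝ) ≤ (N : ℝ) ^ ε

/-- The solutions `(x, y, z, p, q, r)` with bases in `[2, N]` and at least one exponent `≥ K`. -/
def SolSetB (K N : ℕ) : Set (ℕ × ℕ × ℕ × ℕ × ℕ × ℕ) :=
  {v | ∃ x y z p q r : ℕ, v = (x, y, z, p, q, r) ∧ 2 ≤ x ∧ x ≤ N ∧ 2 ≤ y ∧ y ≤ N ∧ 2 ≤ z ∧ z ≤ N ∧
    Nat.Coprime x y ∧ p.Prime ∧ q.Prime ∧ r.Prime ∧ (1 : ℝ) / p + 1 / q + 1 / r ≤ 1 ∧
    ¬ (p = q ∧ q = r) ∧ x ^ p + y ^ q = z ^ r ∧ (K ≤ p ∨ K ≤ q ∨ K ≤ r)}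

/-- B14: the final theorem. -/
def FinalB : Prop := ∀ ε : ℝ, 0 < ε → ∃ K N₀ : ℕ, ∀ N : ℕ, N₀ ≤ N →
  (SolSetB K N).Finite ∧ ((SolSetB K N).ncard : ℝ) ≤ (N : ℝ) ^ ε

end Pool.Agent.Lib.MP_509488_nt.Sparse
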