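import Mathlib
import Pool.Agent.Lib.MP_509488_nt.Sparse.StmtsB

/-!
# Module B1: the field, of small discriminant
-/

namespace Pool.Agent.Lib.MP_509488_nt.Sparse

open Finset NumberField Module

namespace FieldExAux

/-- The monomials span the field generated by `ζ` and `θ`. -/
theorem span_top {q : ℕ} (hq : 0 < q) {W : ℤ} {ζ θ : ℂ} (hζ : ζ ^ q = 1) (hθ : θ ^ q = (W : ℂ))
    (ζL θL : IntermediateField.adjoin ℚ ({ζ, θ} : Set ℂ)) (e1 : (ζL : ℂ) = ζ)
    (e2 : (θL : ℂ) = θ) :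
    (⊤ : Submodule ℚ (IntermediateField.adjoin ℚ ({ζ, θ} : Set ℂ))) ≤
      Submodule.span ℚ (Set.range fun v : Fin q × Fin q => ζL ^ (v.1 : ℕ) * θL ^ (v.2 : ℕ)) := by
  intro x _
  have hint : ∀ y ∈ ({ζ, θ} : Set ℂ), IsAlgebraic ℚ y := by
    intro y hy
    rcases hy with rfl | hy
    · exact (IsIntegral.of_pow hq (by rw [hζ]; exact isIntegral_one)).isAlgebraic
    · rw [Set.mem_singleton_iff] at hy
      subst hy
      refine (IsIntegral.of_pow hq ?_).isAlgebraic
      rw [hθ]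
      have := isIntegral_algebraMap (R := ℚ) (A := ℂ) (x := (W : ℚ))
      simpa using this
  have hx : (x : ℂ) ∈ Algebra.adjoin ℚ ({ζ, θ} : Set ℂ) := by
    rw [← IntermediateField.adjoin_toSubalgebra_of_isAlgebraic hint]
    exact x.2
  have hx' : (x : ℂ) ∈ Subalgebra.toSubmodule (Algebra.adjoin ℚ ({ζ, θ} : Set ℂ)) := hx
  rw [Algebra.adjoin_eq_span] at hx'
  have hle : Submodule.span ℚ ((Submonoid.closure ({ζ, θ} : Set ℂ) : Submonoid ℂ) : Set ℂ) ≤
      (Submodule.span ℚ (Set.range fun v : Fin q × Fin q =>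
        ζL ^ (v.1 : ℕ) * θL ^ (v.2 : ℕ))).map
        (IntermediateField.adjoin ℚ ({ζ, θ} : Set ℂ)).val.toLinearMap := by
    rw [Submodule.span_le]
    intro y hy
    obtain ⟨m, n, rfl⟩ := (Submonoid.mem_closure_pair ζ θ y).mp hy
    refine ⟨(W : ℚ) ^ (n / q) • (ζL ^ (m % q) * θL ^ (n % q)), ?_, ?_⟩
    · refine Submodule.smul_mem _ _ (Submodule.subset_span ?_)
      exact ⟨(⟨m % q, Nat.mod_lt _ hq⟩, ⟨n % q, Nat.mod_lt _ hq⟩), rfl⟩
    · have h1 : ζ ^ m = ζ ^ (m % q) := by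
        conv_lhs => rw [← Nat.mod_add_div m q, pow_add, pow_mul, hζ, one_pow, mul_one]
      have h2 : θ ^ n = θ ^ (n % q) * (W : ℂ) ^ (n / q) := by
        conv_lhs => rw [← Nat.mod_add_div n q, pow_add, pow_mul, hθ]
      rw [h1, h2]
      simp [e1, e2, Algebra.smul_def]
      ring
  obtain ⟨y, hy, hyx⟩ := hle hx'
  have : y = x := Subtype.ext hyx
  rw [← this]
  exact hy

end FieldExAux

open FieldExAux in
/-- B1: the field, of small discriminant. -/
theorem fieldEx (h : DiscrBound) : FieldEx := by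
  classical
  intro q hq
  have hqpos := hq.pos
  refine ⟨((q ^ 2).factorial) ^ 2 + 2 * q ^ 2, ?_⟩
  intro W hW
  obtain ⟨θ₀, hθ₀⟩ := IsAlgClosed.exists_pow_nat_eq (W : ℂ) hqpos
  obtain ⟨ζ₀, hζ₀⟩ : ∃ ζ₀ : ℂ, IsPrimitiveRoot ζ₀ q :=
    ⟨_, Complex.isPrimitiveRoot_exp q hqpos.ne'⟩
  let L := IntermediateField.adjoin ℚ ({ζ₀, θ₀} : Set ℂ)
  have i1 : IsIntegral ℚ ζ₀ := IsIntegral.of_pow hqpos (by rw [hζ₀.pow_eq_one]; exact isIntegral_one)
  have i2 : IsIntegral ℚ θ₀ := by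
    refine IsIntegral.of_pow hqpos ?_
    rw [hθ₀]
    have := isIntegral_algebraMap (R := ℚ) (A := ℂ) (x := (W : ℚ))
    simpa using this
  have : FiniteDimensional ℚ L := IntermediateField.finiteDimensional_adjoin_pair i1 i2
  have : NumberField L := { to_charZero := inferInstance, to_finiteDimensional := inferInstance }
  let ζL : L := ⟨ζ₀, IntermediateField.subset_adjoin ℚ _ (by simp)⟩
  let θL : L := ⟨θ₀, IntermediateField.subset_adjoin ℚ _ (by simp)⟩
  have hζL : ζL ^ q = 1 := Subtype.ext (by simpa [ζL] using hζ₀.pow_eq_one)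
  have hθL : θL ^ q = (W : L) := Subtype.ext (by simpa [θL] using hθ₀)
  have iζ : IsIntegral ℤ ζL := IsIntegral.of_pow hqpos (by rw [hζL]; exact isIntegral_one)
  have iθ : IsIntegral ℤ θL := IsIntegral.of_pow hqpos (by
    rw [hθL]
    have := isIntegral_algebraMap (R := ℤ) (A := L) (x := W)
    simpa using this)
  have hspan := span_top hqpos hζ₀.pow_eq_one hθ₀ ζL θL rfl rfl
  set v : Fin q × Fin q → L := fun v => ζL ^ (v.1 : ℕ) * θL ^ (v.2 : ℕ) with hv
  have hfin : finrank ℚ L ≤ q ^ 2 := by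
    have h1 : finrank ℚ (Submodule.span ℚ (Set.range v)) ≤ Fintype.card (Fin q × Fin q) :=
      finrank_range_le_card v
    rw [top_le_iff.mp hspan, finrank_top] at h1
    rw [Fintype.card_prod, Fintype.card_fin] at h1
    rw [pow_two]
    exact h1
  -- a basis
  let b := Basis.ofSpan hspan
  have : Finite ((linearIndepOn_empty ℚ id).extend (Set.empty_subset (Set.range v))) :=
    Module.Finite.finite_basis b
  let _ : Fintype ((linearIndepOn_empty ℚ id).extend (Set.empty_subset (Set.range v))) :=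
    Fintype.ofFinite _
  have hcard : Fintype.card ((linearIndepOn_empty ℚ id).extend (Set.empty_subset (Set.range v))) =
      finrank ℚ L := (Module.finrank_eq_card_basis b).symm
  let b' := b.reindex (Fintype.equivFinOfCardEq hcard)
  have hb' : ∀ i, ∃ u : Fin q × Fin q, b' i = ζL ^ (u.1 : ℕ) * θL ^ (u.2 : ℕ) := by
    intro i
    have h1 : b' i ∈ Set.range b := by
      rw [Basis.reindex_apply]
      exact ⟨_, rfl⟩
    obtain ⟨u, hu⟩ := Basis.ofSpan_subset hspan h1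
    exact ⟨u, hu.symm⟩
  have hWpos : 1 ≤ W.natAbs := Int.natAbs_pos.mpr hW
  have hWR : (1 : ℝ) ≤ (W.natAbs : ℝ) := by exact_mod_cast hWpos
  have hdis := h L (finrank ℚ L) b' (W.natAbs : ℝ) hWR
    (fun i => by
      obtain ⟨u, hu⟩ := hb' i
      rw [hu]
      exact (iζ.pow _).mul (iθ.pow _))
    (fun i σ => by
      obtain ⟨u, hu⟩ := hb' i
      rw [hu, map_mul, map_pow, map_pow, norm_mul, norm_pow, norm_pow]
      have n1 : ‖σ ζL‖ = 1 := by
        have e : ‖σ ζL‖ ^ q = 1 := by rw [← norm_pow, ← map_pow, hζL, map_one, norm_one]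
        exact (pow_eq_one_iff_of_nonneg (norm_nonneg _) hqpos.ne').mp e
      have n2 : ‖σ θL‖ ^ q = (W.natAbs : ℝ) := by
        rw [← norm_pow, ← map_pow, hθL, map_intCast, Complex.norm_intCast, Nat.cast_natAbs,
          Int.cast_abs]
      have n3 : 1 ≤ ‖σ θL‖ := by
        rw [← n2] at hWR
        exact (one_le_pow_iff_of_nonneg (norm_nonneg _) hqpos.ne').mp hWR
      rw [n1, one_pow, one_mul, ← n2]
      exact pow_le_pow_right₀ n3 u.2.2.le)
  have iprim : IsPrimitiveRoot ζL q :=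
    IsPrimitiveRoot.of_map_of_injective (f := L.val) hζ₀ L.val.injective
  refine ⟨L, inferInstance, inferInstance, ⟨ζL, iζ⟩, ⟨θL, iθ⟩, ?_, ?_, hfin, ?_⟩
  · exact IsPrimitiveRoot.of_map_of_injective (f := algebraMap (𝓞 L) L) iprim
      RingOfIntegers.coe_injective
  · apply RingOfIntegers.ext
    simpa using hθL
  · have h1 : ((discr L).natAbs : ℝ) ≤ ((finrank ℚ L).factorial * (W.natAbs : ℝ) ^ finrank ℚ L) ^ 2 := by
      rw [Nat.cast_natAbs, Int.cast_abs]
      exact hdis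
    have h2 : (discr L).natAbs ≤ ((finrank ℚ L).factorial * W.natAbs ^ finrank ℚ L) ^ 2 := by
      exact_mod_cast h1
    refine h2.trans ?_
    have h3 : (finrank ℚ L).factorial ≤ (q ^ 2).factorial := Nat.factorial_le hfin
    have h4 : W.natAbs ^ finrank ℚ L ≤ W.natAbs ^ (q ^ 2) := Nat.pow_le_pow_right hWpos hfin
    calc ((finrank ℚ L).factorial * W.natAbs ^ finrank ℚ L) ^ 2
        ≤ ((q ^ 2).factorial * W.natAbs ^ (q ^ 2)) ^ 2 :=
          Nat.pow_le_pow_left (Nat.mul_le_mul h3 h4) 2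
      _ = (q ^ 2).factorial ^ 2 * W.natAbs ^ (2 * q ^ 2) := by ring
      _ ≤ ((q ^ 2).factorial ^ 2 + 2 * q ^ 2) *
          W.natAbs ^ ((q ^ 2).factorial ^ 2 + 2 * q ^ 2) :=
          Nat.mul_le_mul (Nat.le_add_right _ _)
            (Nat.pow_le_pow_right hWpos (Nat.le_add_left _ _))

end Pool.Agent.Lib.MP_509488_nt.Sparse
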