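import Mathlib
import Pool.Agent.Lib.MP_509488_nt.Sparse.StmtsB

/-!
# Module B10: every factor is almost a `p`-th power
-/

namespace Pool.Agent.Lib.MP_509488_nt.Sparse

open Finset NumberField Module

/-- B10: every factor of `Y ^ q - W ^ r = X ^ p` is almost a `p`-th power. -/
theorem facAlmost (h4 : FacPow) : FacAlmost := by
  classical
  intro L _ _ p r q W Y X ζ θ ω hp hq hr hW _ hθ hYW hX h hω
  have hqpos := hq.pos
  set T : 𝓞 L := ω * θ ^ r with hT
  set y : 𝓞 L := (Y : 𝓞 L) with hy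
  set S : 𝓞 L := ∑ i ∈ range q, y ^ i * T ^ (q - 1 - i) with hS
  have hTq : T ^ q = (W : 𝓞 L) ^ r := by
    rw [hT, mul_pow, hω, one_mul, ← pow_mul, mul_comm r q, pow_mul, hθ]
  have hSA : S * (y - T) = (X : 𝓞 L) ^ p := by
    rw [hS, (Commute.all y T).geom_sum₂_mul, hTq, hy]
    exact_mod_cast congrArg (fun t : ℤ => (t : 𝓞 L)) h
  have hXne : (X : 𝓞 L) ^ p ≠ 0 := pow_ne_zero _ (Int.cast_ne_zero.mpr hX)
  have hS0 : S ≠ 0 := by
    rintro e
    rw [← hSA, e, zero_mul] at hXne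
    exact hXne rfl
  have hA0 : y - T ≠ 0 := by
    rintro e
    rw [← hSA, e, mul_zero] at hXne
    exact hXne rfl
  -- derivative identity
  have hder : y - T ∣ (q : 𝓞 L) * y ^ (q - 1) - S := by
    have e : (q : 𝓞 L) * y ^ (q - 1) - S =
        ∑ i ∈ range q, y ^ i * (y ^ (q - 1 - i) - T ^ (q - 1 - i)) := by
      have e1 : (q : 𝓞 L) * y ^ (q - 1) = ∑ _i ∈ range q, y ^ (q - 1) := by
        rw [sum_const, card_range, nsmul_eq_mul]
      rw [e1, hS, ← sum_sub_distrib]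
      refine sum_congr rfl fun i hi => ?_
      have hi' := mem_range.mp hi
      rw [mul_sub, ← pow_add]
      congr 3
      omega
    rw [e]
    exact dvd_sum fun i _ => Dvd.dvd.mul_left (sub_dvd_pow_sub_pow _ _ _) _
  -- coprimality
  have hcop : IsCoprime y (y - T) := by
    have h1 : IsCoprime y (W : 𝓞 L) := hYW.intCast
    rw [← hθ] at h1
    have h2 : IsCoprime y θ := (IsCoprime.pow_right_iff hqpos).mp h1
    have h3 : IsUnit ω := IsUnit.of_pow_eq_one hω hqpos.ne'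
    have h4 : IsCoprime y T := (isCoprime_mul_unit_left_right h3 y (θ ^ r)).mpr h2.pow_right
    obtain ⟨u, v, huv⟩ := h4
    exact ⟨u + v, -v, by rw [← huv]; ring⟩
  have hmem : (q : 𝓞 L) ∈ Ideal.span {y - T} ⊔ Ideal.span {S} := by
    obtain ⟨u, v, huv⟩ := (hcop.pow_left (m := q - 1))
    obtain ⟨w, hw⟩ := hder
    rw [← Ideal.span_insert, Ideal.mem_span_pair]
    refine ⟨v * q + u * w, u, ?_⟩
    have e : (q : 𝓞 L) * y ^ (q - 1) = S + (y - T) * w := by rw [← hw]; ring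
    calc (v * q + u * w) * (y - T) + u * S = u * (S + (y - T) * w) + v * (y - T) * q := by ring
      _ = (u * y ^ (q - 1) + v * (y - T)) * q := by rw [← e]; ring
      _ = q := by rw [huv, one_mul]
  have hq0 : (q : 𝓞 L) ≠ 0 := Nat.cast_ne_zero.mpr hqpos.ne'
  obtain ⟨B, A, hBA, hB⟩ := h4 L (Ideal.span {y - T}) (Ideal.span {S}) (Ideal.span {(X : 𝓞 L)})
    (Ideal.span {(q : 𝓞 L)}) p hp (by rwa [Ne, Ideal.span_singleton_eq_bot])
    (by rwa [Ne, Ideal.span_singleton_eq_bot]) (by rwa [Ne, Ideal.span_singleton_eq_bot])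
    (by rw [Ideal.span_singleton_mul_span_singleton, Ideal.span_singleton_pow, ← hSA, mul_comm])
    (by rw [Ideal.span_singleton_le_iff_mem]; exact hmem)
  refine ⟨hA0, B, A, hBA, ?_⟩
  rw [Ideal.span_singleton_pow] at hB
  rw [Nat.cast_pow]
  exact hB

end Pool.Agent.Lib.MP_509488_nt.Sparse
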