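import Pool.Agent.Lib.MP_509488_nt.Sparse.StmtsB

/-!
# Sparse bases, part B: labels
-/

namespace Pool.Agent.Lib.MP_509488_nt.Sparse

open Finset NumberField Module

theorem exists_fin_inj (Λ : Type) [Finite Λ] (m : ℕ) (h : Nat.card Λ ≤ m) :
    ∃ ι : Λ → Fin m, Function.Injective ι :=
  ⟨fun x => Fin.castLE h (Finite.equivFin Λ x), fun x y hxy =>
    (Finite.equivFin Λ).injective (Fin.castLE_injective h hxy)⟩

theorem cop_theta {L : Type} [Field L] [NumberField L] {q r : ℕ} {W Y : ℤ} {θ ω : 𝓞 L}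
    (hq : 1 ≤ q) (hr : 1 ≤ r) (hθ : θ ^ q = (W : 𝓞 L)) (h : IsCoprime Y W) :
    IsCoprime ((Y : 𝓞 L) - ω * θ ^ r) θ := by
  obtain ⟨u, v, huv⟩ := h
  obtain ⟨q', rfl⟩ : ∃ q', q = q' + 1 := ⟨q - 1, by omega⟩
  obtain ⟨r', rfl⟩ : ∃ r', r = r' + 1 := ⟨r - 1, by omega⟩
  refine ⟨(u : 𝓞 L), (u : 𝓞 L) * ω * θ ^ r' + (v : 𝓞 L) * θ ^ q', ?_⟩
  have h1 : (u : 𝓞 L) * (Y : 𝓞 L) + (v : 𝓞 L) * (W : 𝓞 L) = 1 := by exact_mod_cast huv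
  rw [← h1, ← hθ]
  ring

theorem quot_label (L : Type) [Field L] [NumberField L] (p : ℕ) (W : ℤ) (hp : p ≠ 0)
    (hW : W ≠ 0) : Finite (𝓞 L ⧸ Ideal.span {(p : 𝓞 L) * (W : 𝓞 L)}) ∧
      Nat.card (𝓞 L ⧸ Ideal.span {(p : 𝓞 L) * (W : 𝓞 L)}) = (p * W.natAbs) ^ finrank ℚ L := by
  have hne : (p : 𝓞 L) * (W : 𝓞 L) ≠ 0 := by
    apply mul_ne_zero
    · exact_mod_cast hp
    · exact_mod_cast hW
  have h1 : Ideal.absNorm (Ideal.span {(p : 𝓞 L) * (W : 𝓞 L)}) =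
      (p * W.natAbs) ^ finrank ℚ L := by
    rw [Ideal.absNorm_span_singleton]
    have h2 : (p : 𝓞 L) * (W : 𝓞 L) = algebraMap ℤ (𝓞 L) ((p : ℤ) * W) := by
      simp
    rw [h2, Algebra.norm_algebraMap, RingOfIntegers.rank, Int.natAbs_pow, Int.natAbs_mul]
    simp
  constructor
  · rw [← Ideal.absNorm_ne_zero_iff]
    rw [h1]
    have : W.natAbs ≠ 0 := Int.natAbs_ne_zero.mpr hW
    positivity
  · rw [← h1]
    rfl

theorem arg_label {L : Type} [Field L] [NumberField L] (p : ℕ) (hp : 1 ≤ p) (σ : L →+* ℂ) :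
    ∃ f : 𝓞 L → Fin (8 * p + 1), ∀ α β : 𝓞 L, f α = f β →
      |(σ α).arg - (σ β).arg| < Real.pi / (4 * p) := by
  have hpi := Real.pi_pos
  have hp' : (0 : ℝ) < 4 * p := by positivity
  have hb : ∀ α : 𝓞 L, 0 ≤ ⌊(σ α).arg * (4 * p / Real.pi)⌋ + 4 * p ∧
      ⌊(σ α).arg * (4 * p / Real.pi)⌋ + 4 * p < 8 * p + 1 := by
    intro α
    have h1 := Complex.neg_pi_lt_arg (σ α)
    have h2 := Complex.arg_le_pi (σ α)
    have h3 : -(4 * p : ℝ) ≤ (σ α).arg * (4 * p / Real.pi) := by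
      have : -(4 * p : ℝ) = -Real.pi * (4 * p / Real.pi) := by field_simp
      rw [this]
      exact mul_le_mul_of_nonneg_right h1.le (by positivity)
    have h4 : (σ α).arg * (4 * p / Real.pi) ≤ (4 * p : ℝ) := by
      have : (4 * p : ℝ) = Real.pi * (4 * p / Real.pi) := by field_simp
      nth_rw 2 [this]
      exact mul_le_mul_of_nonneg_right h2 (by positivity)
    constructor
    · have : (-(4 * p : ℤ)) ≤ ⌊(σ α).arg * (4 * p / Real.pi)⌋ := by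
        rw [Int.le_floor]; push_cast; exact h3
      omega
    · have : ⌊(σ α).arg * (4 * p / Real.pi)⌋ ≤ (4 * p : ℤ) := by
        have h5 := Int.floor_le ((σ α).arg * (4 * p / Real.pi))
        have h6 : ((⌊(σ α).arg * (4 * p / Real.pi)⌋ : ℤ) : ℝ) ≤ ((4 * p : ℤ) : ℝ) := by
          push_cast; exact h5.trans h4
        exact_mod_cast h6
      omega
  refine ⟨fun α => ⟨(⌊(σ α).arg * (4 * p / Real.pi)⌋ + 4 * p).toNat, ?_⟩, ?_⟩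
  · have := hb α
    omega
  · intro α β h
    simp only [Fin.mk.injEq] at h
    have h1 := hb α
    have h2 := hb β
    have h3 : ⌊(σ α).arg * (4 * p / Real.pi)⌋ = ⌊(σ β).arg * (4 * p / Real.pi)⌋ := by omega
    have h4 := Int.abs_sub_lt_one_of_floor_eq_floor h3
    rw [← sub_mul, abs_mul, abs_of_pos (by positivity : (0 : ℝ) < 4 * p / Real.pi)] at h4
    rw [lt_div_iff₀ hp']
    rw [← mul_div_assoc, div_lt_one hpi] at h4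
    exact h4

theorem labels (h1 : FieldEx) (h5 : ClassLabel) (h9 : GapAll) (h10 : FacAlmost) : Labels := by
  classical
  intro p q hp hq
  obtain ⟨c₁, h1⟩ := h1 q hq
  obtain ⟨c₅, h5⟩ := h5 (q ^ 2) p (q ^ p) hp (Nat.one_le_pow _ _ hq.pos)
  refine ⟨(c₅ * c₁ ^ c₅ * p ^ (q ^ 2) * (8 * p + 1) ^ (q ^ 2)) ^ q + (c₁ * c₅ + q ^ 2) * q, ?_⟩
  intro W r hW hr S hS
  obtain ⟨L, instF, instN, ζ, θ, hζ, hθ, hd, hdisc⟩ := h1 W hW
  obtain ⟨f, hf⟩ := h5 L hd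
  obtain ⟨A, hA⟩ : ∃ A : ℤ × ℤ → 𝓞 L → 𝓞 L, A = fun v ω => (v.1 : 𝓞 L) - ω * θ ^ r := ⟨_, rfl⟩
  have hAlm : ∀ v ∈ S, ∀ ω : 𝓞 L, ω ^ q = 1 →
      AlmostPow p (Ideal.span {((q ^ p : ℕ) : 𝓞 L)}) (A v ω) := by
    intro v hv ω hω
    obtain ⟨_, hv2, hv3, hv4⟩ := hS v hv
    rw [hA]
    exact h10 L p r q W v.1 v.2 ζ θ ω hp.one_lt.le hq hr hW hζ hθ hv3 hv2 hv4 hω
  obtain ⟨F, hF⟩ : ∃ F : ℤ × ℤ → {ω : 𝓞 L // ω ∈ Polynomial.nthRootsFinset q (1 : 𝓞 L)} →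
      Fin (c₅ * (discr L).natAbs ^ c₅), F = fun v ω => f (A v ω.1) := ⟨_, rfl⟩
  obtain ⟨ref, href⟩ : ∃ ref : ({ω : 𝓞 L // ω ∈ Polynomial.nthRootsFinset q (1 : 𝓞 L)} →
      Fin (c₅ * (discr L).natAbs ^ c₅)) → ℤ × ℤ, ∀ v ∈ S, ref (F v) ∈ S ∧ F (ref (F v)) = F v := by
    refine ⟨fun φ => if h : ∃ w ∈ S, F w = φ then h.choose else (0, 0), ?_⟩
    intro v hv
    have h : ∃ w ∈ S, F w = F v := ⟨v, hv, rfl⟩
    simp only [h, dif_pos]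
    exact h.choose_spec
  have hex : ∀ (v : ℤ × ℤ) (ω : 𝓞 L), ∃ α : 𝓞 L, v ∈ S → ω ^ q = 1 →
      α ^ p = A v ω * (A (ref (F v)) ω) ^ (p - 1) := by
    intro v ω
    by_cases h : v ∈ S ∧ ω ^ q = 1
    · obtain ⟨hv, hω⟩ := h
      obtain ⟨hr1, hr2⟩ := href v hv
      have h3 : f (A v ω) = f (A (ref (F v)) ω) := by
        have h4 := congrFun hr2 ⟨ω, by rw [Polynomial.mem_nthRootsFinset hq.pos]; exact hω⟩
        rw [hF] at h4 ⊢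
        exact h4.symm
      obtain ⟨α, hα⟩ := hf _ _ (hAlm v hv ω hω) (hAlm _ hr1 ω hω) h3
      exact ⟨α, fun _ _ => hα⟩
    · exact ⟨0, fun h1 h2 => absurd ⟨h1, h2⟩ h⟩
  choose α hα using hex
  obtain ⟨hfin, hcardq⟩ := quot_label L p W hp.ne_zero hW
  choose g hg using fun σ : L →+* ℂ => arg_label (L := L) p hp.one_lt.le σ
  -- the label type
  obtain ⟨ι, hι⟩ := exists_fin_inj ({ω : 𝓞 L // ω ∈ Polynomial.nthRootsFinset q (1 : 𝓞 L)} →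
    (Fin (c₅ * (discr L).natAbs ^ c₅) × (𝓞 L ⧸ Ideal.span {(p : 𝓞 L) * (W : 𝓞 L)}) ×
      ((L →+* ℂ) → Fin (8 * p + 1))))
    (((c₅ * c₁ ^ c₅ * p ^ (q ^ 2) * (8 * p + 1) ^ (q ^ 2)) ^ q + (c₁ * c₅ + q ^ 2) * q) *
      W.natAbs ^ ((c₅ * c₁ ^ c₅ * p ^ (q ^ 2) * (8 * p + 1) ^ (q ^ 2)) ^ q +
        (c₁ * c₅ + q ^ 2) * q)) (by
    have hμ : Nat.card {ω : 𝓞 L // ω ∈ Polynomial.nthRootsFinset q (1 : 𝓞 L)} = q := by
      rw [Nat.card_eq_fintype_card, Fintype.card_coe, hζ.card_nthRootsFinset]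
    rw [Nat.card_fun, hμ, Nat.card_prod, Nat.card_prod, hcardq, Nat.card_fun, Nat.card_fin,
      Nat.card_fin, Nat.card_eq_fintype_card (α := L →+* ℂ), NumberField.Embeddings.card L ℂ]
    have hW1 : 1 ≤ W.natAbs := Int.natAbs_pos.mpr hW
    generalize W.natAbs = w at *
    generalize hdL : finrank ℚ L = d at *
    generalize (discr L).natAbs = D at *
    have e1 : c₅ * D ^ c₅ * ((p * w) ^ d * (8 * p + 1) ^ d) ≤
        (c₅ * c₁ ^ c₅ * p ^ (q ^ 2) * (8 * p + 1) ^ (q ^ 2)) * w ^ (c₁ * c₅ + q ^ 2) := by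
      have e2 : D ^ c₅ ≤ c₁ ^ c₅ * w ^ (c₁ * c₅) := by
        calc D ^ c₅ ≤ (c₁ * w ^ c₁) ^ c₅ := Nat.pow_le_pow_left hdisc _
          _ = c₁ ^ c₅ * w ^ (c₁ * c₅) := by rw [mul_pow, ← pow_mul]
      have hpw : 1 ≤ p * w := Nat.mul_le_mul hp.one_lt.le hW1
      have e3 : (p * w) ^ d ≤ p ^ (q ^ 2) * w ^ (q ^ 2) := by
        rw [← mul_pow]; exact Nat.pow_le_pow_right hpw hd
      have e4 : (8 * p + 1) ^ d ≤ (8 * p + 1) ^ (q ^ 2) := Nat.pow_le_pow_right (by omega) hd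
      calc c₅ * D ^ c₅ * ((p * w) ^ d * (8 * p + 1) ^ d) ≤
            c₅ * (c₁ ^ c₅ * w ^ (c₁ * c₅)) *
              ((p ^ (q ^ 2) * w ^ (q ^ 2)) * (8 * p + 1) ^ (q ^ 2)) := by gcongr
        _ = (c₅ * c₁ ^ c₅ * p ^ (q ^ 2) * (8 * p + 1) ^ (q ^ 2)) * w ^ (c₁ * c₅ + q ^ 2) := by
            rw [pow_add]; ring
    generalize c₅ * c₁ ^ c₅ * p ^ (q ^ 2) * (8 * p + 1) ^ (q ^ 2) = C at *
    generalize c₁ * c₅ + q ^ 2 = E at *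
    calc (c₅ * D ^ c₅ * ((p * w) ^ d * (8 * p + 1) ^ d)) ^ q ≤ (C * w ^ E) ^ q :=
          Nat.pow_le_pow_left e1 _
      _ = C ^ q * w ^ (E * q) := by rw [mul_pow, ← pow_mul]
      _ ≤ (C ^ q + E * q) * w ^ (C ^ q + E * q) :=
          Nat.mul_le_mul (by omega) (Nat.pow_le_pow_right hW1 (by omega)))
  refine ⟨fun v => ι (fun ω => (F v ω, Ideal.Quotient.mk _ (α v ω.1), fun σ => g σ (α v ω.1))), ?_⟩
  intro v hv w hw hvw hl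
  have hl' := hι hl
  have hFvw : F v = F w := by
    funext ω
    exact (Prod.mk.injEq _ _ _ _ ▸ congrFun hl' ω).1
  have hl2 : ∀ ω : 𝓞 L, ω ^ q = 1 →
      Ideal.Quotient.mk (Ideal.span {(p : 𝓞 L) * (W : 𝓞 L)}) (α v ω) =
        Ideal.Quotient.mk (Ideal.span {(p : 𝓞 L) * (W : 𝓞 L)}) (α w ω) ∧
      ∀ σ, g σ (α v ω) = g σ (α w ω) := by
    intro ω hω
    have h4 := congrFun hl' ⟨ω, by rw [Polynomial.mem_nthRootsFinset hq.pos]; exact hω⟩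
    simp only [Prod.mk.injEq] at h4
    exact ⟨h4.2.1, fun σ => congrFun h4.2.2 σ⟩
  obtain ⟨_, hv2, hv3, hv4⟩ := hS v hv
  obtain ⟨_, hw2, hw3, hw4⟩ := hS w hw
  obtain ⟨hr1, hr2⟩ := href v hv
  obtain ⟨_, hr3, hr4, hr5⟩ := hS _ hr1
  refine h9 L p r q W v.1 w.1 v.2 w.2 ζ θ (A (ref (F v))) (α v) (α w) hp.two_le hq hr hW hζ hθ
    hv3 hw3 hvw hv2 hw2 hv4 hw4 ?_
  intro ω hω
  refine ⟨(hAlm _ hr1 ω hω).1, ?_, ?_, ?_, ?_, ?_⟩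
  · rw [hA]
    exact cop_theta hq.one_lt.le hr hθ hr4
  · rw [hα v ω hv hω, hA]
  · rw [hα w ω hw hω, hFvw, hA]
  · have h6 := (hl2 ω hω).1
    rw [Ideal.Quotient.eq, Ideal.mem_span_singleton] at h6
    exact h6
  · intro σ
    exact hg σ _ _ ((hl2 ω hω).2 σ)

end Pool.Agent.Lib.MP_509488_nt.Sparse
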