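import Pool.Agent.Lib.MP_509488_nt.Sparse.StmtsB

/-!
# Sparse bases, part B: the number of solutions for one `W` (gap principle)
-/

namespace Pool.Agent.Lib.MP_509488_nt.Sparse

open Finset

theorem pow_dist_le {Y Z : ℤ} {q : ℕ} (hq : q ≠ 0) (hY : 0 ≤ Y) (hZ : 0 ≤ Z) :
    (Y - Z).natAbs ^ q ≤ (Y ^ q - Z ^ q).natAbs := by
  wlog h : Z ≤ Y generalizing Y Z with H
  · have h1 := H hZ hY (by omega)
    rw [← Int.natAbs_neg (Y - Z), ← Int.natAbs_neg (Y ^ q - Z ^ q), neg_sub, neg_sub]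
    exact h1
  · have h1 : (Y - Z) ^ q + Z ^ q ≤ ((Y - Z) + Z) ^ q := pow_add_pow_le (by omega) hZ hq
    rw [sub_add_cancel] at h1
    have h2 : ((Y - Z).natAbs : ℤ) = Y - Z := by
      rw [Int.natCast_natAbs, abs_of_nonneg (by omega)]
    have h3 : ((Y ^ q - Z ^ q).natAbs : ℤ) = |Y ^ q - Z ^ q| := Int.natCast_natAbs _
    have h4 : ((Y - Z).natAbs ^ q : ℤ) ≤ ((Y ^ q - Z ^ q).natAbs : ℤ) := by
      rw [h2, h3]
      refine le_trans ?_ (le_abs_self _)
      linarith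
    exact_mod_cast h4

/-- Two solutions with the same label: the absolute values of `X` are far apart. -/
theorem gap_double {p q : ℕ} (hp : 3 ≤ p) (hq : q ≠ 0) {W : ℤ} {r : ℕ} {v w : ℤ × ℤ}
    (hv : 1 ≤ v.1 ∧ v.2 ≠ 0 ∧ v.1 ^ q - W ^ r = v.2 ^ p)
    (hw : 1 ≤ w.1 ∧ w.2 ≠ 0 ∧ w.1 ^ q - W ^ r = w.2 ^ p)
    (hle : v.2.natAbs ≤ w.2.natAbs) (hlarge : 2 * (2 * (2 * p) ^ q) ≤ v.2.natAbs)
    (hgap : (v.2.natAbs * w.2.natAbs) ^ (p - 1) ≤ (2 * p * (v.1 - w.1).natAbs) ^ q) :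
    2 * v.2.natAbs ≤ w.2.natAbs := by
  obtain ⟨hv1, hv2, hv3⟩ := hv
  obtain ⟨hw1, hw2, hw3⟩ := hw
  have hX : 1 ≤ v.2.natAbs := Int.natAbs_pos.mpr hv2
  have hX' : 1 ≤ w.2.natAbs := Int.natAbs_pos.mpr hw2
  have h1 := pow_dist_le hq (by omega : 0 ≤ v.1) (by omega : 0 ≤ w.1)
  have h2 : (v.1 ^ q - w.1 ^ q).natAbs ≤ 2 * w.2.natAbs ^ p := by
    have e1 : v.1 ^ q - w.1 ^ q = v.2 ^ p - w.2 ^ p := by linarith
    rw [e1]
    have e2 : (v.2 ^ p - w.2 ^ p).natAbs ≤ v.2.natAbs ^ p + w.2.natAbs ^ p := by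
      refine (Int.natAbs_sub_le _ _).trans ?_
      rw [Int.natAbs_pow, Int.natAbs_pow]
    have e3 : v.2.natAbs ^ p ≤ w.2.natAbs ^ p := Nat.pow_le_pow_left hle _
    omega
  obtain ⟨n, rfl⟩ : ∃ n, p = n + 1 + 1 + 1 := ⟨p - 3, by omega⟩
  have h3 : (v.2.natAbs * w.2.natAbs) ^ (n + 2) ≤
      (2 * (2 * (n + 1 + 1 + 1)) ^ q) * w.2.natAbs ^ (n + 3) := by
    calc (v.2.natAbs * w.2.natAbs) ^ (n + 2) ≤
          (2 * (n + 1 + 1 + 1) * (v.1 - w.1).natAbs) ^ q := hgap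
      _ = (2 * (n + 1 + 1 + 1)) ^ q * (v.1 - w.1).natAbs ^ q := by rw [mul_pow]
      _ ≤ (2 * (n + 1 + 1 + 1)) ^ q * (2 * w.2.natAbs ^ (n + 3)) :=
          Nat.mul_le_mul_left _ (h1.trans h2)
      _ = _ := by ring
  generalize hc : 2 * (2 * (n + 1 + 1 + 1)) ^ q = c at *
  generalize v.2.natAbs = x at *
  generalize w.2.natAbs = y at *
  have hc0 : 0 < c := by rw [← hc]; positivity
  have h4 : x ^ (n + 2) ≤ c * y := by
    have h5 : x ^ (n + 2) * y ^ (n + 2) ≤ (c * y) * y ^ (n + 2) := by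
      calc x ^ (n + 2) * y ^ (n + 2) = (x * y) ^ (n + 2) := by rw [mul_pow]
        _ ≤ c * y ^ (n + 3) := h3
        _ = (c * y) * y ^ (n + 2) := by ring
    exact Nat.le_of_mul_le_mul_right h5 (by positivity)
  have h6 : x ^ 2 ≤ c * y := by
    refine le_trans (Nat.pow_le_pow_right hX (by omega)) h4
  have h7 : (2 * c) * x ≤ c * y := by
    calc (2 * c) * x ≤ x * x := Nat.mul_le_mul_right _ hlarge
      _ = x ^ 2 := by ring
      _ ≤ c * y := h6
  have h8 : c * (2 * x) ≤ c * y := by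
    calc c * (2 * x) = (2 * c) * x := by ring
      _ ≤ c * y := h7
  exact Nat.le_of_mul_le_mul_left h8 hc0

theorem oneW (h11 : Labels) : OneW := by
  classical
  intro p q hp hq hp3
  obtain ⟨cL, h11⟩ := h11 p q hp hq
  obtain ⟨c₁, hc₁⟩ : ∃ c₁ : ℕ, c₁ = 2 * (2 * p) ^ q := ⟨_, rfl⟩
  refine ⟨4 * c₁ + cL, ?_⟩
  intro N W r hW hr S hS
  have hpodd : Odd p := hp.odd_of_ne_two (by omega)
  obtain ⟨f, hf⟩ := h11 W r hW hr S (fun v hv =>
    ⟨(hS v hv).1, (hS v hv).2.1, (hS v hv).2.2.2.1, (hS v hv).2.2.2.2⟩)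
  have hinj : ∀ v ∈ S, ∀ w ∈ S, v.2 = w.2 → v = w := by
    intro v hv w hw hvw
    obtain ⟨hv1, -, -, -, hv5⟩ := hS v hv
    obtain ⟨hw1, -, -, -, hw5⟩ := hS w hw
    have e1 : v.1 ^ q = w.1 ^ q := by rw [hvw] at hv5; linarith
    exact Prod.ext ((pow_left_inj₀ (by omega) (by omega) hq.ne_zero).mp e1) hvw
  have hne1 : ∀ v ∈ S, ∀ w ∈ S, v ≠ w → v.1 ≠ w.1 := by
    intro v hv w hw hvw h
    apply hvw
    obtain ⟨-, -, -, -, hv5⟩ := hS v hv
    obtain ⟨-, -, -, -, hw5⟩ := hS w hw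
    have e1 : v.2 ^ p = w.2 ^ p := by rw [← hv5, ← hw5, h]
    exact Prod.ext h (hpodd.strictMono_pow.injective e1)
  have hsplit : S.card = (S.filter (fun v => v.2.natAbs < 2 * c₁)).card +
      (S.filter (fun v => ¬ v.2.natAbs < 2 * c₁)).card :=
    (Finset.card_filter_add_card_filter_not _).symm
  have hA : (S.filter (fun v => v.2.natAbs < 2 * c₁)).card ≤ 4 * c₁ := by
    have h1 : (S.filter (fun v => v.2.natAbs < 2 * c₁)).card ≤
        (Finset.Ico (-(2 * c₁ : ℤ)) (2 * c₁ : ℤ)).card := by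
      apply Finset.card_le_card_of_injOn (fun v : ℤ × ℤ => v.2)
      · intro v hv
        rw [Finset.mem_coe, Finset.mem_filter] at hv
        simp only [Finset.coe_Ico, Set.mem_Ico]
        have := hv.2
        omega
      · intro v hv w hw hvw
        rw [Finset.mem_coe, Finset.mem_filter] at hv hw
        exact hinj v hv.1 w hw.1 hvw
    refine h1.trans ?_
    rw [Int.card_Ico]
    omega
  have hB : (S.filter (fun v => ¬ v.2.natAbs < 2 * c₁)).card ≤
      (cL * W.natAbs ^ cL) * (Nat.log 2 N + 1) := by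
    have h2 : ∀ l ∈ (univ : Finset (Fin (cL * W.natAbs ^ cL))),
        ((S.filter (fun v => ¬ v.2.natAbs < 2 * c₁)).filter (fun v => f v = l)).card ≤
          Nat.log 2 N + 1 := by
      intro l _
      have h3 : ((S.filter (fun v => ¬ v.2.natAbs < 2 * c₁)).filter (fun v => f v = l)).card ≤
          (Finset.range (Nat.log 2 N + 1)).card := by
        apply Finset.card_le_card_of_injOn (fun v : ℤ × ℤ => Nat.log 2 v.2.natAbs)
        · intro v hv
          rw [Finset.mem_coe, Finset.mem_filter, Finset.mem_filter] at hv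
          rw [Finset.mem_coe, Finset.mem_range]
          have := Nat.log_mono_right (b := 2) (hS v hv.1.1).2.2.1
          exact Nat.lt_succ_of_le this
        · intro v hv w hw hvw
          rw [Finset.mem_coe, Finset.mem_filter, Finset.mem_filter] at hv hw
          by_contra hne
          have key : ∀ v ∈ S, ∀ w ∈ S, v ≠ w → f v = f w → 2 * c₁ ≤ v.2.natAbs →
              v.2.natAbs ≤ w.2.natAbs → Nat.log 2 v.2.natAbs = Nat.log 2 w.2.natAbs → False := by
            intro v hv w hw hne hl hc hle hlog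
            have h4 := hf v hv w hw (hne1 v hv w hw hne) hl
            obtain ⟨a1, a2, -, -, a5⟩ := hS v hv
            obtain ⟨b1, b2, -, -, b5⟩ := hS w hw
            have h5 := gap_double hp3 hq.ne_zero ⟨a1, a2, a5⟩ ⟨b1, b2, b5⟩ hle
              (by rw [← hc₁]; exact hc) h4
            have h6 : Nat.log 2 (v.2.natAbs * 2) = Nat.log 2 v.2.natAbs + 1 :=
              Nat.log_mul_base (by norm_num) (Int.natAbs_ne_zero.mpr a2)
            have h7 := Nat.log_mono_right (b := 2) (by omega : v.2.natAbs * 2 ≤ w.2.natAbs)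
            omega
          rcases le_total v.2.natAbs w.2.natAbs with h | h
          · exact key v hv.1.1 w hw.1.1 hne (hv.2.trans hw.2.symm) (by omega) h hvw
          · exact key w hw.1.1 v hv.1.1 (Ne.symm hne) (hw.2.trans hv.2.symm) (by omega) h hvw.symm
      rwa [Finset.card_range] at h3
    have h8 := Finset.card_le_mul_card_image_of_maps_to
      (s := S.filter (fun v => ¬ v.2.natAbs < 2 * c₁)) (t := univ) (f := f)
      (fun v _ => Finset.mem_univ _) (Nat.log 2 N + 1) h2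
    rw [Finset.card_univ, Fintype.card_fin] at h8
    exact h8.trans (le_of_eq (by ring))
  have hW1 : 1 ≤ W.natAbs := Int.natAbs_pos.mpr hW
  generalize W.natAbs = w at *
  generalize Nat.log 2 N = m at *
  have e1 : w ^ cL ≤ w ^ (4 * c₁ + cL) := Nat.pow_le_pow_right hW1 (by omega)
  have e2 : 1 ≤ w ^ (4 * c₁ + cL) := Nat.one_le_pow _ _ hW1
  calc S.card ≤ 4 * c₁ + (cL * w ^ cL) * (m + 1) := by omega
    _ ≤ 4 * c₁ * (w ^ (4 * c₁ + cL) * (m + 1)) + (cL * w ^ (4 * c₁ + cL)) * (m + 1) := by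
        apply Nat.add_le_add
        · have hw0 : 0 < w := hW1
          exact Nat.le_mul_of_pos_right _ (by positivity)
        · gcongr
    _ = (4 * c₁ + cL) * w ^ (4 * c₁ + cL) * (m + 1) := by ring

end Pool.Agent.Lib.MP_509488_nt.Sparse
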