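import Pool.Agent.Lib.MP_509488_nt.Sparse.StmtsB

/-! B13: for given exponents, one of them large. -/

namespace Pool.Agent.Lib.MP_509488_nt.Sparse

open Finset

namespace B13

/-- The bound of `OneW`. -/
def Bd (p q c : ℕ) : Prop := ∀ (N : ℕ) (W : ℤ) (r : ℕ),
  W ≠ 0 → 1 ≤ r → ∀ S : Finset (ℤ × ℤ), (∀ v ∈ S, 1 ≤ v.1 ∧ v.2 ≠ 0 ∧ v.2.natAbs ≤ N ∧
    IsCoprime v.1 W ∧ v.1 ^ q - W ^ r = v.2 ^ p) →
  S.card ≤ c * W.natAbs ^ c * (Nat.log 2 N + 1)

lemma Bd.mono {p q c c' : ℕ} (h : Bd p q c) (hc : c ≤ c') : Bd p q c' := by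
  intro N W r hW hr S hS
  refine (h N W r hW hr S hS).trans ?_
  have h1 : 1 ≤ W.natAbs := Nat.one_le_iff_ne_zero.mpr (Int.natAbs_ne_zero.mpr hW)
  gcongr

lemma uniform (h12 : OneW) (K : ℕ) : ∃ c : ℕ, ∀ p q : ℕ, p < K → q < K → p.Prime → q.Prime →
    3 ≤ p → Bd p q c := by
  have h : ∀ v : ℕ × ℕ, ∃ c, v.1.Prime → v.2.Prime → 3 ≤ v.1 → Bd v.1 v.2 c := by
    intro v
    by_cases hv : v.1.Prime ∧ v.2.Prime ∧ 3 ≤ v.1
    · obtain ⟨c, hc⟩ := h12 v.1 v.2 hv.1 hv.2.1 hv.2.2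
      exact ⟨c, fun _ _ _ => hc⟩
    · exact ⟨0, fun h1 h2 h3 => absurd ⟨h1, h2, h3⟩ hv⟩
  choose c hc using h
  refine ⟨∑ v ∈ range K ×ˢ range K, c v, fun p q hpK hqK hp hq h3 => ?_⟩
  refine (hc (p, q) hp hq h3).mono ?_
  exact Finset.single_le_sum (f := c) (fun _ _ => Nat.zero_le _)
    (Finset.mem_product.mpr ⟨Finset.mem_range.mpr hpK, Finset.mem_range.mpr hqK⟩)

lemma third (i k : Fin 3) : ∃ j, j ≠ i ∧ j ≠ k := by
  revert i k; decide

lemma univ3 (i j k : Fin 3) (h1 : i ≠ k) (h2 : j ≠ i) (h3 : j ≠ k) :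
    (Finset.univ : Finset (Fin 3)) = {i, j, k} := by
  revert i j k; decide

lemma sq_one {a b : ℤ} (ha : a = 1 ∨ a = -1) (hb : b = 1 ∨ b = -1) :
    -(a * b) = 1 ∨ -(a * b) = -1 := by
  rcases ha with rfl | rfl <;> rcases hb with rfl | rfl <;> simp

lemma sgn_pow {a : ℤ} (ha : a = 1 ∨ a = -1) {n : ℕ} (hn : Odd n) : a ^ n = a := by
  rcases ha with rfl | rfl
  · simp
  · exact hn.neg_one_pow

lemma one_class {p q r c N : ℕ} (hB : Bd p q c) (hp : Odd p) (hr : Odd r)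
    {s : Fin 3 → ℤ} {e : Fin 3 → ℕ} {i j k : Fin 3} (hik : i ≠ k) (hji : j ≠ i) (hjk : j ≠ k)
    (hs : Sgn s) (hei : e i = p) (hej : e j = q) (hek : e k = r) (F : Finset Pt) (w : ℤ)
    (hw : 1 ≤ w) (hF : ∀ P ∈ F, Sol s e N P ∧ P k = w) :
    F.card ≤ c * w.natAbs ^ c * (Nat.log 2 N + 1) := by
  classical
  have huniv := univ3 i j k hik hji hjk
  set g : Pt → ℤ × ℤ := fun P => (P j, -(s j * s i) * P i) with hg
  have hsi := sq_one (hs j) (hs i)
  have hsk := sq_one (hs j) (hs k)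
  have hne : -(s j * s i) ≠ 0 := by rcases hsi with h | h <;> rw [h] <;> decide
  have hinj : Set.InjOn g F := by
    intro P hP P' hP' h
    rw [hg] at h
    simp only [Prod.mk.injEq] at h
    have h2 : P i = P' i := mul_left_cancel₀ hne h.2
    funext x
    have hx : x ∈ ({i, j, k} : Finset (Fin 3)) := huniv ▸ Finset.mem_univ x
    simp only [Finset.mem_insert, Finset.mem_singleton] at hx
    rcases hx with rfl | rfl | rfl
    · exact h2
    · exact h.1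
    · rw [(hF P hP).2, (hF P' hP').2]
  rw [← Finset.card_image_of_injOn hinj]
  have hW : (-(s j * s k) * w).natAbs = w.natAbs := by
    rw [Int.natAbs_mul]
    rcases hsk with h | h <;> rw [h] <;> simp
  have key := hB N (-(s j * s k) * w) r (by
    refine mul_ne_zero ?_ (by omega)
    rcases hsk with h | h <;> rw [h] <;> decide) (Nat.one_le_iff_ne_zero.mpr (by
      rintro rfl
      simp at hr)) (F.image g) (by
    intro v hv
    rw [Finset.mem_image] at hv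
    obtain ⟨P, hPF, rfl⟩ := hv
    obtain ⟨⟨hbox, hcop, hsum⟩, hPk⟩ := hF P hPF
    refine ⟨(hbox j).1, mul_ne_zero hne (by have := (hbox i).1; omega), ?_, ?_, ?_⟩
    · show (-(s j * s i) * P i).natAbs ≤ N
      have h1 : (-(s j * s i) * P i).natAbs = (P i).natAbs := by
        rw [Int.natAbs_mul]
        rcases hsi with h | h <;> rw [h] <;> simp
      rw [h1]
      have := hbox i
      omega
    · show IsCoprime (P j) (-(s j * s k) * w)
      have h1 := hcop j k hjk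
      rw [hPk] at h1
      rcases hsk with h | h <;> rw [h]
      · rwa [one_mul]
      · rw [neg_one_mul]
        exact h1.neg_right
    · show P j ^ q - (-(s j * s k) * w) ^ r = (-(s j * s i) * P i) ^ p
      rw [mul_pow, mul_pow, sgn_pow hsk hr, sgn_pow hsi hp]
      rw [huniv, Finset.sum_insert (by simp [hji.symm, hik]), Finset.sum_insert (by simp [hjk]),
        Finset.sum_singleton, hei, hej, hek, hPk] at hsum
      have hsj : s j * s j = 1 := by rcases hs j with h | h <;> rw [h] <;> norm_num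
      linear_combination s j * hsum + (-(P j ^ q)) * hsj)
  rw [hW] at key
  exact key

/-- Real powers. -/
lemma k_bound {K N r : ℕ} (hN : 2 ≤ N) {p q : ℕ} (hp : p < K) (hq : q < K) (hr : 0 < r)
    {s : Fin 3 → ℤ} {e : Fin 3 → ℕ} {i j k : Fin 3} (hik : i ≠ k) (hji : j ≠ i) (hjk : j ≠ k)
    (hs : Sgn s) (hei : e i = p) (hej : e j = q) (hek : e k = r) {P : Pt} (hP : Sol s e N P) :
    (P k : ℝ) ≤ (N : ℝ) ^ (((K : ℝ) + 1) / r) := by
  obtain ⟨hbox, -, hsum⟩ := hP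
  have huniv := univ3 i j k hik hji hjk
  rw [huniv, Finset.sum_insert (by simp [hji.symm, hik]), Finset.sum_insert (by simp [hjk]),
    Finset.sum_singleton, hei, hej, hek] at hsum
  have hN0 : (1 : ℤ) ≤ N := by exact_mod_cast (by omega : 1 ≤ N)
  have hi0 : 0 ≤ P i := by have := (hbox i).1; omega
  have hj0 : 0 ≤ P j := by have := (hbox j).1; omega
  have hk0 : 0 ≤ P k := by have := (hbox k).1; omega
  have h1 : P i ^ p ≤ (N : ℤ) ^ K :=
    (pow_le_pow_left₀ hi0 (hbox i).2 p).trans (pow_le_pow_right₀ hN0 hp.le)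
  have h2 : P j ^ q ≤ (N : ℤ) ^ K :=
    (pow_le_pow_left₀ hj0 (hbox j).2 q).trans (pow_le_pow_right₀ hN0 hq.le)
  have h3 : P k ^ r ≤ P i ^ p + P j ^ q := by
    have e1 : 0 ≤ P i ^ p := pow_nonneg hi0 p
    have e2 : 0 ≤ P j ^ q := pow_nonneg hj0 q
    have e3 : 0 ≤ P k ^ r := pow_nonneg hk0 r
    rcases hs i with h | h <;> rcases hs j with h' | h' <;> rcases hs k with h'' | h'' <;>
      rw [h, h', h''] at hsum <;> linarith
  have h4 : P k ^ r ≤ (N : ℤ) ^ (K + 1) := by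
    have h5 : (2 : ℤ) * (N : ℤ) ^ K ≤ (N : ℤ) ^ (K + 1) := by
      rw [pow_succ, mul_comm]
      have : (2 : ℤ) ≤ N := by exact_mod_cast hN
      exact mul_le_mul_of_nonneg_left this (by positivity)
    linarith
  have h6 : (P k : ℝ) ^ r ≤ (N : ℝ) ^ (K + 1) := by exact_mod_cast h4
  have hk0' : (0 : ℝ) ≤ P k := by exact_mod_cast hk0
  have hr' : (0 : ℝ) < r := by exact_mod_cast hr
  calc (P k : ℝ) = ((P k : ℝ) ^ r) ^ ((r : ℝ)⁻¹) := (Real.pow_rpow_inv_natCast hk0' hr.ne').symm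
    _ ≤ ((N : ℝ) ^ (K + 1)) ^ ((r : ℝ)⁻¹) := by
        apply Real.rpow_le_rpow (by positivity) h6 (by positivity)
    _ = (N : ℝ) ^ (((K : ℝ) + 1) / r) := by
        rw [← Real.rpow_natCast, ← Real.rpow_mul (by positivity)]
        congr 1
        push_cast
        rw [div_eq_mul_inv]

lemma ev (c : ℕ) {ε : ℝ} (hε : 0 < ε) : ∃ N₀ : ℕ, ∀ N : ℕ, N₀ ≤ N →
    (c : ℝ) * ((Nat.log 2 N : ℕ) + 1) ≤ (N : ℝ) ^ ε := by
  have h1 : Filter.Tendsto (fun x : ℝ => (c : ℝ) * (2 * Real.log x + 1) / x ^ ε) Filter.atTop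
      (nhds 0) := by
    have h2 : (fun x : ℝ => (c : ℝ) * (2 * Real.log x + 1)) =o[Filter.atTop] fun x => x ^ ε := by
      refine Asymptotics.IsLittleO.const_mul_left ?_ _
      refine ((isLittleO_log_rpow_atTop hε).const_mul_left 2).add ?_
      exact Asymptotics.isLittleO_const_left.mpr (Or.inr (by
        exact tendsto_norm_atTop_atTop.comp (tendsto_rpow_atTop hε)))
    exact h2.tendsto_div_nhds_zero
  have h3 := (h1.comp tendsto_natCast_atTop_atTop).eventually (gt_mem_nhds (zero_lt_one' ℝ))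
  obtain ⟨N₀, hN₀⟩ := Filter.eventually_atTop.mp (h3.and (Filter.eventually_ge_atTop 1))
  refine ⟨N₀, fun N hN => ?_⟩
  obtain ⟨h4, h5⟩ := hN₀ N hN
  have hN0 : (0 : ℝ) < N := by exact_mod_cast h5
  have h6 : 0 < (N : ℝ) ^ ε := Real.rpow_pos_of_pos hN0 _
  simp only [Function.comp_apply] at h4
  rw [div_lt_one h6] at h4
  refine le_trans ?_ h4.le
  gcongr
  have h7 : ((Nat.log 2 N : ℕ) : ℝ) * Real.log 2 ≤ Real.log N := by
    rw [← Real.log_pow]
    apply Real.log_le_log (by positivity)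
    exact_mod_cast Nat.pow_log_le_self 2 (by omega)
  have h8 : (1 / 2 : ℝ) < Real.log 2 := by
    have := Real.log_two_gt_d9
    linarith
  have h9 : (0 : ℝ) ≤ ((Nat.log 2 N : ℕ) : ℝ) := Nat.cast_nonneg _
  nlinarith

end B13

open B13 in
/-- B13: for given exponents, one of them large. -/
theorem coreB (h12 : OneW) : CoreB := by
  classical
  intro K ε hε
  obtain ⟨c, hc⟩ := uniform h12 K
  obtain ⟨N₀, hN₀⟩ := ev c (show 0 < ε / 2 by linarith)
  refine ⟨max 3 ⌈2 * ((K : ℝ) + 1) * (c + 1) / ε⌉₊, max N₀ 2, ?_⟩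
  intro N hN s e k T hs he hk hK hi2 hT
  obtain ⟨i, hik, hi2⟩ := hi2
  obtain ⟨j, hji, hjk⟩ := third i k
  have hN2 : 2 ≤ N := (le_max_right _ _).trans hN
  have hN0 : (0 : ℝ) < N := by exact_mod_cast (by omega : 0 < N)
  have hN1 : (1 : ℝ) ≤ N := by exact_mod_cast (by omega : 1 ≤ N)
  have hk3 : 3 ≤ e k := (le_max_left _ _).trans hk
  have hodd : ∀ x, e x ≠ 2 → Odd (e x) := fun x hx => (he x).odd_of_ne_two hx
  have hi3 : 3 ≤ e i := by
    have := (he i).two_le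
    omega
  have hkR : 2 * ((K : ℝ) + 1) * (c + 1) / ε ≤ e k :=
    (Nat.le_ceil _).trans (by exact_mod_cast (le_max_right _ _).trans hk)
  have hek0 : (0 : ℝ) < e k := by exact_mod_cast (by omega : 0 < e k)
  set δ : ℝ := ((K : ℝ) + 1) / e k with hδ
  have hδ0 : 0 < δ := by positivity
  have hδ1 : δ * (c + 1) ≤ ε / 2 := by
    rw [hδ, div_mul_eq_mul_div, div_le_iff₀ hek0]
    rw [div_le_iff₀ hε] at hkR
    linarith
  have hB : Bd (e i) (e j) c := hc (e i) (e j) (hK i hik) (hK j hjk) (he i) (he j) hi3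
  have hPk : ∀ P ∈ T, (P k : ℝ) ≤ (N : ℝ) ^ δ := fun P hP =>
    k_bound hN2 (hK i hik) (hK j hjk) (by omega) hik hji hjk hs rfl rfl rfl (hT P hP)
  have hNδ1 : (1 : ℝ) ≤ (N : ℝ) ^ δ := Real.one_le_rpow hN1 hδ0.le
  -- the fibres
  have hfib : ∀ w ∈ T.image (fun P => P k), (((T.filter fun P => P k = w).card : ℕ) : ℝ) ≤
      c * ((N : ℝ) ^ δ) ^ c * ((Nat.log 2 N : ℕ) + 1) := by
    intro w hw
    rw [Finset.mem_image] at hw
    obtain ⟨P, hP, rfl⟩ := hw
    have hw1 : 1 ≤ P k := ((hT P hP).1 k).1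
    have h1 := one_class hB (hodd i hi2) (hodd k (by omega)) hik hji hjk hs rfl rfl rfl
      (T.filter fun P' => P' k = P k) (P k) hw1 (N := N) (fun P' hP' => by
        rw [Finset.mem_filter] at hP'
        exact ⟨hT P' hP'.1, hP'.2⟩)
    have h2 : (((T.filter fun P' => P' k = P k).card : ℕ) : ℝ) ≤
        ((c * (P k).natAbs ^ c * (Nat.log 2 N + 1) : ℕ) : ℝ) := by exact_mod_cast h1
    refine h2.trans ?_
    push_cast
    have h3 : (((P k).natAbs : ℕ) : ℝ) ≤ (N : ℝ) ^ δ := by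
      have h4 : (((P k).natAbs : ℕ) : ℝ) = (P k : ℝ) := by
        rw [Nat.cast_natAbs, abs_of_nonneg (by omega)]
      rw [h4]
      exact hPk P hP
    gcongr
  have himg : (((T.image fun P => P k).card : ℕ) : ℝ) ≤ (N : ℝ) ^ δ := by
    have h1 : T.image (fun P => P k) ⊆ Finset.Icc 1 (⌊(N : ℝ) ^ δ⌋) := by
      intro w hw
      rw [Finset.mem_image] at hw
      obtain ⟨P, hP, rfl⟩ := hw
      rw [Finset.mem_Icc]
      exact ⟨((hT P hP).1 k).1, Int.le_floor.mpr (hPk P hP)⟩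
    have h2 := Finset.card_le_card h1
    rw [Int.card_Icc] at h2
    have h3 : (0 : ℤ) ≤ ⌊(N : ℝ) ^ δ⌋ := Int.floor_nonneg.mpr (by positivity)
    have h4 : (((T.image fun P => P k).card : ℕ) : ℤ) ≤ ⌊(N : ℝ) ^ δ⌋ := by omega
    have h5 : (((T.image fun P => P k).card : ℕ) : ℝ) ≤ ((⌊(N : ℝ) ^ δ⌋ : ℤ) : ℝ) := by
      exact_mod_cast h4
    exact h5.trans (Int.floor_le _)
  have hcard : (T.card : ℝ) = ∑ w ∈ T.image (fun P => P k),
      (((T.filter fun P => P k = w).card : ℕ) : ℝ) := by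
    exact_mod_cast Finset.card_eq_sum_card_image (fun P : Pt => P k) T
  calc (T.card : ℝ) = ∑ w ∈ T.image (fun P => P k),
      (((T.filter fun P => P k = w).card : ℕ) : ℝ) := hcard
    _ ≤ ∑ w ∈ T.image (fun P => P k), (c * ((N : ℝ) ^ δ) ^ c * ((Nat.log 2 N : ℕ) + 1)) :=
        Finset.sum_le_sum hfib
    _ = ((T.image fun P => P k).card : ℝ) * (c * ((N : ℝ) ^ δ) ^ c * ((Nat.log 2 N : ℕ) + 1)) := by
        rw [Finset.sum_const, nsmul_eq_mul]
    _ ≤ (N : ℝ) ^ δ * (c * ((N : ℝ) ^ δ) ^ c * ((Nat.log 2 N : ℕ) + 1)) := by gcongr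
    _ = (N : ℝ) ^ (δ * (c + 1)) * (c * ((Nat.log 2 N : ℕ) + 1)) := by
        rw [Real.rpow_mul hN0.le, Real.rpow_add (by positivity), Real.rpow_one, Real.rpow_natCast]
        ring
    _ ≤ (N : ℝ) ^ (ε / 2) * (N : ℝ) ^ (ε / 2) := by
        gcongr
        exact hN₀ N ((le_max_left _ _).trans hN)
    _ = (N : ℝ) ^ ε := by
        rw [← Real.rpow_add hN0]; congr 1; ring

end Pool.Agent.Lib.MP_509488_nt.Sparse
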