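import Pool.Agent.Lib.MP_509488_nt.Sparse.StmtsB

/-!
# Sparse bases, second part: the final count (module B14)
-/

namespace Pool.Agent.Lib.MP_509488_nt.Sparse

open Finset Filter

namespace B14

/-- The inequalities for large `N`. -/
theorem final_ev (ε : ℝ) (A : ℕ) (hε : 0 < ε) :
    ∀ᶠ N : ℕ in atTop, (N : ℝ) ^ (ε / 2) +
      (Real.log N ^ A + 1) ^ 3 * (N : ℝ) ^ (ε / 4) ≤ (N : ℝ) ^ ε ∧ 1 ≤ Real.log N := by
  have t1 : Tendsto (fun N : ℕ => (N : ℝ) ^ (ε / 2)) atTop atTop :=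
    (tendsto_rpow_atTop (by positivity)).comp tendsto_natCast_atTop_atTop
  have t2 : Tendsto (fun N : ℕ => Real.log N) atTop atTop :=
    Real.tendsto_log_atTop.comp tendsto_natCast_atTop_atTop
  have e4 : ∀ᶠ N : ℕ in atTop, 1 ≤ Real.log N := t2.eventually_ge_atTop _
  have e3 : ∀ᶠ N : ℕ in atTop, (2 : ℝ) ^ 3 * Real.log N ^ (3 * A) ≤ (N : ℝ) ^ (ε / 4) := by
    have := (isLittleO_log_rpow_rpow_atTop ((3 * A : ℕ) : ℝ)
      (show 0 < ε / 4 by positivity)).bound (show (0 : ℝ) < 1 / 2 ^ 3 by norm_num)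
    have := tendsto_natCast_atTop_atTop.eventually this
    filter_upwards [this, e4] with N hN hl
    rw [Real.rpow_natCast, Real.norm_of_nonneg (by positivity),
      Real.norm_of_nonneg (by positivity)] at hN
    linarith
  filter_upwards [e3, e4, t1.eventually_ge_atTop 2, eventually_ge_atTop 1] with N h3 h4 h5 h6
  refine ⟨?_, h4⟩
  have hN : (0 : ℝ) < N := by exact_mod_cast h6
  have h7 : (1 : ℝ) ≤ Real.log N ^ A := one_le_pow₀ h4
  have h8 : (Real.log N ^ A + 1) ^ 3 * (N : ℝ) ^ (ε / 4) ≤ (N : ℝ) ^ (ε / 2) := by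
    calc (Real.log N ^ A + 1) ^ 3 * (N : ℝ) ^ (ε / 4)
        ≤ (2 * Real.log N ^ A) ^ 3 * (N : ℝ) ^ (ε / 4) := by
          gcongr
          linarith
      _ = (2 ^ 3 * Real.log N ^ (3 * A)) * (N : ℝ) ^ (ε / 4) := by
          rw [mul_pow, ← pow_mul, mul_comm A 3]
      _ ≤ (N : ℝ) ^ (ε / 4) * (N : ℝ) ^ (ε / 4) := by gcongr
      _ = (N : ℝ) ^ (ε / 2) := by
          rw [← Real.rpow_add hN]
          congr 1
          ring
  have h9 : (N : ℝ) ^ ε = (N : ℝ) ^ (ε / 2) * (N : ℝ) ^ (ε / 2) := by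
    rw [← Real.rpow_add hN]
    congr 1
    ring
  rw [h9]
  nlinarith

/-- The points of a fibre. -/
def toPt (v : ℕ × ℕ × ℕ × ℕ × ℕ × ℕ) : Pt := ![(v.1 : ℤ), (v.2.1 : ℤ), (v.2.2.1 : ℤ)]

/-- The exponents. -/
def toE (v : ℕ × ℕ × ℕ × ℕ × ℕ × ℕ) : ℕ × ℕ × ℕ := (v.2.2.2.1, v.2.2.2.2.1, v.2.2.2.2.2)

/-- Solutions in the sense of `Sol`. -/
theorem sol_of {x y z p q r N : ℕ} (hx : 2 ≤ x) (hx' : x ≤ N) (hy : 2 ≤ y) (hy' : y ≤ N)
    (hz : 2 ≤ z) (hz' : z ≤ N) (hc : Nat.Coprime x y) (hp : p.Prime) (hq : q.Prime) (hr : r.Prime)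
    (he : x ^ p + y ^ q = z ^ r) :
    Sol ![1, 1, -1] ![p, q, r] N (toPt (x, y, z, p, q, r)) := by
  have hp0 : p ≠ 0 := hp.ne_zero
  have hq0 : q ≠ 0 := hq.ne_zero
  have hr0 : r ≠ 0 := hr.ne_zero
  have cxz : Nat.Coprime x z := by
    by_contra hcon
    obtain ⟨l, hl, hlx, hlz⟩ := Nat.Prime.not_coprime_iff_dvd.1 hcon
    have d1 : l ∣ x ^ p := dvd_pow hlx hp0
    have d2 : l ∣ z ^ r := dvd_pow hlz hr0
    have d3 : l ∣ y ^ q := by
      rw [← he] at d2
      exact (Nat.dvd_add_right d1).1 d2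
    have d4 : l ∣ y := hl.dvd_of_dvd_pow d3
    exact Nat.Prime.not_coprime_iff_dvd.2 ⟨l, hl, hlx, d4⟩ hc
  have cyz : Nat.Coprime y z := by
    by_contra hcon
    obtain ⟨l, hl, hly, hlz⟩ := Nat.Prime.not_coprime_iff_dvd.1 hcon
    have d1 : l ∣ y ^ q := dvd_pow hly hq0
    have d2 : l ∣ z ^ r := dvd_pow hlz hr0
    have d3 : l ∣ x ^ p := by
      rw [← he] at d2
      exact (Nat.dvd_add_left d1).1 d2
    have d4 : l ∣ x := hl.dvd_of_dvd_pow d3
    exact Nat.Prime.not_coprime_iff_dvd.2 ⟨l, hl, d4, hly⟩ hc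
  have Cxy : IsCoprime (x : ℤ) y := Nat.isCoprime_iff_coprime.2 hc
  have Cxz : IsCoprime (x : ℤ) z := Nat.isCoprime_iff_coprime.2 cxz
  have Cyz : IsCoprime (y : ℤ) z := Nat.isCoprime_iff_coprime.2 cyz
  refine ⟨?_, ?_, ?_⟩
  · intro i
    fin_cases i <;> simp [toPt] <;> omega
  · intro i j hij
    fin_cases i <;> fin_cases j <;> first
      | exact absurd rfl hij
      | exact Cxy
      | exact Cxz
      | exact Cyz
      | exact Cxy.symm
      | exact Cxz.symm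
      | exact Cyz.symm
  · have he' : (x : ℤ) ^ p + (y : ℤ) ^ q = (z : ℤ) ^ r := by exact_mod_cast he
    rw [Fin.sum_univ_three]
    simp only [toPt, Matrix.cons_val_zero, Matrix.cons_val_one, Matrix.cons_val]
    linarith

/-- `1/2 + 1/2 + 1/r` is larger than one. -/
theorem not_two {a : ℕ} (ha : a.Prime) (h : (1 : ℝ) / (2 : ℕ) + 1 / (2 : ℕ) + 1 / a ≤ 1) :
    False := by
  have h1 : (0 : ℝ) < 1 / a := by
    have : (0 : ℝ) < a := by exact_mod_cast ha.pos
    positivity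
  push_cast at h
  linarith

end B14

open B14 in
theorem finalB (h1 : Final) (h2 : CoreB) (h3 : ExpBound) : FinalB := by
  classical
  intro ε hε
  obtain ⟨K₁, N₁, hF⟩ := h1 (ε / 2) (by positivity)
  obtain ⟨K', N₂, hC⟩ := h2 K₁ (ε / 4) (by positivity)
  obtain ⟨A, N₃, hE⟩ := h3
  obtain ⟨N₀, hN₀⟩ := Filter.eventually_atTop.1 (final_ev ε A hε)
  refine ⟨max K₁ K', max (max N₀ N₁) (max N₂ N₃), fun N hN => ?_⟩
  obtain ⟨a1, a2⟩ := hN₀ N (le_trans (le_trans (le_max_left _ _) (le_max_left _ _)) hN)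
  obtain ⟨f1, f2⟩ := hF N (le_trans (le_trans (le_max_right _ _) (le_max_left _ _)) hN)
  have hC' := hC N (le_trans (le_trans (le_max_left _ _) (le_max_right _ _)) hN)
  have hE' := hE N (le_trans (le_trans (le_max_right _ _) (le_max_right _ _)) hN)
  set K : ℕ := max K₁ K' with hK
  have hK₁ : K₁ ≤ K := le_max_left _ _
  have hK' : K' ≤ K := le_max_right _ _
  set M : ℕ := ⌊Real.log N ^ A⌋₊ with hM
  have hM1 : (M : ℝ) ≤ Real.log N ^ A := Nat.floor_le (by positivity)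
  set B : ℕ := ⌊(N : ℝ) ^ (ε / 4)⌋₊ with hB
  have hB1 : (B : ℝ) ≤ (N : ℝ) ^ (ε / 4) := Nat.floor_le (by positivity)
  -- the remaining solutions
  let F : Finset (ℕ × ℕ × ℕ × ℕ × ℕ × ℕ) :=
    ((range (N + 1)) ×ˢ (range (N + 1)) ×ˢ (range (N + 1)) ×ˢ (range (M + 1)) ×ˢ
      (range (M + 1)) ×ˢ (range (M + 1))).filter (fun v => v ∈ SolSetB K N ∧ v ∉ SolSet K₁ N)
  have hSF : SolSetB K N ⊆ SolSet K₁ N ∪ (F : Set (ℕ × ℕ × ℕ × ℕ × ℕ × ℕ)) := by
    intro v hv
    by_cases hv' : v ∈ SolSet K₁ N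
    · exact Or.inl hv'
    · right
      simp only [F, Finset.coe_filter, Set.mem_ofPred_eq]
      refine ⟨?_, hv, hv'⟩
      obtain ⟨x, y, z, p, q, r, rfl, hx, hx', hy, hy', hz, hz', hc, hp, hq, hr, -, -, he, -⟩ := hv
      obtain ⟨b1, b2, b3⟩ := hE' x y z p q r hx hx' hy hy' hz hz' hc hp hq hr he
      have c1 : p ≤ M := Nat.le_floor b1
      have c2 : q ≤ M := Nat.le_floor b2
      have c3 : r ≤ M := Nat.le_floor b3
      simp only [Finset.mem_product, Finset.mem_range]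
      omega
  have hfib : ∀ b ∈ (range (M + 1)) ×ˢ (range (M + 1)) ×ˢ (range (M + 1)),
      (F.filter (fun v => toE v = b)).card ≤ B := by
    rintro ⟨p, q, r⟩ -
    rcases (F.filter (fun v => toE v = (p, q, r))).eq_empty_or_nonempty with h0 | ⟨v₀, hv₀⟩
    · rw [h0]; simp
    have key : ∀ v ∈ F.filter (fun v => toE v = (p, q, r)), ∃ x y z : ℕ,
        v = (x, y, z, p, q, r) ∧ 2 ≤ x ∧ x ≤ N ∧ 2 ≤ y ∧ y ≤ N ∧ 2 ≤ z ∧ z ≤ N ∧
        Nat.Coprime x y ∧ p.Prime ∧ q.Prime ∧ r.Prime ∧ (1 : ℝ) / p + 1 / q + 1 / r ≤ 1 ∧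
        ¬ (p = q ∧ q = r) ∧ x ^ p + y ^ q = z ^ r ∧ (K ≤ p ∨ K ≤ q ∨ K ≤ r) ∧
        ¬ ((K₁ ≤ p ∧ K₁ ≤ q) ∨ (K₁ ≤ p ∧ K₁ ≤ r) ∨ (K₁ ≤ q ∧ K₁ ≤ r)) := by
      intro v hv
      rw [Finset.mem_filter] at hv
      obtain ⟨hv, hve⟩ := hv
      obtain ⟨hv1, hv2⟩ := (Finset.mem_filter.1 hv).2
      obtain ⟨x, y, z, p', q', r', rfl, g1, g2, g3, g4, g5, g6, g7, g8, g9, g10, g11, g12, g13,
        g14⟩ := hv1
      simp only [toE, Prod.mk.injEq] at hve
      obtain ⟨rfl, rfl, rfl⟩ := hve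
      exact ⟨x, y, z, rfl, g1, g2, g3, g4, g5, g6, g7, g8, g9, g10, g11, g12, g13, g14,
        fun hcon => hv2 ⟨x, y, z, p', q', r', rfl, g1, g2, g3, g4, g5, g6, g7, g8, g9, g10, g13,
          g12, hcon⟩⟩
    obtain ⟨x₀, y₀, z₀, -, hx, hx', hy, hy', hz, hz', hc, hp, hq, hr, hhyp, hne, he, hKK, hnK⟩ :=
      key v₀ hv₀
    have hcard : (F.filter (fun v => toE v = (p, q, r))).card =
        ((F.filter (fun v => toE v = (p, q, r))).image toPt).card := by
      rw [Finset.card_image_of_injOn]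
      intro v hv w hw hvw
      obtain ⟨x, y, z, rfl, -⟩ := key v hv
      obtain ⟨x', y', z', rfl, -⟩ := key w hw
      have g0 := congrFun hvw 0
      have g1 := congrFun hvw 1
      have g2 := congrFun hvw 2
      simp only [toPt, Matrix.cons_val_zero, Matrix.cons_val_one, Matrix.cons_val,
        Nat.cast_inj] at g0 g1 g2
      rw [g0, g1, g2]
    rw [hcard]
    apply Nat.le_floor
    have hidx : ∃ k : Fin 3, K' ≤ (![p, q, r] : Fin 3 → ℕ) k ∧
        (∀ i, i ≠ k → (![p, q, r] : Fin 3 → ℕ) i < K₁) ∧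
        ∃ i, i ≠ k ∧ (![p, q, r] : Fin 3 → ℕ) i ≠ 2 := by
      rcases hKK with hk | hk | hk
      · refine ⟨0, hK'.trans hk, ?_, ?_⟩
        · intro i hi
          have e1 : q < K₁ := by by_contra hcon; exact hnK (Or.inl ⟨hK₁.trans hk, by omega⟩)
          have e2 : r < K₁ := by
            by_contra hcon; exact hnK (Or.inr (Or.inl ⟨hK₁.trans hk, by omega⟩))
          fin_cases i
          · exact absurd rfl hi
          · exact e1
          · exact e2
        · by_cases e1 : q = 2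
          · refine ⟨2, by decide, fun e2 => ?_⟩
            have e2' : r = 2 := e2
            rw [e1, e2'] at hhyp
            exact not_two hp (by linarith)
          · exact ⟨1, by decide, e1⟩
      · refine ⟨1, hK'.trans hk, ?_, ?_⟩
        · intro i hi
          have e1 : p < K₁ := by by_contra hcon; exact hnK (Or.inl ⟨by omega, hK₁.trans hk⟩)
          have e2 : r < K₁ := by
            by_contra hcon; exact hnK (Or.inr (Or.inr ⟨hK₁.trans hk, by omega⟩))
          fin_cases i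
          · exact e1
          · exact absurd rfl hi
          · exact e2
        · by_cases e1 : p = 2
          · refine ⟨2, by decide, fun e2 => ?_⟩
            have e2' : r = 2 := e2
            rw [e1, e2'] at hhyp
            exact not_two hq (by linarith)
          · exact ⟨0, by decide, e1⟩
      · refine ⟨2, hK'.trans hk, ?_, ?_⟩
        · intro i hi
          have e1 : p < K₁ := by
            by_contra hcon; exact hnK (Or.inr (Or.inl ⟨by omega, hK₁.trans hk⟩))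
          have e2 : q < K₁ := by
            by_contra hcon; exact hnK (Or.inr (Or.inr ⟨by omega, hK₁.trans hk⟩))
          fin_cases i
          · exact e1
          · exact e2
          · exact absurd rfl hi
        · by_cases e1 : p = 2
          · refine ⟨1, by decide, fun e2 => ?_⟩
            have e2' : q = 2 := e2
            rw [e1, e2'] at hhyp
            exact not_two hr (by linarith)
          · exact ⟨0, by decide, e1⟩
    obtain ⟨k, k1, k2, k3⟩ := hidx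
    refine hC' ![1, 1, -1] ![p, q, r] k _ ?_ ?_ k1 k2 k3 ?_
    · intro i
      fin_cases i <;> simp
    · intro i
      fin_cases i
      · exact hp
      · exact hq
      · exact hr
    · intro P hP
      obtain ⟨v, hv, rfl⟩ := Finset.mem_image.1 hP
      obtain ⟨x, y, z, rfl, hx, hx', hy, hy', hz, hz', hc, -, -, -, -, -, he, -, -⟩ := key v hv
      exact sol_of hx hx' hy hy' hz hz' hc hp hq hr he
  have hmaps : ∀ v ∈ F, toE v ∈ (range (M + 1)) ×ˢ (range (M + 1)) ×ˢ (range (M + 1)) := by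
    intro v hv
    have := (Finset.mem_filter.1 hv).1
    simp only [Finset.mem_product] at this
    simp only [toE, Finset.mem_product]
    exact this.2.2.2
  have hcardF : F.card ≤ B * ((M + 1) * ((M + 1) * (M + 1))) := by
    have := Finset.card_le_mul_card_image_of_maps_to hmaps B hfib
    simpa [Finset.card_product] using this
  have hfin : (SolSet K₁ N ∪ (F : Set (ℕ × ℕ × ℕ × ℕ × ℕ × ℕ))).Finite := f1.union F.finite_toSet
  refine ⟨hfin.subset hSF, ?_⟩
  have hn : (SolSetB K N).ncard ≤ (SolSet K₁ N).ncard + F.card := by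
    calc (SolSetB K N).ncard ≤ (SolSet K₁ N ∪ (F : Set (ℕ × ℕ × ℕ × ℕ × ℕ × ℕ))).ncard :=
          Set.ncard_le_ncard hSF hfin
      _ ≤ (SolSet K₁ N).ncard + (F : Set (ℕ × ℕ × ℕ × ℕ × ℕ × ℕ)).ncard := Set.ncard_union_le _ _
      _ = _ := by rw [Set.ncard_coe_finset]
  calc ((SolSetB K N).ncard : ℝ) ≤ (((SolSet K₁ N).ncard + F.card : ℕ) : ℝ) := by
        exact_mod_cast hn
    _ ≤ (N : ℝ) ^ (ε / 2) + ((B * ((M + 1) * ((M + 1) * (M + 1))) : ℕ) : ℝ) := by
        push_cast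
        have h5 : (F.card : ℝ) ≤ ((B * ((M + 1) * ((M + 1) * (M + 1))) : ℕ) : ℝ) := by
          exact_mod_cast hcardF
        push_cast at h5
        linarith
    _ = (N : ℝ) ^ (ε / 2) + ((M : ℝ) + 1) ^ 3 * B := by push_cast; ring
    _ ≤ (N : ℝ) ^ (ε / 2) + (Real.log N ^ A + 1) ^ 3 * (N : ℝ) ^ (ε / 4) := by gcongr
    _ ≤ (N : ℝ) ^ ε := a1

end Pool.Agent.Lib.MP_509488_nt.Sparse
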