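import Pool.Agent.Lib.MP_509488_nt.Sparse.StmtsB

/-! Module B2: the number of ideals of small norm. -/

namespace Pool.Agent.Lib.MP_509488_nt.Sparse

open Finset NumberField Module

namespace IdealCountAux

variable (L : Type) [Field L] [NumberField L]

/-- The ideals of norm `n`. -/
def T (n : ℕ) : Set (Ideal (𝓞 L)) := {I | Ideal.absNorm I = n}

lemma T_finite (n : ℕ) : (T L n).Finite := Ideal.finite_setOfPred_absNorm_eq n

lemma T_card {n : ℕ} (hn : 1 ≤ n) : (T L n).ncard ≤ (n ^ finrank ℚ L) ^ finrank ℚ L := by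
  classical
  set b := RingOfIntegers.basis L with hb
  set Q : Ideal (𝓞 L) := Ideal.span {(n : 𝓞 L)} with hQ
  have hcard : Nat.card (𝓞 L ⧸ Q) = n ^ finrank ℚ L := by
    have h1 := Ideal.absNorm_span_natCast (S := 𝓞 L) n
    rw [Ideal.absNorm_apply, Submodule.cardQuot_apply, RingOfIntegers.rank] at h1
    exact h1
  have hfin : Finite (𝓞 L ⧸ Q) := by
    apply Nat.finite_of_card_ne_zero
    rw [hcard]
    positivity
  have hne : ∀ I : T L n, (I : Ideal (𝓞 L)) ≠ ⊥ := by
    intro I h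
    have h1 : Ideal.absNorm (I : Ideal (𝓞 L)) = n := I.2
    rw [h, Ideal.absNorm_bot] at h1
    omega
  obtain ⟨β, -⟩ : ∃ _ : ∀ I : T L n, Basis (Free.ChooseBasisIndex ℤ (𝓞 L)) ℤ
      (I : Ideal (𝓞 L)), True := ⟨fun I => Ideal.selfBasis b (I : Ideal (𝓞 L)) (hne I), trivial⟩
  set F : T L n → (Free.ChooseBasisIndex ℤ (𝓞 L) → 𝓞 L ⧸ Q) := fun I i =>
    Ideal.Quotient.mk Q ((β I i : (I : Ideal (𝓞 L))) : 𝓞 L)
    with hF
  have hmem : ∀ (I : T L n) (x : 𝓞 L), x ∈ (I : Ideal (𝓞 L)) ↔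
      ∃ c : Free.ChooseBasisIndex ℤ (𝓞 L) → ℤ, Ideal.Quotient.mk Q x = ∑ i, c i • F I i := by
    intro I x
    have hQI : Q ≤ (I : Ideal (𝓞 L)) := by
      have h1 : Ideal.absNorm (I : Ideal (𝓞 L)) = n := I.2
      have h2 := Ideal.span_singleton_absNorm_le (I : Ideal (𝓞 L))
      rwa [h1] at h2
    constructor
    · intro hx
      refine ⟨fun i => (β I).repr ⟨x, hx⟩ i, ?_⟩
      have h1 := (β I).sum_repr ⟨x, hx⟩
      have h2 := congrArg (fun y : (I : Ideal (𝓞 L)) => Ideal.Quotient.mk Q (y : 𝓞 L)) h1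
      simp only at h2
      refine h2.symm.trans ?_
      rw [AddSubmonoidClass.coe_finsetSum, map_sum]
      refine Finset.sum_congr rfl fun i _ => ?_
      rw [hF]
      simp
    · rintro ⟨c, hc⟩
      have h1 : Ideal.Quotient.mk Q (x - ∑ i, c i •
          ((β I i : (I : Ideal (𝓞 L))) : 𝓞 L)) = 0 := by
        rw [map_sub, hc, hF]
        simp
      have h2 := hQI (Ideal.Quotient.eq_zero_iff_mem.1 h1)
      have h3 : ∑ i, c i •
          ((β I i : (I : Ideal (𝓞 L))) : 𝓞 L) ∈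
          (I : Ideal (𝓞 L)) := by
        apply sum_mem
        intro i _
        exact zsmul_mem (Submodule.coe_mem _) _
      have h4 := add_mem h2 h3
      rwa [sub_add_cancel] at h4
  have hinj : Function.Injective F := by
    intro I J hIJ
    apply Subtype.ext
    ext x
    rw [hmem I x, hmem J x, hIJ]
  have h1 : Nat.card (T L n) ≤
      Nat.card (Free.ChooseBasisIndex ℤ (𝓞 L) → 𝓞 L ⧸ Q) := Nat.card_le_card_of_injective F hinj
  have h2 : Nat.card (Free.ChooseBasisIndex ℤ (𝓞 L)) = finrank ℚ L := by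
    rw [← RingOfIntegers.rank, finrank_eq_nat_card_basis b]
  rw [Nat.card_fun, hcard, h2] at h1
  exact h1

end IdealCountAux

open IdealCountAux in
theorem idealCount : IdealCount := by
  classical
  intro d
  refine ⟨d ^ 2 + 1, ?_⟩
  intro L _ _ hd R hR
  refine ⟨(Finset.Icc 1 R).biUnion fun n => (T_finite L n).toFinset, ?_, ?_⟩
  · refine Finset.card_biUnion_le.trans ?_
    have h1 : ∀ n ∈ Finset.Icc 1 R, (T_finite L n).toFinset.card ≤ R ^ (d ^ 2) := by
      intro n hn
      obtain ⟨hn1, hn2⟩ := Finset.mem_Icc.1 hn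
      rw [← Set.ncard_eq_toFinset_card (T L n) (T_finite L n)]
      refine (T_card L hn1).trans ?_
      rw [← pow_mul]
      calc n ^ (finrank ℚ L * finrank ℚ L) ≤ R ^ (finrank ℚ L * finrank ℚ L) :=
            Nat.pow_le_pow_left hn2 _
        _ ≤ R ^ (d ^ 2) := by
            apply Nat.pow_le_pow_right hR
            rw [sq]
            exact Nat.mul_le_mul hd hd
    refine (Finset.sum_le_card_nsmul _ _ _ h1).trans ?_
    rw [Nat.card_Icc, Nat.add_sub_cancel, smul_eq_mul]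
    exact le_of_eq (by ring)
  · intro I hI hIR
    rw [Finset.mem_biUnion]
    refine ⟨Ideal.absNorm I, ?_, ?_⟩
    · rw [Finset.mem_Icc]
      refine ⟨?_, hIR⟩
      have : Ideal.absNorm I ≠ 0 := fun h => hI (Ideal.absNorm_eq_zero_iff.1 h)
      omega
    · rw [Set.Finite.mem_toFinset]
      rfl

end Pool.Agent.Lib.MP_509488_nt.Sparse
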