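import Pool.Agent.Lib.MP_509488_nt.Sparse.StmtsB

/-!
# Sparse bases, second part: the units modulo `p`-th powers
-/

namespace Pool.Agent.Lib.MP_509488_nt.Sparse

open Finset NumberField Module NumberField.Units

lemma rank_succ_le (L : Type) [Field L] [NumberField L] : rank L + 1 ≤ finrank ℚ L := by
  have h1 := InfinitePlace.card_add_two_mul_card_eq_rank L
  have h2 := InfinitePlace.card_eq_nrRealPlaces_add_nrComplexPlaces L
  have h3 : 0 < Fintype.card (InfinitePlace L) := Fintype.card_pos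
  unfold rank
  omega

theorem unitLabel : UnitLabel := by
  intro L _ _ p hp
  have : NeZero p := ⟨hp.ne_zero⟩
  obtain ⟨g, hg⟩ := IsCyclic.exists_generator (α := torsion L)
  have hz : ∀ u : (𝓞 L)ˣ, ∃ k : ℤ, ∃ e : Fin (rank L) → ℤ,
      u = ((g ^ k : torsion L) : (𝓞 L)ˣ) * ∏ i, (fundSystem L i) ^ (e i) := by
    intro u
    obtain ⟨ζe, h, -⟩ := exist_unique_eq_mul_prod L u
    obtain ⟨k, hk⟩ := Subgroup.mem_zpowers_iff.1 (hg ζe.1)
    exact ⟨k, ζe.2, by rw [hk]; exact h⟩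
  choose k e hke using hz
  -- the label
  let F : (𝓞 L)ˣ → (Fin (rank L + 1) → ZMod p) := fun u =>
    Fin.cons ((k u : ℤ) : ZMod p) (fun i => ((e u i : ℤ) : ZMod p))
  have hcard : Fintype.card (Fin (rank L + 1) → ZMod p) ≤ p ^ finrank ℚ L := by
    rw [Fintype.card_fun, ZMod.card, Fintype.card_fin]
    exact Nat.pow_le_pow_right hp.pos (rank_succ_le L)
  obtain ⟨ι⟩ : Nonempty ((Fin (rank L + 1) → ZMod p) ↪ Fin (p ^ finrank ℚ L)) := by
    apply Function.Embedding.nonempty_of_card_le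
    rwa [Fintype.card_fin]
  refine ⟨fun u => ι (F u), fun u v huv => ?_⟩
  have hF : F u = F v := ι.injective huv
  have h0 : ((k u : ℤ) : ZMod p) = ((k v : ℤ) : ZMod p) := by
    have := congrFun hF 0
    simpa [F] using this
  have h1 : ∀ i, ((e u i : ℤ) : ZMod p) = ((e v i : ℤ) : ZMod p) := by
    intro i
    have := congrFun hF i.succ
    simpa [F] using this
  have d0 : ∃ a : ℤ, k u = k v + a * p := by
    obtain ⟨a, ha⟩ := (ZMod.intCast_eq_intCast_iff_dvd_sub _ _ _).1 h0.symm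
    exact ⟨a, by linarith⟩
  have d1 : ∀ i, ∃ b : ℤ, e u i = e v i + b * p := by
    intro i
    obtain ⟨a, ha⟩ := (ZMod.intCast_eq_intCast_iff_dvd_sub _ _ _).1 (h1 i).symm
    exact ⟨a, by linarith⟩
  obtain ⟨a, ha⟩ := d0
  choose b hb using d1
  refine ⟨((g ^ a : torsion L) : (𝓞 L)ˣ) * ∏ i, (fundSystem L i) ^ (b i), ?_⟩
  rw [hke u, hke v, mul_pow, ← Finset.prod_pow, ha]
  have e1 : ((g ^ (k v + a * p) : torsion L) : (𝓞 L)ˣ) =
      ((g ^ (k v) : torsion L) : (𝓞 L)ˣ) * ((g ^ a : torsion L) : (𝓞 L)ˣ) ^ p := by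
    rw [zpow_add, zpow_mul, zpow_natCast]
    rfl
  have e2 : ∏ i, (fundSystem L i) ^ (e u i) =
      (∏ i, (fundSystem L i) ^ (e v i)) * ∏ i, ((fundSystem L i) ^ (b i)) ^ p := by
    rw [← Finset.prod_mul_distrib]
    refine Finset.prod_congr rfl fun i _ => ?_
    rw [hb i, zpow_add, zpow_mul, zpow_natCast]
  rw [e1, e2]
  exact mul_mul_mul_comm _ _ _ _

end Pool.Agent.Lib.MP_509488_nt.Sparse
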