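import Pool.Agent.Lib.MP_509488_nt.Sparse.StmtsB

/-!
# B4: the factors of a `p`-th power, almost coprime, are almost `p`-th powers
-/

namespace Pool.Agent.Lib.MP_509488_nt.Sparse

open Finset NumberField Module UniqueFactorizationMonoid

section FacPow

variable {R : Type*} [CommRing R] [IsDedekindDomain R]

theorem facPow_aux_dvd (I J X M : Ideal R) (p : ℕ) (hI : I ≠ ⊥) (hJ : J ≠ ⊥) (hM : M ≠ ⊥)
    (hIJ : I * J = X ^ p) (hle : M ≤ I ⊔ J)
    (hno : ∀ P : Ideal R, Prime P → ¬ P ^ p ∣ I) : I ∣ M ^ p := by
  classical
  have hMp : M ^ p ≠ (0 : Ideal R) := pow_ne_zero _ hM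
  rw [dvd_iff_normalizedFactors_le_normalizedFactors hI hMp, normalizedFactors_pow,
    Multiset.le_iff_count]
  intro P
  rw [Multiset.count_nsmul]
  by_cases h0 : P ∈ normalizedFactors I
  · have hPp : Prime P := prime_of_normalized_factor P h0
    have hPI : P ∣ I := dvd_of_mem_normalizedFactors h0
    have hlt : Multiset.count P (normalizedFactors I) < p := by
      by_contra hge
      push Not at hge
      apply hno P hPp
      rw [dvd_iff_normalizedFactors_le_normalizedFactors (pow_ne_zero _ hPp.ne_zero) hI,
        normalizedFactors_pow, normalizedFactors_irreducible hPp.irreducible, normalize_eq,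
        Multiset.nsmul_singleton]
      exact Multiset.le_count_iff_replicate_le.mp hge
    have hpos : 0 < Multiset.count P (normalizedFactors I) := Multiset.count_pos.mpr h0
    have hcount : Multiset.count P (normalizedFactors I) +
        Multiset.count P (normalizedFactors J) = p * Multiset.count P (normalizedFactors X) := by
      have h1 := congrArg (fun Y => Multiset.count P (normalizedFactors Y)) hIJ
      simp only [normalizedFactors_mul hI hJ, normalizedFactors_pow, Multiset.count_add,
        Multiset.count_nsmul] at h1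
      exact h1
    have hJpos : 0 < Multiset.count P (normalizedFactors J) := by
      by_contra hz
      have hz' : Multiset.count P (normalizedFactors J) = 0 := by omega
      rw [hz', add_zero] at hcount
      rcases Nat.eq_zero_or_pos (Multiset.count P (normalizedFactors X)) with h | h
      · rw [h] at hcount; omega
      · have : p * 1 ≤ p * Multiset.count P (normalizedFactors X) := Nat.mul_le_mul_left _ h
        omega
    have hPJ : P ∣ J := dvd_of_mem_normalizedFactors (Multiset.count_pos.mp hJpos)
    have hPM : P ∣ M := by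
      rw [Ideal.dvd_iff_le] at hPI hPJ ⊢
      exact hle.trans (sup_le hPI hPJ)
    have hmem : P ∈ normalizedFactors M := by
      rw [mem_normalizedFactors_iff' hM]
      exact ⟨hPp.irreducible, normalize_eq P, hPM⟩
    have h2 : 0 < Multiset.count P (normalizedFactors M) := Multiset.count_pos.mpr hmem
    have : p * 1 ≤ p * Multiset.count P (normalizedFactors M) := Nat.mul_le_mul_left _ h2
    omega
  · rw [Multiset.count_eq_zero_of_notMem h0]
    exact Nat.zero_le _

theorem facPow_aux (n : ℕ) : ∀ (I J X M : Ideal R) (p : ℕ), 1 ≤ p → I ≠ ⊥ → J ≠ ⊥ → M ≠ ⊥ →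
    X ≠ ⊥ → I * J = X ^ p → M ≤ I ⊔ J → (normalizedFactors I).card ≤ n →
    ∃ B A : Ideal R, I = B * A ^ p ∧ B ∣ M ^ p := by
  induction n with
  | zero =>
    intro I J X M p hp hI hJ hM hX hIJ hle hn
    have h0 : normalizedFactors I = 0 := by
      rw [← Multiset.card_eq_zero]; omega
    have hone : I ∣ M ^ p := by
      classical
      rw [dvd_iff_normalizedFactors_le_normalizedFactors hI (pow_ne_zero _ hM), h0]
      exact Multiset.zero_le _
    exact ⟨I, 1, by rw [one_pow, mul_one], hone⟩
  | succ n ih =>
    intro I J X M p hp hI hJ hM hX hIJ hle hn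
    by_cases hex : ∃ P : Ideal R, Prime P ∧ P ^ p ∣ I
    · obtain ⟨P, hP, I', rfl⟩ := hex
      have hPX : P ∣ X := by
        have h1 : P ^ p ∣ X ^ p := by
          rw [← hIJ, mul_assoc]; exact dvd_mul_right _ _
        exact hP.dvd_of_dvd_pow ((dvd_pow_self P (by omega)).trans h1)
      obtain ⟨X', rfl⟩ := hPX
      have hI' : I' ≠ ⊥ := by
        rintro rfl
        exact hI (by simp)
      have hX' : X' ≠ ⊥ := by
        rintro rfl
        exact hX (by simp)
      have hPp : P ^ p ≠ (0 : Ideal R) := pow_ne_zero _ hP.ne_zero
      have hIJ' : I' * J = X' ^ p := by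
        apply mul_left_cancel₀ hPp
        rw [← mul_assoc, hIJ, mul_pow]
      have hle' : M ≤ I' ⊔ J := by
        refine hle.trans (sup_le_sup_right ?_ J)
        exact Ideal.mul_le_right
      have hcard : (normalizedFactors I').card ≤ n := by
        have h2 : normalizedFactors (P ^ p * I') =
            normalizedFactors (P ^ p) + normalizedFactors I' := normalizedFactors_mul hPp hI'
        rw [h2, normalizedFactors_pow, normalizedFactors_irreducible hP.irreducible] at hn
        simp at hn
        omega
      obtain ⟨B, A, hBA, hB⟩ := ih I' J X' M p hp hI' hJ hM hX' hIJ' hle' hcard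
      refine ⟨B, P * A, ?_, hB⟩
      rw [hBA, mul_pow]
      ring
    · push Not at hex
      exact ⟨I, 1, by rw [one_pow, mul_one], facPow_aux_dvd I J X M p hI hJ hM hIJ hle hex⟩

end FacPow

theorem facPow : FacPow := by
  intro L _ _ I J X M p hp hI hJ hM hIJ hle
  have hX : X ≠ ⊥ := by
    rintro rfl
    rw [← Ideal.zero_eq_bot, zero_pow (by omega)] at hIJ
    rcases mul_eq_zero.mp hIJ with h | h
    · exact hI h
    · exact hJ h
  exact facPow_aux _ I J X M p hp hI hJ hM hX hIJ hle le_rfl

end Pool.Agent.Lib.MP_509488_nt.Sparse
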