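import Pool.Agent.Lib.MP_509488_nt.Sparse.StmtsB

/-!
# Sparse bases, second part: classes of almost `p`-th powers modulo `p`-th powers
-/

namespace Pool.Agent.Lib.MP_509488_nt.Sparse

open Finset NumberField Module
open scoped nonZeroDivisors

/-- The Minkowski bound, crudely. -/
lemma class_ideal {d : ℕ} (L : Type) [Field L] [NumberField L] (hd : finrank ℚ L ≤ d)
    (C : ClassGroup (𝓞 L)) : ∃ I : (Ideal (𝓞 L))⁰, ClassGroup.mk0 I = C ∧
      Ideal.absNorm (I : Ideal (𝓞 L)) ≤ 2 ^ d * d.factorial * (discr L).natAbs := by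
  obtain ⟨I, h1, h2⟩ := exists_ideal_in_class_of_norm_le C
  refine ⟨I, h1, ?_⟩
  have hn : 0 < finrank ℚ L := finrank_pos
  have hD : 1 ≤ (discr L).natAbs := Nat.one_le_iff_ne_zero.2 (Int.natAbs_ne_zero.2 (discr_ne_zero L))
  have hD' : (1 : ℝ) ≤ ((discr L).natAbs : ℝ) := by exact_mod_cast hD
  have e : (((|discr L| : ℤ)) : ℝ) = ((discr L).natAbs : ℝ) := by
    rw [Int.abs_eq_natAbs]; simp
  have h3 : (4 / Real.pi) ^ (InfinitePlace.nrComplexPlaces L) ≤ (2 : ℝ) ^ d := by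
    have h4 : 4 / Real.pi ≤ 2 := by
      rw [div_le_iff₀ Real.pi_pos]
      have := Real.pi_gt_three
      linarith
    have h5 : InfinitePlace.nrComplexPlaces L ≤ d := by
      have := InfinitePlace.card_add_two_mul_card_eq_rank L
      omega
    calc (4 / Real.pi) ^ (InfinitePlace.nrComplexPlaces L) ≤
        2 ^ (InfinitePlace.nrComplexPlaces L) :=
          pow_le_pow_left₀ (by positivity) h4 _
      _ ≤ 2 ^ d := pow_le_pow_right₀ (by norm_num) h5
  have h6 : ((finrank ℚ L).factorial : ℝ) / (finrank ℚ L : ℝ) ^ (finrank ℚ L) ≤ d.factorial := by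
    have h7 : (1 : ℝ) ≤ (finrank ℚ L : ℝ) ^ (finrank ℚ L) := by
      apply one_le_pow₀
      exact_mod_cast hn
    calc ((finrank ℚ L).factorial : ℝ) / (finrank ℚ L : ℝ) ^ (finrank ℚ L) ≤
        (finrank ℚ L).factorial := div_le_self (by positivity) h7
      _ ≤ d.factorial := by exact_mod_cast Nat.factorial_le hd
  have h8 : Real.sqrt (((|discr L| : ℤ)) : ℝ) ≤ ((discr L).natAbs : ℝ) := by
    rw [e, Real.sqrt_le_left (by linarith)]
    nlinarith
  have h9 : (Ideal.absNorm (I : Ideal (𝓞 L)) : ℝ) ≤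
      (2 : ℝ) ^ d * (d.factorial * ((discr L).natAbs : ℝ)) := by
    refine h2.trans ?_
    gcongr
    simpa using h8
  have h10 : (Ideal.absNorm (I : Ideal (𝓞 L)) : ℝ) ≤
      ((2 ^ d * d.factorial * (discr L).natAbs : ℕ) : ℝ) := by
    push_cast
    rw [mul_assoc]
    exact h9
  exact_mod_cast h10

theorem classLabel (h2 : IdealCount) (h3 : UnitLabel) : ClassLabel := by
  classical
  intro d p m hp hm
  obtain ⟨c₀, hc₀⟩ := h2 d
  set K : ℕ := (m ^ d) ^ c₀ * (2 ^ d * d.factorial) ^ c₀ * p ^ d with hK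
  refine ⟨max c₀ K + 1, fun L _ _ hL => ?_⟩
  set D := (discr L).natAbs with hDdef
  have hD : 1 ≤ D := Nat.one_le_iff_ne_zero.2 (Int.natAbs_ne_zero.2 (discr_ne_zero L))
  obtain ⟨S₁, hS₁c, hS₁⟩ := hc₀ L hL (m ^ d) (Nat.one_le_pow _ _ hm)
  obtain ⟨S₂, hS₂c, hS₂⟩ := hc₀ L hL (2 ^ d * d.factorial * D)
    (Nat.one_le_iff_ne_zero.2 (by positivity))
  obtain ⟨g, hg⟩ := h3 L p hp
  have hp0 : p ≠ 0 := hp.ne_zero
  -- the data of an almost power
  have data : ∀ a : 𝓞 L, ∃ t : Ideal (𝓞 L) × Ideal (𝓞 L) × 𝓞 L,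
      AlmostPow p (Ideal.span {(m : 𝓞 L)}) a → t.1 ∈ S₁ ∧ t.2.1 ∈ S₂ ∧ t.2.2 ≠ 0 ∧ t.2.1 ≠ ⊥ ∧
        Ideal.span {a} * t.2.1 ^ p = t.1 * Ideal.span {t.2.2 ^ p} := by
    intro a
    by_cases ha : AlmostPow p (Ideal.span {(m : 𝓞 L)}) a
    · obtain ⟨ha0, B, A, hBA, hBm⟩ := ha
      have hspan : Ideal.span {a} ≠ ⊥ := by
        rw [Ne, Ideal.span_singleton_eq_bot]; exact ha0
      have hA : A ≠ ⊥ := by
        rintro rfl
        apply hspan
        rw [hBA, Ideal.bot_pow hp0, Ideal.mul_bot]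
      have hB : B ≠ ⊥ := by
        rintro rfl
        apply hspan
        rw [hBA, Ideal.bot_mul]
      obtain ⟨C, hC1, hC2⟩ := class_ideal L hL
        (ClassGroup.mk0 ⟨A, mem_nonZeroDivisors_of_ne_zero hA⟩)⁻¹
      obtain ⟨x, hx0, hx⟩ := ClassGroup.mk0_eq_mk0_inv_iff.1 hC1
      have hC0 : (C : Ideal (𝓞 L)) ≠ ⊥ := nonZeroDivisors.coe_ne_zero C
      refine ⟨(B, C, x), fun _ => ⟨?_, hS₂ _ hC0 hC2, hx0, hC0, ?_⟩⟩
      · apply hS₁ _ hB
        have h5 : Ideal.absNorm B ∣ Ideal.absNorm (Ideal.span {(m : 𝓞 L)}) :=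
          Ideal.absNorm_dvd_absNorm_of_le (Ideal.le_of_dvd hBm)
        rw [Ideal.absNorm_span_natCast, RingOfIntegers.rank] at h5
        exact (Nat.le_of_dvd (Nat.pos_of_ne_zero (pow_ne_zero _ (by omega))) h5).trans
          (Nat.pow_le_pow_right hm hL)
      · simp only at hx ⊢
        rw [hBA, ← Ideal.span_singleton_pow, ← hx, mul_pow]
        ring
    · exact ⟨(⊥, ⊥, 0), fun h => absurd h ha⟩
  choose t ht using data
  -- references
  have refs : ∀ s : Ideal (𝓞 L) × Ideal (𝓞 L), ∃ r : 𝓞 L, ∀ a : 𝓞 L,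
      AlmostPow p (Ideal.span {(m : 𝓞 L)}) a → ((t a).1, (t a).2.1) = s →
      AlmostPow p (Ideal.span {(m : 𝓞 L)}) r ∧ ((t r).1, (t r).2.1) = s := by
    intro s
    by_cases h : ∃ r : 𝓞 L, AlmostPow p (Ideal.span {(m : 𝓞 L)}) r ∧ ((t r).1, (t r).2.1) = s
    · obtain ⟨r, hr⟩ := h
      exact ⟨r, fun _ _ _ => hr⟩
    · exact ⟨0, fun a ha hs => absurd ⟨a, ha, hs⟩ h⟩
  choose ref href using refs
  -- units
  have units : ∀ a : 𝓞 L, ∃ η : (𝓞 L)ˣ, AlmostPow p (Ideal.span {(m : 𝓞 L)}) a →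
      a * (t (ref ((t a).1, (t a).2.1))).2.2 ^ p =
        (η : 𝓞 L) * (ref ((t a).1, (t a).2.1) * (t a).2.2 ^ p) := by
    intro a
    by_cases ha : AlmostPow p (Ideal.span {(m : 𝓞 L)}) a
    · obtain ⟨hr, hs⟩ := href ((t a).1, (t a).2.1) a ha rfl
      set r := ref ((t a).1, (t a).2.1) with hrdef
      obtain ⟨-, -, -, hC0, e1⟩ := ht a ha
      obtain ⟨-, -, -, -, e2⟩ := ht r hr
      have s1 : (t r).1 = (t a).1 := (Prod.mk.inj hs).1
      have s2 : (t r).2.1 = (t a).2.1 := (Prod.mk.inj hs).2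
      rw [s1, s2] at e2
      have hCp : (t a).2.1 ^ p ≠ 0 := pow_ne_zero _ hC0
      have key : Ideal.span {a * (t r).2.2 ^ p} = Ideal.span {r * (t a).2.2 ^ p} := by
        apply mul_right_cancel₀ hCp
        rw [← Ideal.span_singleton_mul_span_singleton, ← Ideal.span_singleton_mul_span_singleton]
        calc Ideal.span {a} * Ideal.span {(t r).2.2 ^ p} * (t a).2.1 ^ p
            = (Ideal.span {a} * (t a).2.1 ^ p) * Ideal.span {(t r).2.2 ^ p} := by ring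
          _ = (t a).1 * Ideal.span {(t a).2.2 ^ p} * Ideal.span {(t r).2.2 ^ p} := by rw [e1]
          _ = ((t a).1 * Ideal.span {(t r).2.2 ^ p}) * Ideal.span {(t a).2.2 ^ p} := by ring
          _ = (Ideal.span {r} * (t a).2.1 ^ p) * Ideal.span {(t a).2.2 ^ p} := by rw [e2]
          _ = _ := by ring
      obtain ⟨u, hu⟩ := (Ideal.span_singleton_eq_span_singleton.1 key).symm
      exact ⟨u, fun _ => by rw [← hu]; ring⟩
    · exact ⟨1, fun h => absurd h ha⟩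
  choose η hη using units
  -- the label
  set T : Finset (Ideal (𝓞 L) × Ideal (𝓞 L) × Fin (p ^ finrank ℚ L)) :=
    S₁ ×ˢ (S₂ ×ˢ univ) with hT
  have hTc : T.card ≤ (max c₀ K + 1) * D ^ (max c₀ K + 1) := by
    rw [hT, card_product, card_product, card_univ, Fintype.card_fin]
    calc S₁.card * (S₂.card * p ^ finrank ℚ L)
        ≤ (m ^ d) ^ c₀ * ((2 ^ d * d.factorial * D) ^ c₀ * p ^ d) := by
          gcongr
          exact hp.one_le
      _ = K * D ^ c₀ := by rw [hK, mul_pow]; ring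
      _ ≤ (max c₀ K + 1) * D ^ (max c₀ K + 1) := by
          gcongr
          · exact (le_max_right _ _).trans (Nat.le_succ _)
          · exact (le_max_left _ _).trans (Nat.le_succ _)
  have hpos : 0 < (max c₀ K + 1) * D ^ (max c₀ K + 1) := by positivity
  let lab : 𝓞 L → Ideal (𝓞 L) × Ideal (𝓞 L) × Fin (p ^ finrank ℚ L) := fun a =>
    ((t a).1, (t a).2.1, g (η a))
  have hmem : ∀ a : 𝓞 L, AlmostPow p (Ideal.span {(m : 𝓞 L)}) a → lab a ∈ T := by
    intro a ha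
    obtain ⟨m1, m2, -⟩ := ht a ha
    rw [hT, mem_product, mem_product]
    exact ⟨m1, m2, mem_univ _⟩
  refine ⟨fun a => if h : AlmostPow p (Ideal.span {(m : 𝓞 L)}) a then
    Fin.castLE hTc (T.equivFin ⟨lab a, hmem a h⟩) else ⟨0, hpos⟩, ?_⟩
  intro a b ha hb hab
  simp only [dif_pos ha, dif_pos hb] at hab
  have h5 := Fin.castLE_injective hTc hab
  have h6 := Subtype.ext_iff.1 (T.equivFin.injective h5)
  simp only [lab, Prod.mk.injEq] at h6
  obtain ⟨q1, q2, q3⟩ := h6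
  obtain ⟨w, hw⟩ := hg _ _ q3
  have e1 := hη a ha
  have e2 := hη b hb
  obtain ⟨hr, -⟩ := href ((t a).1, (t a).2.1) a ha rfl
  rw [← q1, ← q2] at e2
  set r := ref ((t a).1, (t a).2.1) with hrdef
  obtain ⟨-, -, hα, -, -⟩ := ht a ha
  obtain ⟨-, -, hβ, -, -⟩ := ht b hb
  obtain ⟨-, -, hρ, -, -⟩ := ht r hr
  set α := (t a).2.2
  set β := (t b).2.2
  set ρ := (t r).2.2
  rw [hw] at e1
  have hb0 : b ≠ 0 := hb.1
  have e3 : a * β ^ p = b * (w * α) ^ p := by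
    have : (a * β ^ p) * ρ ^ p = (b * ((w : 𝓞 L) * α) ^ p) * ρ ^ p := by
      calc (a * β ^ p) * ρ ^ p = (a * ρ ^ p) * β ^ p := by ring
        _ = (((η b * w ^ p : (𝓞 L)ˣ) : 𝓞 L) * (r * α ^ p)) * β ^ p := by rw [e1]
        _ = (((η b : (𝓞 L)ˣ) : 𝓞 L) * (r * β ^ p)) * ((w : 𝓞 L) * α) ^ p := by
            push_cast; ring
        _ = (b * ρ ^ p) * ((w : 𝓞 L) * α) ^ p := by rw [← e2]
        _ = _ := by ring
    exact mul_right_cancel₀ (pow_ne_zero _ hρ) this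
  have e4 : (w * α * b) ^ p = β ^ p * (a * b ^ (p - 1)) := by
    have hbp : b ^ p = b * b ^ (p - 1) := by
      rw [← pow_succ']; congr 1; have := hp.one_le; omega
    calc ((w : 𝓞 L) * α * b) ^ p = (b * ((w : 𝓞 L) * α) ^ p) * b ^ (p - 1) := by
          rw [mul_pow, hbp]; ring
      _ = (a * β ^ p) * b ^ (p - 1) := by rw [e3]
      _ = _ := by ring
  have e5 : β ∣ w * α * b := by
    rw [← IsIntegrallyClosed.pow_dvd_pow_iff hp0, e4]
    exact dvd_mul_right _ _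
  obtain ⟨x, hx⟩ := e5
  refine ⟨x, ?_⟩
  rw [hx, mul_pow] at e4
  exact mul_left_cancel₀ (pow_ne_zero _ hβ) e4

end Pool.Agent.Lib.MP_509488_nt.Sparse
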