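import Pool.Agent.Lib.MP_509488_nt.Sparse.StmtsB

/-! B6: divisibility of the difference of two roots. -/

namespace Pool.Agent.Lib.MP_509488_nt.Sparse

open Finset NumberField Module

namespace B6

/-- The geometric sum modulo `m ∣ U - V`. -/
lemma geom {R : Type*} [CommRing R] {U V m : R} (h : m ∣ U - V) (p : ℕ) :
    m ∣ (∑ i ∈ range p, U ^ i * V ^ (p - 1 - i)) - p * V ^ (p - 1) := by
  have e : (∑ i ∈ range p, U ^ i * V ^ (p - 1 - i)) - p * V ^ (p - 1) =
      ∑ i ∈ range p, (U ^ i - V ^ i) * V ^ (p - 1 - i) := by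
    have h1 : (p : R) * V ^ (p - 1) = ∑ i ∈ range p, V ^ i * V ^ (p - 1 - i) := by
      rw [Finset.sum_congr rfl (g := fun _ => V ^ (p - 1))]
      · rw [Finset.sum_const, Finset.card_range, nsmul_eq_mul]
      · intro i hi
        rw [← pow_add]
        congr 1
        have := Finset.mem_range.mp hi
        omega
    rw [h1, ← Finset.sum_sub_distrib]
    exact Finset.sum_congr rfl fun i _ => by ring
  rw [e]
  refine Finset.dvd_sum fun i _ => Dvd.dvd.mul_right ?_ _
  exact h.trans (sub_dvd_pow_sub_pow U V i)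

lemma integral {L : Type} [Field L] [NumberField L] {p : ℕ} (hp : 0 < p) {U V A B g : 𝓞 L}
    (hg : g ≠ 0) (hU : U ^ p = A * g) (hV : V ^ p = B * g) :
    ∃ D : 𝓞 L, g * D = (U - V) ^ p := by
  let K := AlgebraicClosure L
  have hgL : (g : L) ≠ 0 := by
    intro h
    apply hg
    exact_mod_cast h
  have hgK : algebraMap L K (g : L) ≠ 0 := by
    intro h
    exact hgL ((map_eq_zero _).mp h)
  obtain ⟨w, hw⟩ := IsAlgClosed.exists_pow_nat_eq (algebraMap L K (g : L)) hp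
  have hw0 : w ≠ 0 := by
    intro h
    rw [h, zero_pow hp.ne'] at hw
    exact hgK hw.symm
  have key : ∀ X Y : 𝓞 L, X ^ p = Y * g → IsIntegral ℤ (algebraMap L K (X : L) / w) := by
    intro X Y hXY
    refine IsIntegral.of_pow hp ?_
    rw [div_pow, hw, ← map_pow]
    have e : (X : L) ^ p = (Y : L) * (g : L) := by exact_mod_cast congrArg (fun x : 𝓞 L => (x : L)) hXY
    rw [e, map_mul, mul_div_assoc, div_self hgK, mul_one]
    exact (RingOfIntegers.isIntegral_coe Y).map (algebraMap L K).toIntAlgHom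
  have h1 : IsIntegral ℤ (algebraMap L K (((U : L) - V) ^ p / g)) := by
    have h2 : algebraMap L K (((U : L) - V) ^ p / g) =
        (algebraMap L K (U : L) / w - algebraMap L K (V : L) / w) ^ p := by
      rw [← sub_div, div_pow, hw, map_div₀, map_pow, map_sub]
    rw [h2]
    exact ((key U A hU).sub (key V B hV)).pow p
  have h3 : IsIntegral ℤ (((U : L) - V) ^ p / g) := by
    obtain ⟨f, hf, hf'⟩ := h1
    refine ⟨f, hf, ?_⟩
    apply (algebraMap L K).injective
    rw [map_zero, ← hf', Polynomial.hom_eval₂]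
    congr 1
  refine ⟨⟨((U : L) - V) ^ p / g, h3⟩, ?_⟩
  apply RingOfIntegers.ext
  show (g : L) * (((U : L) - V) ^ p / g) = (((U - V) ^ p : 𝓞 L) : L)
  rw [mul_div_cancel₀ _ hgL]
  push_cast
  rfl

end B6

/-- B6: divisibility: the difference of two roots. -/
theorem gapDiv : GapDiv := by
  intro L _ _ p r q W θ a b A₁ A₂ B₁ B₂ α₁ α₂ β₁ β₂ hp hq hθ hab hAB ha hb hα₁ hα₂ hβ₁ hβ₂ hdα hdβ
    hdiv
  set U := α₁ * β₂ with hU
  set V := α₂ * β₁ with hV
  have hp0 : 0 < p := by omega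
  have hUp : U ^ p = A₁ * B₂ * (a * b) ^ (p - 1) := by
    rw [hU, mul_pow, hα₁, hβ₂]; ring
  have hVp : V ^ p = A₂ * B₁ * (a * b) ^ (p - 1) := by
    rw [hV, mul_pow, hα₂, hβ₁]; ring
  have hUV : (p : 𝓞 L) * (W : 𝓞 L) ∣ U - V := by
    have e : U - V = (α₁ - α₂) * β₂ + α₂ * -(β₁ - β₂) := by rw [hU, hV]; ring
    rw [e]
    exact dvd_add (hdα.mul_right _) ((dvd_neg.mpr hdβ).mul_left _)
  have hgeom := B6.geom hUV p
  obtain ⟨s, hs⟩ := hgeom
  set S := ∑ i ∈ range p, U ^ i * V ^ (p - 1 - i) with hS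
  have hSE : S = p * (V ^ (p - 1) + W * s) := by linear_combination hs
  have hVθ : IsCoprime V θ := by
    rw [← IsCoprime.pow_left_iff (m := p) hp0, hVp]
    exact IsCoprime.mul_left hAB (hab.pow_left)
  have hE : IsCoprime (V ^ (p - 1) + W * s) θ := by
    have e : (W : 𝓞 L) * s = θ * (θ ^ (q - 1) * s) := by
      rw [← hθ, ← mul_assoc, ← pow_succ', Nat.sub_add_cancel hq]
    rw [e]
    exact IsCoprime.add_mul_left_left (hVθ.pow_left) _
  have hmul : (U - V) * p * (V ^ (p - 1) + W * s) = (a * b) ^ (p - 1) * (A₁ * B₂ - A₂ * B₁) := by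
    have h1 := geom_sum₂_mul U V p
    rw [← hS, hSE] at h1
    rw [hUp, hVp] at h1
    linear_combination h1
  have hdvd : θ ^ r ∣ p * (U - V) := by
    have h1 : θ ^ r ∣ (p * (U - V)) * (V ^ (p - 1) + W * s) := by
      have : (p * (U - V)) * (V ^ (p - 1) + W * s) =
          (a * b) ^ (p - 1) * (A₁ * B₂ - A₂ * B₁) := by rw [← hmul]; ring
      rw [this]
      exact hdiv.mul_left _
    exact (hE.symm.pow_left).dvd_of_dvd_mul_right h1
  obtain ⟨D, hD⟩ := B6.integral hp0 (g := (a * b) ^ (p - 1)) (pow_ne_zero _ (mul_ne_zero ha hb))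
    hUp hVp
  refine ⟨D, hD, ?_⟩
  have h1 : (θ ^ r) ^ p ∣ (a * b) ^ (p - 1) * ((p : 𝓞 L) ^ p * D) := by
    have e : (a * b) ^ (p - 1) * ((p : 𝓞 L) ^ p * D) = (p * (U - V)) ^ p := by
      rw [mul_pow (p : 𝓞 L) (U - V) p, ← hD]; ring
    rw [e]
    exact pow_dvd_pow_of_dvd hdvd p
  exact IsCoprime.dvd_of_dvd_mul_left ((hab.symm.pow_left.pow_left).pow_right) h1

end Pool.Agent.Lib.MP_509488_nt.Sparse
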