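import Pool.Agent.Lib.MP_509488_nt.Sparse.StmtsB

/-! B7: the archimedean part of the gap inequality. -/

namespace Pool.Agent.Lib.MP_509488_nt.Sparse

open Finset Complex

namespace GapArchAux

lemma sum_norm {p : ℕ} (hp : 1 ≤ p) {R φ : ℝ} (hR : 0 ≤ R) (hφ : |φ| ≤ Real.pi / (2 * p)) :
    1 ≤ ‖∑ i ∈ range p, ((R : ℂ) * cexp (φ * I)) ^ i‖ := by
  refine le_trans ?_ (re_le_norm _)
  rw [re_sum]
  have h0 : ∀ i ∈ range p, 0 ≤ (((R : ℂ) * cexp (φ * I)) ^ i).re := by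
    intro i hi
    have e : ((R : ℂ) * cexp (φ * I)) ^ i = ((R ^ i : ℝ) : ℂ) * cexp ((i * φ : ℝ) * I) := by
      rw [mul_pow, ← Complex.exp_nat_mul]
      push_cast
      congr 2
      ring
    rw [e, re_ofReal_mul, exp_ofReal_mul_I_re]
    apply mul_nonneg (pow_nonneg hR _)
    have hp0 : (0 : ℝ) < p := by exact_mod_cast hp
    have h1 : |(i : ℝ) * φ| ≤ Real.pi / 2 := by
      rw [abs_mul, abs_of_nonneg (Nat.cast_nonneg i)]
      have hi' : (i : ℝ) ≤ p := by exact_mod_cast (mem_range.mp hi).le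
      calc (i : ℝ) * |φ| ≤ p * (Real.pi / (2 * p)) := by gcongr
        _ = Real.pi / 2 := by field_simp
    exact Real.cos_nonneg_of_mem_Icc ⟨by linarith [(abs_le.mp h1).1], (abs_le.mp h1).2⟩
  have h1 : (((R : ℂ) * cexp (φ * I)) ^ 0).re = 1 := by simp
  calc (1 : ℝ) = (((R : ℂ) * cexp (φ * I)) ^ 0).re := h1.symm
    _ ≤ _ := single_le_sum h0 (mem_range.mpr hp)

end GapArchAux

open GapArchAux in
theorem gapArch : GapArch := by
  intro p u₁ u₂ v₁ v₂ hp hu₁ hu₂ hv₁ hv₂ h1 h2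
  set V : ℂ := v₁ * u₂ with hV
  have hV0 : V ≠ 0 := mul_ne_zero hv₁ hu₂
  set R : ℝ := ‖u₁‖ * ‖v₂‖ / (‖v₁‖ * ‖u₂‖) with hR
  set φ : ℝ := (u₁.arg - v₁.arg) - (u₂.arg - v₂.arg) with hφ
  set ρ : ℂ := (R : ℂ) * cexp (φ * I) with hρ
  have hnv : (‖v₁‖ : ℂ) ≠ 0 := by exact_mod_cast (norm_pos_iff.mpr hv₁).ne'
  have hnu : (‖u₂‖ : ℂ) ≠ 0 := by exact_mod_cast (norm_pos_iff.mpr hu₂).ne'
  have hU : u₁ * v₂ = ρ * V := by
    have e1 := norm_mul_exp_arg_mul_I u₁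
    have e2 := norm_mul_exp_arg_mul_I u₂
    have e3 := norm_mul_exp_arg_mul_I v₁
    have e4 := norm_mul_exp_arg_mul_I v₂
    have e5 : cexp (φ * I) * (cexp (v₁.arg * I) * cexp (u₂.arg * I)) =
        cexp (u₁.arg * I) * cexp (v₂.arg * I) := by
      rw [← Complex.exp_add, ← Complex.exp_add, ← Complex.exp_add]
      congr 1
      rw [hφ]
      push_cast
      ring
    calc u₁ * v₂ = (‖u₁‖ * cexp (u₁.arg * I)) * (‖v₂‖ * cexp (v₂.arg * I)) := by rw [e1, e4]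
      _ = (‖u₁‖ * ‖v₂‖) * (cexp (u₁.arg * I) * cexp (v₂.arg * I)) := by ring
      _ = (‖u₁‖ * ‖v₂‖) * (cexp (φ * I) * (cexp (v₁.arg * I) * cexp (u₂.arg * I))) := by rw [e5]
      _ = ρ * ((‖v₁‖ * cexp (v₁.arg * I)) * (‖u₂‖ * cexp (u₂.arg * I))) := by
          rw [hρ, hR]
          push_cast
          field_simp
      _ = ρ * V := by rw [e2, e3]
  have hp0 : (0 : ℝ) < p := by exact_mod_cast hp
  have hφ2 : |φ| ≤ Real.pi / (2 * p) := by
    have h3 := abs_sub (u₁.arg - v₁.arg) (u₂.arg - v₂.arg)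
    have h4 : Real.pi / (2 * p) = Real.pi / (4 * p) + Real.pi / (4 * p) := by
      field_simp
      ring
    rw [h4]
    exact h3.trans (by linarith)
  have hS := sum_norm hp (R := R) (φ := φ) (by positivity) hφ2
  rw [← hρ] at hS
  have e : (ρ * V) ^ p - V ^ p = (∑ i ∈ range p, ρ ^ i) * ((ρ * V - V) * V ^ (p - 1)) := by
    have h5 := geom_sum_mul ρ p
    have h6 : V ^ p = V * V ^ (p - 1) := by
      rw [← pow_succ']
      congr 1
      omega
    rw [mul_pow]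
    linear_combination -V ^ p * h5 + (∑ i ∈ range p, ρ ^ i) * (ρ - 1) * h6
  rw [hU, e, norm_mul (∑ i ∈ range p, ρ ^ i), norm_mul (ρ * V - V), norm_pow]
  exact le_mul_of_one_le_left (by positivity) hS

end Pool.Agent.Lib.MP_509488_nt.Sparse
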