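import Pool.Agent.Lib.MP_509488_nt.Sparse.StmtsB

/-!
# B8: the gap inequality for one pair of factors
-/

namespace Pool.Agent.Lib.MP_509488_nt.Sparse

open Finset NumberField Module

namespace B8

variable {L : Type} [Field L] [NumberField L]

/-- the absolute norm of an algebraic integer -/
noncomputable def nn (x : 𝓞 L) : ℕ := (Algebra.norm ℤ x).natAbs

omit [NumberField L] in
theorem nn_mul (x y : 𝓞 L) : nn (x * y) = nn x * nn y := by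
  rw [nn, map_mul, Int.natAbs_mul, nn, nn]

omit [NumberField L] in
theorem nn_pow (x : 𝓞 L) (n : ℕ) : nn (x ^ n) = nn x ^ n := by
  rw [nn, map_pow, Int.natAbs_pow, nn]

theorem nn_pos {x : 𝓞 L} (hx : x ≠ 0) : 1 ≤ nn x := by
  rw [nn, Nat.one_le_iff_ne_zero, Int.natAbs_ne_zero]
  exact Algebra.norm_ne_zero_iff.2 hx

theorem nn_eq_prod (x : 𝓞 L) : (nn x : ℝ) = ∏ σ : L →ₐ[ℚ] ℂ, ‖σ (x : L)‖ := by
  have h1 := Algebra.norm_eq_prod_embeddings ℚ ℂ (x : L)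
  have h2 := congrArg norm h1
  rw [norm_prod] at h2
  rw [← h2, ← Algebra.coe_norm_int, nn, Nat.cast_natAbs]
  simp

theorem nn_natCast (n : ℕ) : nn ((n : ℕ) : 𝓞 L) = n ^ finrank ℚ L := by
  have h : (nn ((n : ℕ) : 𝓞 L) : ℝ) = (n : ℝ) ^ finrank ℚ L := by
    rw [nn_eq_prod]
    simp only [map_natCast, Complex.norm_natCast, Finset.prod_const]
    rw [Finset.card_univ, AlgHom.card]
  exact_mod_cast h

theorem norm_root {q : ℕ} (hq : 1 ≤ q) {ω : 𝓞 L} (h : ω ^ q = 1) (σ : L →ₐ[ℚ] ℂ) :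
    ‖σ (ω : L)‖ = 1 := by
  have h1 : (ω : L) ^ q = 1 := by
    have := congrArg (algebraMap (𝓞 L) L) h
    simpa using this
  have h2 : ‖σ (ω : L)‖ ^ q = 1 := by
    rw [← norm_pow, ← map_pow, h1, map_one, norm_one]
  exact (pow_eq_one_iff_of_nonneg (norm_nonneg _) (by omega)).1 h2

end B8

open B8

theorem gapPair (h6 : GapDiv) (h7 : GapArch) : GapPair := by
  intro L _ _ p r q W Y Y' θ ω ω' a b α₁ α₂ β₁ β₂ hp hq hr hW hθ hY hY' hω hω' hne hYne hab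
    ha hb hA₁ hA₂ hB₁ hB₂ hα₁ hα₂ hβ₁ hβ₂ hdα hdβ hcα hcβ
  set A₁ : 𝓞 L := (Y : 𝓞 L) - ω * θ ^ r with hA₁d
  set A₂ : 𝓞 L := (Y' : 𝓞 L) - ω * θ ^ r with hA₂d
  set B₁ : 𝓞 L := (Y : 𝓞 L) - ω' * θ ^ r with hB₁d
  set B₂ : 𝓞 L := (Y' : 𝓞 L) - ω' * θ ^ r with hB₂d
  have hθ0 : θ ≠ 0 := by
    rintro rfl
    rw [zero_pow (by omega)] at hθ
    exact hW (by exact_mod_cast hθ.symm)
  -- coprimality
  have hcop : ∀ (Z : ℤ) (w : 𝓞 L), IsCoprime Z W → IsCoprime ((Z : 𝓞 L) - w * θ ^ r) θ := by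
    intro Z w hZ
    have h1 : IsCoprime (Z : 𝓞 L) (W : 𝓞 L) := hZ.map (Int.castRingHom (𝓞 L))
    rw [← hθ] at h1
    have h2 : IsCoprime (Z : 𝓞 L) θ := (IsCoprime.pow_right_iff (by omega)).1 h1
    have h3 : (Z : 𝓞 L) - w * θ ^ r = Z + θ * (-(w * θ ^ (r - 1))) := by
      obtain ⟨r', rfl⟩ : ∃ r', r = r' + 1 := ⟨r - 1, by omega⟩
      rw [Nat.add_sub_cancel]
      ring
    rw [h3]
    exact IsCoprime.add_mul_left_left h2 _
  have hAB : IsCoprime (A₂ * B₁) θ := (hcop Y' ω hY').mul_left (hcop Y ω' hY)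
  have hdet : A₁ * B₂ - A₂ * B₁ = θ ^ r * ((ω - ω') * ((Y : 𝓞 L) - Y')) := by
    rw [hA₁d, hA₂d, hB₁d, hB₂d]
    ring
  obtain ⟨D, hD, hDd⟩ := h6 L p r q W θ a b A₁ A₂ B₁ B₂ α₁ α₂ β₁ β₂ hp hq hθ hab hAB ha hb
    hα₁ hα₂ hβ₁ hβ₂ hdα hdβ ⟨_, hdet⟩
  have hUV : (α₁ * β₂) ^ p - (α₂ * β₁) ^ p = (a * b) ^ (p - 1) *
      (θ ^ r * ((ω - ω') * ((Y : 𝓞 L) - Y'))) := by
    rw [mul_pow, mul_pow, hα₁, hα₂, hβ₁, hβ₂, ← hdet, mul_pow]
    ring
  have hYne' : (Y : 𝓞 L) - Y' ≠ 0 := by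
    rw [sub_ne_zero]
    exact_mod_cast hYne
  have hRne : (a * b) ^ (p - 1) * (θ ^ r * ((ω - ω') * ((Y : 𝓞 L) - Y'))) ≠ 0 :=
    mul_ne_zero (pow_ne_zero _ (mul_ne_zero ha hb)) (mul_ne_zero (pow_ne_zero _ hθ0)
      (mul_ne_zero (sub_ne_zero.2 hne) hYne'))
  have hUVne : α₁ * β₂ - α₂ * β₁ ≠ 0 := by
    intro h0
    rw [sub_eq_zero] at h0
    rw [h0, sub_self] at hUV
    exact hRne hUV.symm
  have hD0 : D ≠ 0 := by
    rintro rfl
    rw [mul_zero] at hD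
    exact pow_ne_zero p hUVne hD.symm
  have hα₁0 : α₁ ≠ 0 := by
    rintro rfl
    rw [zero_pow (by omega)] at hα₁
    exact mul_ne_zero hA₁ (pow_ne_zero _ ha) hα₁.symm
  have hα₂0 : α₂ ≠ 0 := by
    rintro rfl
    rw [zero_pow (by omega)] at hα₂
    exact mul_ne_zero hA₂ (pow_ne_zero _ ha) hα₂.symm
  have hβ₁0 : β₁ ≠ 0 := by
    rintro rfl
    rw [zero_pow (by omega)] at hβ₁
    exact mul_ne_zero hB₁ (pow_ne_zero _ hb) hβ₁.symm
  have hβ₂0 : β₂ ≠ 0 := by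
    rintro rfl
    rw [zero_pow (by omega)] at hβ₂
    exact mul_ne_zero hB₂ (pow_ne_zero _ hb) hβ₂.symm
  -- the norm of `D` from below
  have hN1 : nn (θ ^ r) ^ p ≤ (p ^ finrank ℚ L) ^ p * nn D := by
    obtain ⟨E, hE⟩ := hDd
    have hE0 : E ≠ 0 := by
      rintro rfl
      rw [mul_zero] at hE
      exact mul_ne_zero (pow_ne_zero _ (by exact_mod_cast (by omega : p ≠ 0))) hD0 hE
    have h1 := congrArg nn hE
    rw [nn_mul, nn_mul, nn_pow (p : 𝓞 L), nn_natCast, nn_pow (θ ^ r)] at h1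
    rw [h1]
    exact Nat.le_mul_of_pos_right _ (nn_pos hE0)
  -- the archimedean part
  have hσ : ∀ σ : L →ₐ[ℚ] ℂ, ‖σ (D : L)‖ * ‖σ ((A₂ * B₁ : 𝓞 L) : L)‖ ^ (p - 1) ≤
      ‖σ ((θ ^ r : 𝓞 L) : L)‖ ^ p * (2 * ((Y - Y').natAbs : ℝ)) ^ p := by
    intro σ
    have hinj : ∀ x : 𝓞 L, x ≠ 0 → σ (x : L) ≠ 0 := by
      intro x hx h0
      rw [map_eq_zero] at h0
      exact hx (by exact_mod_cast h0)
    have hg := h7 p (σ (α₁ : L)) (σ (β₁ : L)) (σ (α₂ : L)) (σ (β₂ : L)) (by omega)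
      (hinj _ hα₁0) (hinj _ hβ₁0) (hinj _ hα₂0) (hinj _ hβ₂0) (hcα σ.toRingHom)
      (hcβ σ.toRingHom)
    set s : 𝓞 L →+* ℂ := (σ : L →+* ℂ).comp (algebraMap (𝓞 L) L) with hs
    have hsx : ∀ x : 𝓞 L, σ (x : L) = s x := fun x => rfl
    simp only [hsx] at hg ⊢
    have e1 : ‖s α₁ * s β₂ - s α₂ * s β₁‖ ^ p = ‖s (a * b)‖ ^ (p - 1) * ‖s D‖ := by
      rw [← norm_pow, ← norm_pow, ← norm_mul, ← map_mul, ← map_mul, ← map_sub, ← map_pow,
        ← map_pow, ← map_mul, hD]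
    have e2 : ‖s α₂ * s β₁‖ ^ p = ‖s (a * b)‖ ^ (p - 1) * ‖s (A₂ * B₁)‖ := by
      rw [← norm_pow, ← norm_pow, ← norm_mul, ← map_mul, ← map_pow, ← map_pow, ← map_mul,
        mul_pow, hα₂, hβ₁]
      congr 2
      ring
    have e3 : ‖(s α₁ * s β₂) ^ p - (s α₂ * s β₁) ^ p‖ ≤
        ‖s (a * b)‖ ^ (p - 1) * (‖s (θ ^ r)‖ * (2 * ((Y - Y').natAbs : ℝ))) := by
      rw [← map_mul, ← map_mul, ← map_pow, ← map_pow, ← map_sub, hUV, map_mul s ((a * b) ^ (p - 1)),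
        norm_mul, map_pow s (a * b), norm_pow, map_mul s (θ ^ r), norm_mul,
        map_mul s (ω - ω'), norm_mul]
      refine mul_le_mul_of_nonneg_left (mul_le_mul_of_nonneg_left ?_ (norm_nonneg _))
        (by positivity)
      have e4 : ‖s (ω - ω')‖ ≤ 2 := by
        rw [map_sub]
        refine (norm_sub_le _ _).trans ?_
        have e5 : ‖s ω‖ = 1 := norm_root hq hω σ
        have e6 : ‖s ω'‖ = 1 := norm_root hq hω' σ
        rw [e5, e6]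
        norm_num
      have e5 : ‖s ((Y : 𝓞 L) - Y')‖ = ((Y - Y').natAbs : ℝ) := by
        have : ((Y : 𝓞 L) - Y') = ((Y - Y' : ℤ) : 𝓞 L) := by push_cast; ring
        rw [this, map_intCast, Nat.cast_natAbs, Complex.norm_intCast]
        push_cast
        rfl
      rw [e5]
      exact mul_le_mul_of_nonneg_right e4 (Nat.cast_nonneg _)
    set u : ℝ := ‖s (a * b)‖ with hu
    have hu0 : 0 < u := norm_pos_iff.2 (hinj _ (mul_ne_zero ha hb))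
    have e4 := pow_le_pow_left₀ (by positivity) (hg.trans e3) p
    rw [mul_pow, e1, ← pow_mul, mul_comm (p - 1) p, pow_mul, e2, mul_pow, mul_pow, mul_pow,
      ← pow_mul, ← pow_mul] at e4
    have e5 : (p - 1) * (p - 1) + (p - 1) = (p - 1) * p := by
      obtain ⟨p', rfl⟩ : ∃ p', p = p' + 1 := ⟨p - 1, by omega⟩
      rw [Nat.add_sub_cancel]
      ring
    have e6 : u ^ ((p - 1) * p) * (‖s D‖ * ‖s (A₂ * B₁)‖ ^ (p - 1)) ≤
        u ^ ((p - 1) * p) * (‖s (θ ^ r)‖ ^ p * (2 * ((Y - Y').natAbs : ℝ)) ^ p) := by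
      refine le_trans (le_of_eq ?_) e4
      rw [← e5, pow_add]
      ring
    exact le_of_mul_le_mul_left e6 (pow_pos hu0 _)
  -- multiply over all embeddings
  have hN2 : nn D * nn (A₂ * B₁) ^ (p - 1) ≤
      nn (θ ^ r) ^ p * ((2 * (Y - Y').natAbs) ^ p) ^ finrank ℚ L := by
    have h1 := Finset.prod_le_prod (s := (Finset.univ : Finset (L →ₐ[ℚ] ℂ)))
      (fun σ _ => by positivity) (fun σ _ => hσ σ)
    rw [Finset.prod_mul_distrib, Finset.prod_mul_distrib, Finset.prod_pow, Finset.prod_pow,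
      ← nn_eq_prod, ← nn_eq_prod, ← nn_eq_prod, Finset.prod_const, Finset.card_univ,
      AlgHom.card] at h1
    exact_mod_cast h1
  have hN3 : nn D * nn (A₂ * B₁) ^ (p - 1) ≤
      nn D * (2 * p * (Y - Y').natAbs) ^ (p * finrank ℚ L) := by
    refine hN2.trans ((Nat.mul_le_mul_right _ hN1).trans (le_of_eq ?_))
    rw [← pow_mul, ← pow_mul, mul_comm (finrank ℚ L) p, mul_right_comm 2 p, mul_pow (2 * _) p]
    ring
  have hN4 := Nat.le_of_mul_le_mul_left hN3 (nn_pos hD0)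
  rw [nn_mul] at hN4
  exact hN4

end Pool.Agent.Lib.MP_509488_nt.Sparse
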