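import Pool.Agent.Lib.MP_509488_nt.Sparse.All
import Pool.Agent.Lib.MP_509488_nt.Sparse.B0
import Pool.Agent.Lib.MP_509488_nt.Sparse.B1
import Pool.Agent.Lib.MP_509488_nt.Sparse.B2
import Pool.Agent.Lib.MP_509488_nt.Sparse.B3
import Pool.Agent.Lib.MP_509488_nt.Sparse.B4
import Pool.Agent.Lib.MP_509488_nt.Sparse.B5
import Pool.Agent.Lib.MP_509488_nt.Sparse.B6
import Pool.Agent.Lib.MP_509488_nt.Sparse.B7
import Pool.Agent.Lib.MP_509488_nt.Sparse.B8
import Pool.Agent.Lib.MP_509488_nt.Sparse.B9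
import Pool.Agent.Lib.MP_509488_nt.Sparse.B10
import Pool.Agent.Lib.MP_509488_nt.Sparse.B11
import Pool.Agent.Lib.MP_509488_nt.Sparse.B12
import Pool.Agent.Lib.MP_509488_nt.Sparse.B13
import Pool.Agent.Lib.MP_509488_nt.Sparse.B14

/-!
# Sparse bases, part B: assembly
-/

namespace Pool.Agent.Lib.MP_509488_nt.Sparse

theorem allLabels : Labels :=
  labels (fieldEx discrBound) (classLabel idealCount unitLabel) (gapAll (gapPair gapDiv gapArch))
    (facAlmost facPow)

theorem allCoreB : CoreB := coreB (oneW allLabels)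

theorem allFinalB : FinalB := finalB allFinal allCoreB allExp

end Pool.Agent.Lib.MP_509488_nt.Sparse
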