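import Mathlib
import Pool.Agent.Lib.MP_509488_nt.Sparse.StmtsB

/-!
# Module B9: the gap inequality for two solutions in the same class
-/

namespace Pool.Agent.Lib.MP_509488_nt.Sparse

open Finset NumberField Module

namespace GapAllAux

/-- The product of the factors. -/
theorem prod_factors {R : Type} [CommRing R] [IsDomain R] {q r p : ℕ} (hq : 0 < q) {ζ θ : R}
    (hζ : IsPrimitiveRoot ζ q) {W Y X : ℤ} (hθ : θ ^ q = (W : R)) (h : Y ^ q - W ^ r = X ^ p) :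
    ∏ ω ∈ Polynomial.nthRootsFinset q (1 : R), ((Y : R) - ω * θ ^ r) = (X : R) ^ p := by
  rw [← hζ.pow_sub_pow_eq_prod_sub_mul (Y : R) (θ ^ r) hq]
  have e : (θ ^ r) ^ q = (W : R) ^ r := by
    rw [← pow_mul, mul_comm, pow_mul, hθ]
  rw [e]
  exact_mod_cast congrArg (fun t : ℤ => (t : R)) h

/-- Products over ordered pairs of distinct elements. -/
theorem prod_pairs {ι : Type} [DecidableEq ι] (s : Finset ι) (f g : ι → ℕ) :
    ∏ i ∈ s, ∏ j ∈ s.erase i, (f i * g j) =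
      (∏ i ∈ s, f i) ^ (s.card - 1) * (∏ i ∈ s, g i) ^ (s.card - 1) := by
  have h1 : ∏ i ∈ s, ∏ j ∈ s.erase i, (f i * g j) =
      (∏ i ∈ s, ∏ _j ∈ s.erase i, f i) * ∏ i ∈ s, ∏ j ∈ s.erase i, g j := by
    rw [← prod_mul_distrib]
    exact prod_congr rfl fun i _ => prod_mul_distrib
  have h2 : ∏ i ∈ s, ∏ _j ∈ s.erase i, f i = (∏ i ∈ s, f i) ^ (s.card - 1) := by
    rw [← prod_pow]
    refine prod_congr rfl fun i hi => ?_
    rw [prod_const, card_erase_of_mem hi]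
  have h3 : ∏ i ∈ s, ∏ j ∈ s.erase i, g j = (∏ i ∈ s, g i) ^ (s.card - 1) := by
    rw [prod_comm' (s' := fun j => s.erase j) (t' := s)]
    · rw [← prod_pow]
      refine prod_congr rfl fun i hi => ?_
      rw [prod_const, card_erase_of_mem hi]
    · intro x y
      simp only [mem_erase]
      tauto
  rw [h1, h2, h3]

end GapAllAux

open GapAllAux in
/-- B9: the gap inequality for two solutions in the same class. -/
theorem gapAll (h8 : GapPair) : GapAll := by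
  classical
  intro L _ _ p r q W Y Y' X X' ζ θ a α₁ α₂ hp hq hr hW hζ hθ hYW hYW' hYY hX hX' h h' H
  set μ := Polynomial.nthRootsFinset q (1 : 𝓞 L) with hμ
  have hqpos := hq.pos
  have hμmem : ∀ ω, ω ∈ μ ↔ ω ^ q = 1 := fun ω => Polynomial.mem_nthRootsFinset hqpos 1
  have hcard : μ.card = q := hζ.card_nthRootsFinset
  set d := finrank ℚ L with hd
  have hdpos : 0 < d := finrank_pos
  have hP := prod_factors hqpos hζ hθ h
  have hP' := prod_factors hqpos hζ hθ h'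
  rw [← hμ] at hP hP'
  -- nonzero factors
  have hXne : (X : 𝓞 L) ^ p ≠ 0 := pow_ne_zero _ (Int.cast_ne_zero.mpr hX)
  have hXne' : (X' : 𝓞 L) ^ p ≠ 0 := pow_ne_zero _ (Int.cast_ne_zero.mpr hX')
  have hne : ∀ ω ∈ μ, (Y : 𝓞 L) - ω * θ ^ r ≠ 0 := by
    rw [← hP] at hXne
    exact prod_ne_zero_iff.mp hXne
  have hne' : ∀ ω ∈ μ, (Y' : 𝓞 L) - ω * θ ^ r ≠ 0 := by
    rw [← hP'] at hXne'
    exact prod_ne_zero_iff.mp hXne'
  set n : 𝓞 L → ℕ := fun ω => (Algebra.norm ℤ ((Y : 𝓞 L) - ω * θ ^ r)).natAbs with hn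
  set n' : 𝓞 L → ℕ := fun ω => (Algebra.norm ℤ ((Y' : 𝓞 L) - ω * θ ^ r)).natAbs with hn'
  have hnorm : ∀ Z : ℤ, (Algebra.norm ℤ ((Z : 𝓞 L) ^ p)).natAbs = Z.natAbs ^ (p * d) := by
    intro Z
    have e : Algebra.norm ℤ (Z : 𝓞 L) = Z ^ finrank ℤ (𝓞 L) := Algebra.norm_algebraMap Z
    rw [map_pow, e, NumberField.RingOfIntegers.rank, ← pow_mul, Int.natAbs_pow, mul_comm]
  have hprod : ∏ ω ∈ μ, n ω = X.natAbs ^ (p * d) := by
    rw [← hnorm X, ← hP, map_prod]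
    exact (map_prod Int.natAbsHom _ _).symm
  have hprod' : ∏ ω ∈ μ, n' ω = X'.natAbs ^ (p * d) := by
    rw [← hnorm X', ← hP', map_prod]
    exact (map_prod Int.natAbsHom _ _).symm
  -- the inequality for each pair
  have hpair : ∀ ω ∈ μ, ∀ ω' ∈ μ.erase ω,
      (n' ω * n ω') ^ (p - 1) ≤ (2 * p * (Y - Y').natAbs) ^ (p * d) := by
    intro ω hω ω' hω'
    obtain ⟨hneω, hω'μ⟩ := mem_erase.mp hω'
    obtain ⟨u1, u2, u3, u4, u5, u6⟩ := H ω ((hμmem ω).mp hω)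
    obtain ⟨v1, v2, v3, v4, v5, v6⟩ := H ω' ((hμmem ω').mp hω'μ)
    exact h8 L p r q W Y Y' θ ω ω' (a ω) (a ω') (α₁ ω) (α₂ ω) (α₁ ω') (α₂ ω') hp hqpos hr hW hθ
      hYW hYW' ((hμmem ω).mp hω) ((hμmem ω').mp hω'μ) (Ne.symm hneω) hYY (u2.mul_left v2) u1 v1
      (hne ω hω) (hne' ω hω) (hne ω' hω'μ) (hne' ω' hω'μ) u3 u4 v3 v4 u5 v5 u6 v6
  -- multiply
  have hmul : (∏ ω ∈ μ, ∏ ω' ∈ μ.erase ω, (n' ω * n ω')) ^ (p - 1) ≤
      ((2 * p * (Y - Y').natAbs) ^ (p * d)) ^ ((q - 1) * q) := by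
    rw [← prod_pow]
    calc ∏ ω ∈ μ, (∏ ω' ∈ μ.erase ω, (n' ω * n ω')) ^ (p - 1)
        ≤ ∏ _ω ∈ μ, ((2 * p * (Y - Y').natAbs) ^ (p * d)) ^ (q - 1) := by
          refine prod_le_prod' fun ω hω => ?_
          rw [← prod_pow]
          refine (prod_le_prod' (hpair ω hω)).trans ?_
          rw [prod_const, card_erase_of_mem hω, hcard]
      _ = ((2 * p * (Y - Y').natAbs) ^ (p * d)) ^ ((q - 1) * q) := by
          rw [prod_const, hcard, ← pow_mul]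
  rw [prod_pairs, hprod, hprod', hcard] at hmul
  have hexp : p * d * (q - 1) ≠ 0 := by
    have h1 : 2 ≤ q := hq.two_le
    have h2 : 0 < p * d * (q - 1) := Nat.mul_pos (Nat.mul_pos (by omega) hdpos) (by omega)
    omega
  refine (Nat.pow_le_pow_iff_left hexp).mp ?_
  calc ((X.natAbs * X'.natAbs) ^ (p - 1)) ^ (p * d * (q - 1))
      = ((X'.natAbs ^ (p * d)) ^ (q - 1) * (X.natAbs ^ (p * d)) ^ (q - 1)) ^ (p - 1) := by
        rw [← mul_pow, ← mul_pow, ← pow_mul, ← pow_mul, ← pow_mul, mul_comm X'.natAbs]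
        congr 1
        ring
    _ ≤ ((2 * p * (Y - Y').natAbs) ^ (p * d)) ^ ((q - 1) * q) := hmul
    _ = ((2 * p * (Y - Y').natAbs) ^ q) ^ (p * d * (q - 1)) := by
        rw [← pow_mul, ← pow_mul]
        congr 1
        ring

end Pool.Agent.Lib.MP_509488_nt.Sparse
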