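import Pool.Agent.Lib.MP_509488_nt.Sparse.Core2

/-!
# Sparse bases: the number of solutions for given exponents
-/

namespace Pool.Agent.Lib.MP_509488_nt.Sparse

open MvPolynomial Finset

theorem third_unique (s : Fin 3 → ℤ) (e : Fin 3 → ℕ) (N : ℕ) (P R : Pt) (i j : Fin 3) (hs : Sgn s)
    (he : ∀ i, (e i).Prime) (hP : Sol s e N P) (hR : Sol s e N R) (hij : i ≠ j) (hi : P i = R i)
    (hj : P j = R j) : P = R := by
  funext k
  by_cases hki : k = i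
  · rw [hki, hi]
  by_cases hkj : k = j
  · rw [hkj, hj]
  have h3 : ∀ i j k m : Fin 3, i ≠ j → k ≠ i → k ≠ j → m ≠ k → m = i ∨ m = j := by decide
  have h1 : ∑ m, (s m * P m ^ e m - s m * R m ^ e m) = 0 := by
    rw [Finset.sum_sub_distrib, hP.2.2, hR.2.2, sub_zero]
  rw [Finset.sum_eq_single k (fun m _ hm => by
    rcases h3 i j k m hij hki hkj hm with h | h
    · rw [h, hi, sub_self]
    · rw [h, hj, sub_self]) (by simp)] at h1
  have h2 : s k ≠ 0 := by rcases hs k with h | h <;> rw [h] <;> decide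
  have h4 : P k ^ e k = R k ^ e k := by
    have h5 : s k * (P k ^ e k - R k ^ e k) = 0 := by rw [mul_sub]; exact h1
    rcases mul_eq_zero.mp h5 with h | h
    · exact absurd h h2
    · linarith
  have hPk := (hP.1 k).1
  have hRk := (hR.1 k).1
  exact pow_left_injective₀' (he k).ne_zero (by omega) (by omega) h4
where
  pow_left_injective₀' {a b : ℤ} {n : ℕ} (hn : n ≠ 0) (ha : 0 ≤ a) (hb : 0 ≤ b)
      (h : a ^ n = b ^ n) : a = b := (pow_left_inj₀ ha hb hn).mp h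

theorem small_card (s : Fin 3 → ℤ) (e : Fin 3 → ℕ) (N Q : ℕ) (T : Finset Pt) (i j : Fin 3)
    (hs : Sgn s) (he : ∀ i, (e i).Prime) (hT : ∀ P ∈ T, Sol s e N P) (hij : i ≠ j) :
    (T.filter (fun P => P i < (Q : ℤ) ∧ P j < (Q : ℤ))).card ≤ Q ^ 2 := by
  classical
  have h1 : (T.filter (fun P => P i < (Q : ℤ) ∧ P j < (Q : ℤ))).card ≤
      ((Finset.Ico (0 : ℤ) (Q : ℤ)) ×ˢ (Finset.Ico (0 : ℤ) (Q : ℤ))).card := by
    apply Finset.card_le_card_of_injOn (fun P : Pt => (P i, P j))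
    · intro P hP
      rw [Finset.mem_coe, Finset.mem_filter] at hP
      obtain ⟨hPT, h2, h3⟩ := hP
      have h4 := ((hT P hPT).1 i).1
      have h5 := ((hT P hPT).1 j).1
      simp only [Finset.coe_product, Set.mem_prod, Finset.mem_coe, Finset.mem_Ico]
      exact ⟨⟨by omega, h2⟩, ⟨by omega, h3⟩⟩
    · intro P hP R hR hPR
      rw [Finset.mem_coe, Finset.mem_filter] at hP hR
      simp only [Prod.mk.injEq] at hPR
      exact third_unique s e N P R i j hs he (hT P hP.1) (hT R hR.1) hij hPR.1 hPR.2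
  refine h1.trans ?_
  rw [Finset.card_product]
  simp [sq]

/-- Some partial derivative of `f` is not divisible by a large prime. -/
theorem exists_smooth (s : Fin 3 → ℤ) (e : Fin 3 → ℕ) (Q l : ℕ) (P : Pt) (hs : Sgn s)
    (he : ∀ i, 1 ≤ e i) (he' : ∀ i, e i ≤ Q) (hl : l.Prime) (hlQ : Q < l) (hc : Cop P) :
    ∃ t, ¬ (l : ℤ) ∣ eval P (pderiv t (fpoly s e)) := by
  have hlp : Prime (l : ℤ) := Nat.prime_iff_prime_int.mp hl
  obtain ⟨t, ht⟩ : ∃ t, ¬ (l : ℤ) ∣ P t := by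
    by_contra hcon
    push Not at hcon
    have h1 := (hc 0 1 (by decide)).isUnit_of_dvd' (hcon 0) (hcon 1)
    exact hlp.not_isUnit h1
  refine ⟨t, ?_⟩
  rw [eval_pderiv_fpoly]
  intro h
  rcases hlp.dvd_or_dvd h with h | h
  · rcases hlp.dvd_or_dvd h with h | h
    · rcases hs t with h' | h' <;> rw [h'] at h
      · exact hlp.not_isUnit (isUnit_of_dvd_one h)
      · exact hlp.not_isUnit (isUnit_of_dvd_unit h (by decide))
    · have h2 : l ∣ e t := by exact_mod_cast h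
      have := Nat.le_of_dvd (he t) h2
      have := he' t
      omega
  · exact ht (hlp.dvd_of_dvd_pow h)

theorem core (hS : StSurf) (hW : Weights) (hB : EulBdd) (hDg : Degen) (hPr : PrimeNot)
    (h2 : Core2) : Core := by
  classical
  intro h hh
  obtain ⟨Qp, hPr⟩ := hPr
  obtain ⟨D₁, hD₁⟩ : ∃ D₁ : ℕ, D₁ = 256 * h ^ 2 := ⟨_, rfl⟩
  obtain ⟨b₁, hb₁⟩ : ∃ b₁ : ℕ, b₁ = h * D₁ + 1 := ⟨_, rfl⟩
  obtain ⟨κ, hκ⟩ : ∃ κ : ℕ, κ = D₁ ^ 3 := ⟨_, rfl⟩
  obtain ⟨K₂, C₂, Q₂, h2⟩ := h2 h (2 * b₁ + 3 * κ) D₁ hh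
  have hh2 : 1 ≤ h ^ 2 := Nat.one_le_pow _ _ hh
  have hD₁1 : 1 ≤ D₁ := by omega
  refine ⟨K₂ + 2 * D₁, 1 + 3 * (D₁ + κ * C₂), Qp + Q₂ + 3 * D₁ + D₁ ^ 3 + 4, ?_⟩
  intro Q N hQ hN s e T hs he hne he' hNe hK hT
  have he1 : ∀ i, 1 ≤ e i := fun i => (he i).one_lt.le
  obtain ⟨i, j, hij, hKi, hKj⟩ := hK
  obtain ⟨f, hf⟩ : ∃ f, f = fpoly s e := ⟨_, rfl⟩
  -- small solutions
  have hsmall := small_card s e N Q T i j hs he hT hij
  obtain ⟨T₂, hT₂⟩ : ∃ T₂, T₂ = T.filter (fun P => ¬ (P i < (Q : ℤ) ∧ P j < (Q : ℤ))) := ⟨_, rfl⟩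
  have hT₂s : ∀ P ∈ T₂, Sol s e N P ∧ ∃ i, K₂ ≤ e i ∧ (Q : ℤ) ≤ P i := by
    intro P hP
    rw [hT₂, Finset.mem_filter] at hP
    refine ⟨hT P hP.1, ?_⟩
    by_cases h1 : P i < (Q : ℤ)
    · refine ⟨j, by omega, ?_⟩
      by_contra hcon
      exact hP.2 ⟨h1, by omega⟩
    · exact ⟨i, by omega, by omega⟩
  -- the prime
  have hQ1 : (1 : ℤ) < (Q : ℤ) ^ Q := by
    have h1 : (2 : ℤ) ≤ (Q : ℤ) := by exact_mod_cast (by omega : 2 ≤ Q)
    exact one_lt_pow₀ (by omega) (by omega)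
  obtain ⟨l, hl, hlQ, hlQ2, -⟩ := hPr Q (by omega) 1 one_ne_zero (by simpa using hQ1)
  have hst : ∀ (t : Fin 3) (c : Pt), ∃ G : Pol, ¬ (l : ℤ) ∣ eval c (pderiv t f) →
      (G ≠ 0 ∧ Bdd D₁ (l ^ b₁) G ∧
        ∀ P : Pt, Box N P → Cg l P c → eval P f = 0 → eval P G = 0) := by
    intro t c
    by_cases hl2 : ¬ (l : ℤ) ∣ eval c (pderiv t f)
    · have hNl : N ≤ l ^ h := by
        refine hN.le.trans (Nat.pow_le_pow_left ?_ h)
        omega
      have hb : (4 * b₁) ^ 3 ≤ b₁ * D₁ ^ 3 := by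
        have h1 : 64 * b₁ ^ 2 ≤ D₁ ^ 3 := by
          have h3 : b₁ ≤ 2 * h * D₁ := by
            rw [hb₁]
            have : 1 ≤ h * D₁ := Nat.mul_le_mul hh hD₁1
            calc h * D₁ + 1 ≤ h * D₁ + h * D₁ := by omega
              _ = 2 * h * D₁ := by ring
          calc 64 * b₁ ^ 2 ≤ 64 * (2 * h * D₁) ^ 2 :=
                Nat.mul_le_mul_left _ (Nat.pow_le_pow_left h3 2)
            _ = (256 * h ^ 2) * D₁ ^ 2 := by ring
            _ = D₁ * D₁ ^ 2 := by rw [← hD₁]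
            _ = D₁ ^ 3 := by ring
        calc (4 * b₁) ^ 3 = b₁ * (64 * b₁ ^ 2) := by ring
          _ ≤ b₁ * D₁ ^ 3 := Nat.mul_le_mul_left _ h1
      have hlt : D₁ ^ 3 * l ^ b₁ * N ^ (3 * D₁) < l ^ (4 * b₁) := by
        have h1 : D₁ ^ 3 < l := by omega
        have h2 : N ^ (3 * D₁) ≤ l ^ (3 * h * D₁) := by
          calc N ^ (3 * D₁) ≤ (l ^ h) ^ (3 * D₁) := Nat.pow_le_pow_left hNl _
            _ = l ^ (3 * h * D₁) := by rw [← pow_mul]; congr 1; ring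
        have h3 : 0 < l ^ b₁ := pow_pos hl.pos _
        have h4 : 0 < l ^ (3 * h * D₁) := pow_pos hl.pos _
        calc D₁ ^ 3 * l ^ b₁ * N ^ (3 * D₁) ≤ D₁ ^ 3 * l ^ b₁ * l ^ (3 * h * D₁) :=
              Nat.mul_le_mul_left _ h2
          _ < l * l ^ b₁ * l ^ (3 * h * D₁) :=
              Nat.mul_lt_mul_of_pos_right (Nat.mul_lt_mul_of_pos_right h1 h3) h4
          _ = l ^ (1 + b₁ + 3 * h * D₁) := by rw [pow_add, pow_add, pow_one]
          _ ≤ l ^ (4 * b₁) := by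
              apply Nat.pow_le_pow_right hl.pos
              rw [hb₁]
              nlinarith
      obtain ⟨G, h1, h3, h4⟩ := hS f c t l b₁ D₁ N hl hl2 (by omega) hb hlt
      exact ⟨G, fun _ => ⟨h1, h3, h4⟩⟩
    · exact ⟨1, fun h1 => absurd h1 hl2⟩
  choose Gf hGf using hst
  obtain ⟨ff, hff⟩ : ∃ ff : Fin 3 × Pt → Finset Pt, ff = fun x => T₂.filter (fun P =>
      ¬ (l : ℤ) ∣ eval x.2 (pderiv x.1 f) ∧ eval P (Gf x.1 x.2) = 0) := ⟨_, rfl⟩
  have hcov : T₂ ⊆ ((univ : Finset (Fin 3)) ×ˢ Cl (Q ^ 2)).biUnion ff := by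
    intro P hPT
    obtain ⟨⟨hbox, hcop, hsum⟩, -⟩ := hT₂s P hPT
    have hf0 : eval P f = 0 := by rw [hf, eval_fpoly]; exact hsum
    obtain ⟨t, ht⟩ := exists_smooth s e Q l P hs he1 he' hl hlQ hcop
    rw [← hf] at ht
    obtain ⟨c, hc⟩ : ∃ c : Pt, c = fun i => P i % l := ⟨_, rfl⟩
    have hcg : Cg l P c := by rw [hc]; exact cg_mod l P
    have hlc : ¬ (l : ℤ) ∣ eval c (pderiv t f) := by
      intro hcon
      apply ht
      have := dvd_add (cg_eval (pderiv t f) hcg) hcon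
      simpa using this
    rw [Finset.mem_biUnion]
    refine ⟨(t, c), ?_, ?_⟩
    · simp only [Finset.mem_product, Finset.mem_univ, true_and]
      rw [hc]
      exact mem_Cl hl.one_lt.le hlQ2 P
    · rw [hff]
      simp only [Finset.mem_filter]
      exact ⟨hPT, hlc, (hGf t c hlc).2.2 P hbox hcg hf0⟩
  have hcard : ∀ x ∈ (univ : Finset (Fin 3)) ×ˢ Cl (Q ^ 2), (ff x).card ≤
      D₁ + κ * (C₂ * Q ^ 16) := by
    rintro ⟨t, c⟩ _
    rw [hff]
    simp only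
    by_cases hlc : ¬ (l : ℤ) ∣ eval c (pderiv t f)
    swap
    · rw [Finset.filter_false_of_mem (fun P _ hcon => hlc hcon.1)]
      simp
    obtain ⟨hG0, hGB, -⟩ := hGf t c hlc
    generalize Gf t c = G at *
    obtain ⟨T', hT'⟩ : ∃ T', T' = T₂.filter (fun P => ¬ (l : ℤ) ∣ eval c (pderiv t f) ∧
      eval P G = 0) := ⟨_, rfl⟩
    have hT'm : ∀ P ∈ T', P ∈ T₂ ∧ eval P G = 0 := by
      intro P hP
      rw [hT', Finset.mem_filter] at hP
      exact ⟨hP.1, hP.2.2⟩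
    rw [← hT']
    have hsub : T' ⊆ (T'.filter (fun P => ∀ w, comp e w G P = 0)) ∪
        (range κ).biUnion (fun k => T'.filter (fun P => eval P (eulk e k G) = 0 ∧
          eul e (eulk e k G) P ≠ 0)) := by
      intro P hP
      rw [Finset.mem_union, Finset.mem_biUnion]
      rcases hW e D₁ _ G P hGB (hT'm P hP).2 with ⟨k, hk, hk1, hk2⟩ | hw
      · right
        exact ⟨k, by rw [Finset.mem_range, hκ]; exact hk, by
          rw [Finset.mem_filter]; exact ⟨hP, hk1, hk2⟩⟩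
      · left
        rw [Finset.mem_filter]; exact ⟨hP, hw⟩
    have hA : (T'.filter (fun P => ∀ w, comp e w G P = 0)).card ≤ D₁ := by
      refine hDg s e D₁ (l ^ b₁) G _ hs he hne ⟨i, j, hij, by omega, by omega⟩ hG0 hGB ?_
      intro P hP
      rw [Finset.mem_filter] at hP
      obtain ⟨⟨hbox, hcop, hsum⟩, -⟩ := hT₂s P (hT'm P hP.1).1
      exact ⟨fun i => (hbox i).1, hcop, hsum, hP.2⟩
    have hBk : ∀ k ∈ range κ, (T'.filter (fun P => eval P (eulk e k G) = 0 ∧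
          eul e (eulk e k G) P ≠ 0)).card ≤ C₂ * Q ^ 16 := by
      intro k hk
      rw [Finset.mem_range] at hk
      refine h2 Q N (l ^ b₁ * (3 * D₁ * Q ^ 2) ^ k) (by omega) hN s e (eulk e k G) _ hs he1 he'
        hNe (hB e D₁ _ Q k G hGB he') ?_ ?_
      · calc l ^ b₁ * (3 * D₁ * Q ^ 2) ^ k ≤ (Q ^ 2) ^ b₁ * (Q * Q ^ 2) ^ k := by
              apply Nat.mul_le_mul (Nat.pow_le_pow_left hlQ2 _)
              exact Nat.pow_le_pow_left (Nat.mul_le_mul_right _ (by omega)) _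
          _ = Q ^ (2 * b₁ + 3 * k) := by
              rw [← pow_mul, ← pow_succ', ← pow_mul, ← pow_add]
          _ ≤ Q ^ (2 * b₁ + 3 * κ) := Nat.pow_le_pow_right (by omega) (by omega)
      · intro P hP
        rw [Finset.mem_filter] at hP
        obtain ⟨hsol, hlarge⟩ := hT₂s P (hT'm P hP.1).1
        exact ⟨hsol, hP.2.1, hP.2.2, hlarge⟩
    calc T'.card ≤ _ := Finset.card_le_card hsub
      _ ≤ _ := Finset.card_union_le _ _
      _ ≤ D₁ + (range κ).card * (C₂ * Q ^ 16) :=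
          Nat.add_le_add hA (Finset.card_biUnion_le_card_mul _ _ _ hBk)
      _ = D₁ + κ * (C₂ * Q ^ 16) := by rw [Finset.card_range]
  have hT₂c : T₂.card ≤ (3 * Q ^ 6) * (D₁ + κ * (C₂ * Q ^ 16)) := by
    calc T₂.card ≤ _ := Finset.card_le_card hcov
      _ ≤ ((univ : Finset (Fin 3)) ×ˢ Cl (Q ^ 2)).card * (D₁ + κ * (C₂ * Q ^ 16)) :=
          Finset.card_biUnion_le_card_mul _ _ _ hcard
      _ = (3 * Q ^ 6) * (D₁ + κ * (C₂ * Q ^ 16)) := by
          rw [Finset.card_product, Cl_card, Finset.card_univ, Fintype.card_fin]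
          ring
  have hsplit : T.card = (T.filter (fun P => P i < (Q : ℤ) ∧ P j < (Q : ℤ))).card + T₂.card := by
    rw [hT₂]
    exact (Finset.card_filter_add_card_filter_not _).symm
  have hQ1' : 1 ≤ Q := by omega
  have e1 : Q ^ 2 ≤ Q ^ 22 := Nat.pow_le_pow_right hQ1' (by norm_num)
  have e2 : Q ^ 6 ≤ Q ^ 22 := Nat.pow_le_pow_right hQ1' (by norm_num)
  calc T.card ≤ Q ^ 2 + (3 * Q ^ 6) * (D₁ + κ * (C₂ * Q ^ 16)) := by omega
    _ = Q ^ 2 + 3 * D₁ * Q ^ 6 + 3 * (κ * C₂) * Q ^ 22 := by ring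
    _ ≤ Q ^ 22 + 3 * D₁ * Q ^ 22 + 3 * (κ * C₂) * Q ^ 22 := by gcongr
    _ = (1 + 3 * (D₁ + κ * C₂)) * Q ^ 22 := by ring

end Pool.Agent.Lib.MP_509488_nt.Sparse
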