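import Pool.Agent.Lib.MP_509488_nt.Sparse.Stmts

/-!
# Sparse bases: the points on `f = g = 0`
-/

namespace Pool.Agent.Lib.MP_509488_nt.Sparse

open MvPolynomial Finset

/-- The primes in `(Q, Q ^ 2]`. -/
def prm (Q : ℕ) : Finset ℕ := (Icc 1 (Q ^ 2)).filter (fun l => l.Prime ∧ Q < l)

theorem prm_card (Q : ℕ) : (prm Q).card ≤ Q ^ 2 := by
  refine (card_filter_le _ _).trans ?_
  simp

theorem mem_prm {Q l : ℕ} : l ∈ prm Q ↔ l.Prime ∧ Q < l ∧ l ≤ Q ^ 2 := by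
  simp only [prm, mem_filter, mem_Icc]
  constructor
  · rintro ⟨⟨_, h2⟩, h3, h4⟩
    exact ⟨h3, h4, h2⟩
  · rintro ⟨h1, h2, h3⟩
    exact ⟨⟨h1.one_lt.le, h3⟩, h1, h2⟩

/-- The value of `∂_i f`. -/
theorem eval_pderiv_fpoly (s : Fin 3 → ℤ) (e : Fin 3 → ℕ) (P : Pt) (i : Fin 3) :
    eval P (pderiv i (fpoly s e)) = s i * e i * P i ^ (e i - 1) := by
  unfold fpoly
  rw [map_sum, map_sum, Finset.sum_eq_single i]
  · rw [Derivation.leibniz]
    simp [pderiv_X]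
    ring
  · intro j _ hj
    rw [Derivation.leibniz]
    simp [pderiv_X, hj]
  · intro h; simp at h

theorem eval_fpoly (s : Fin 3 → ℤ) (e : Fin 3 → ℕ) (P : Pt) :
    eval P (fpoly s e) = ∑ i, s i * P i ^ e i := by
  unfold fpoly
  simp

theorem cg_eval {l : ℕ} {P c : Pt} (F : Pol) (h : Cg l P c) : (l : ℤ) ∣ eval P F - eval c F := by
  induction F using MvPolynomial.induction_on with
  | C a => simp
  | add p q hp hq =>
    have h1 := dvd_add hp hq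
    have e1 : eval P (p + q) - eval c (p + q) = (eval P p - eval c p) + (eval P q - eval c q) := by
      rw [map_add, map_add]; ring
    rw [e1]
    exact h1
  | mul_X p i hp =>
    have h1 : (l : ℤ) ∣ (eval P p - eval c p) * P i + eval c p * (P i - c i) :=
      dvd_add (Dvd.dvd.mul_right hp _) (Dvd.dvd.mul_left (h i) _)
    have e1 : eval P (p * X i) - eval c (p * X i) =
        (eval P p - eval c p) * P i + eval c p * (P i - c i) := by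
      rw [map_mul, map_mul, eval_X, eval_X]; ring
    rw [e1]
    exact h1

theorem cg_crs {l : ℕ} {P c : Pt} (f g : Pol) (a : Fin 3) (h : Cg l P c) :
    (l : ℤ) ∣ crs f g a P - crs f g a c := by
  have h1 := cg_eval (pderiv (a + 1) f * pderiv (a + 2) g - pderiv (a + 2) f * pderiv (a + 1) g) h
  simpa [crs] using h1

theorem eul_fpoly (s : Fin 3 → ℤ) (e : Fin 3 → ℕ) (P : Pt) (he : ∀ i, 1 ≤ e i)
    (h : ∑ i, s i * P i ^ e i = 0) : eul e (fpoly s e) P = 0 := by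
  have h1 : ∀ i, (cof e i : ℤ) * P i * eval P (pderiv i (fpoly s e)) =
      (e 0 * e 1 * e 2 : ℤ) * (s i * P i ^ e i) := by
    intro i
    rw [eval_pderiv_fpoly]
    have h2 : P i ^ e i = P i ^ (e i - 1) * P i := by
      rw [← pow_succ, Nat.sub_add_cancel (he i)]
    rw [h2]
    fin_cases i <;> simp [cof] <;> ring
  unfold eul
  rw [Finset.sum_congr rfl (fun i _ => h1 i), ← Finset.mul_sum, h, mul_zero]

theorem crs_ne (s : Fin 3 → ℤ) (e : Fin 3 → ℕ) (P : Pt) (g : Pol) (hs : Sgn s)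
    (he : ∀ i, 1 ≤ e i) (hP : ∀ i, 1 ≤ P i) (h : ∑ i, s i * P i ^ e i = 0) (hg : eul e g P ≠ 0) :
    ∃ a, crs (fpoly s e) g a P ≠ 0 := by
  by_contra hc
  push Not at hc
  have h0 := hc 0
  have h1 := hc 1
  have h2 := hc 2
  have hf := eul_fpoly s e P he h
  have hf0 : eval P (pderiv 0 (fpoly s e)) ≠ 0 := by
    rw [eval_pderiv_fpoly]
    have h3 : s 0 ≠ 0 := by rcases hs 0 with h | h <;> rw [h] <;> decide
    have h4 : (e 0 : ℤ) ≠ 0 := by have := he 0; positivity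
    have h5 : P 0 ^ (e 0 - 1) ≠ 0 := pow_ne_zero _ (by have := hP 0; omega)
    exact mul_ne_zero (mul_ne_zero h3 h4) h5
  unfold crs at h0 h1 h2
  unfold eul at hf hg
  rw [Fin.sum_univ_three] at hf hg
  simp only [Fin.isValue, zero_add] at h0
  have e1 : (1 : Fin 3) + 1 = 2 := rfl
  have e2 : (1 : Fin 3) + 2 = 0 := rfl
  have e3 : (2 : Fin 3) + 1 = 0 := rfl
  have e4 : (2 : Fin 3) + 2 = 1 := rfl
  rw [e1, e2] at h1
  rw [e3, e4] at h2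
  generalize eval P (pderiv 0 (fpoly s e)) = f0 at *
  generalize eval P (pderiv 1 (fpoly s e)) = f1 at *
  generalize eval P (pderiv 2 (fpoly s e)) = f2 at *
  generalize eval P (pderiv 0 g) = g0 at *
  generalize eval P (pderiv 1 g) = g1 at *
  generalize eval P (pderiv 2 g) = g2 at *
  apply hg
  have key : f0 * ((cof e 0 : ℤ) * P 0 * g0 + cof e 1 * P 1 * g1 + cof e 2 * P 2 * g2) = 0 := by
    linear_combination g0 * hf + (cof e 1 * P 1) * h2 - (cof e 2 * P 2) * h1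
  exact (mul_eq_zero.mp key).resolve_left hf0

theorem jac_eq (f g H : Pol) (P : Pt) : jac ![f, g, H] P =
    eval P (pderiv 0 f) * crs g H 0 P + eval P (pderiv 1 f) * crs g H 1 P +
      eval P (pderiv 2 f) * crs g H 2 P := by
  unfold jac crs
  rw [Matrix.det_fin_three]
  have e1 : (1 : Fin 3) + 1 = 2 := rfl
  have e2 : (1 : Fin 3) + 2 = 0 := rfl
  have e3 : (2 : Fin 3) + 1 = 0 := rfl
  have e4 : (2 : Fin 3) + 2 = 1 := rfl
  rw [e1, e2, e3, e4]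
  simp only [Matrix.of_apply, zero_add]
  simp
  ring

theorem crs_le (f g : Pol) (a : Fin 3) (P : Pt) (A B : ℤ) (hA : ∀ i, |eval P (pderiv i f)| ≤ A)
    (hB : ∀ i, |eval P (pderiv i g)| ≤ B) : |crs f g a P| ≤ 2 * (A * B) := by
  have hA0 : 0 ≤ A := (abs_nonneg _).trans (hA 0)
  have h : ∀ i j, |eval P (pderiv i f) * eval P (pderiv j g)| ≤ A * B := by
    intro i j
    rw [abs_mul]
    exact mul_le_mul (hA i) (hB j) (abs_nonneg _) hA0
  unfold crs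
  refine (abs_sub _ _).trans ?_
  have h1 := h (a + 1) (a + 2)
  have h2 := h (a + 2) (a + 1)
  linarith

theorem jac_le (f g H : Pol) (P : Pt) (A B D : ℤ) (hA : ∀ i, |eval P (pderiv i f)| ≤ A)
    (hB : ∀ i, |eval P (pderiv i g)| ≤ B) (hD : ∀ i, |eval P (pderiv i H)| ≤ D) :
    |jac ![f, g, H] P| ≤ 6 * (A * (B * D)) := by
  have hA0 : 0 ≤ A := (abs_nonneg _).trans (hA 0)
  have h : ∀ i, |eval P (pderiv i f) * crs g H i P| ≤ A * (2 * (B * D)) := by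
    intro i
    rw [abs_mul]
    exact mul_le_mul (hA i) (crs_le g H i P B D hB hD) (abs_nonneg _) hA0
  rw [jac_eq]
  refine (abs_add_le _ _).trans ?_
  have h3 := h 2
  have h4 : |eval P (pderiv 0 f) * crs g H 0 P + eval P (pderiv 1 f) * crs g H 1 P| ≤
      A * (2 * (B * D)) + A * (2 * (B * D)) := (abs_add_le _ _).trans (add_le_add (h 0) (h 1))
  linarith

/-- `N ≤ Q ^ (2 h)`. -/
theorem N_le {Q N h : ℕ} (hQ : 2 ≤ Q) (hN : N < (Q + 1) ^ h) : N ≤ Q ^ (2 * h) := by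
  refine hN.le.trans ?_
  rw [pow_mul]
  refine Nat.pow_le_pow_left ?_ h
  nlinarith

theorem num_le {Q N h D B c X : ℕ} (hQ : 2 ≤ Q) (hN : N < (Q + 1) ^ h) (hB : B ≤ Q ^ c * X)
    (hD : D ^ 3 * X ≤ Q) : D ^ 3 * B * N ^ (3 * D) ≤ Q ^ (1 + c + 6 * h * D) := by
  have h1 : N ^ (3 * D) ≤ Q ^ (6 * h * D) := by
    calc N ^ (3 * D) ≤ (Q ^ (2 * h)) ^ (3 * D) := Nat.pow_le_pow_left (N_le hQ hN) _
      _ = Q ^ (6 * h * D) := by rw [← pow_mul]; congr 1; ring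
  calc D ^ 3 * B * N ^ (3 * D) ≤ D ^ 3 * (Q ^ c * X) * Q ^ (6 * h * D) :=
        Nat.mul_le_mul (Nat.mul_le_mul_left _ hB) h1
    _ = (D ^ 3 * X) * Q ^ c * Q ^ (6 * h * D) := by ring
    _ ≤ Q * Q ^ c * Q ^ (6 * h * D) :=
        Nat.mul_le_mul_right _ (Nat.mul_le_mul_right _ hD)
    _ = Q ^ (1 + c + 6 * h * D) := by rw [pow_add, pow_add, pow_one]

theorem pow_big {Q M : ℕ} (hQ : 4 ≤ Q) (hM : 2 * M ≤ Q) : Q ^ M * 2 ^ Q ≤ Q ^ Q := by
  have h1 : 2 ^ Q ≤ Q ^ (Q - M) := by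
    calc 2 ^ Q ≤ 2 ^ (2 * (Q - M)) := Nat.pow_le_pow_right (by norm_num) (by omega)
      _ = 4 ^ (Q - M) := by rw [pow_mul]; norm_num
      _ ≤ Q ^ (Q - M) := Nat.pow_le_pow_left hQ _
  calc Q ^ M * 2 ^ Q ≤ Q ^ M * Q ^ (Q - M) := Nat.mul_le_mul_left _ h1
    _ = Q ^ Q := by rw [← pow_add]; congr 1; omega

theorem fder_le {s : Fin 3 → ℤ} {e : Fin 3 → ℕ} {Q N : ℕ} {P : Pt} (hs : Sgn s)
    (he : ∀ i, e i ≤ Q) (hN : ∀ i, N ^ e i ≤ 2 ^ Q) (hP : Box N P) (i : Fin 3) :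
    |eval P (pderiv i (fpoly s e))| ≤ ((Q * 2 ^ Q : ℕ) : ℤ) := by
  rw [eval_pderiv_fpoly, abs_mul, abs_mul]
  have h1 : |s i| = 1 := by rcases hs i with h | h <;> rw [h] <;> simp
  rw [h1, one_mul]
  have h2 : |(e i : ℤ)| ≤ (Q : ℤ) := by
    rw [abs_of_nonneg (by positivity)]
    exact_mod_cast he i
  have hP1 : 1 ≤ P i := (hP i).1
  have h3 : |P i ^ (e i - 1)| ≤ ((2 ^ Q : ℕ) : ℤ) := by
    rw [abs_of_nonneg (by positivity)]
    calc P i ^ (e i - 1) ≤ P i ^ e i := pow_le_pow_right₀ hP1 (by omega)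
      _ ≤ (N : ℤ) ^ e i := pow_le_pow_left₀ (by omega) (hP i).2 _
      _ ≤ ((2 ^ Q : ℕ) : ℤ) := by exact_mod_cast hN i
  calc |(e i : ℤ)| * |P i ^ (e i - 1)| ≤ (Q : ℤ) * ((2 ^ Q : ℕ) : ℤ) :=
        mul_le_mul h2 h3 (abs_nonneg _) (by positivity)
    _ = ((Q * 2 ^ Q : ℕ) : ℤ) := by push_cast; ring

/-- The classes modulo `l ≤ R`. -/
noncomputable def Cl (R : ℕ) : Finset Pt := Fintype.piFinset (fun _ : Fin 3 => Finset.Ico (0 : ℤ) (R : ℤ))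

theorem Cl_card (R : ℕ) : (Cl R).card = R ^ 3 := by
  simp [Cl]

theorem mem_Cl {R l : ℕ} (hl : 1 ≤ l) (hR : l ≤ R) (P : Pt) : (fun i => P i % l) ∈ Cl R := by
  simp only [Cl, Fintype.mem_piFinset, Finset.mem_Ico]
  intro i
  have hl' : (0 : ℤ) < (l : ℤ) := by exact_mod_cast hl
  refine ⟨Int.emod_nonneg _ hl'.ne', (Int.emod_lt_of_pos _ hl').trans_le (by exact_mod_cast hR)⟩

theorem cg_mod (l : ℕ) (P : Pt) : Cg l P (fun i => P i % l) := by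
  intro i
  exact Int.dvd_self_sub_emod

theorem core2 (hNd : NonDeg) (hC : StCurve) (hJ : JacNe) (hV : MinDeriv) (hD : DerivBdd)
    (hE : EvalBdd) (hPr : PrimeNot) : Core2 := by
  classical
  intro h c₁ D₁ hh
  obtain ⟨Q₀, hPr⟩ := hPr
  obtain ⟨D₂, hD₂⟩ : ∃ D₂ : ℕ, D₂ = 32 * h := ⟨_, rfl⟩
  obtain ⟨b₂, hb₂⟩ : ∃ b₂ : ℕ, b₂ = h * D₂ + 1 := ⟨_, rfl⟩
  obtain ⟨a₁, ha₁⟩ : ∃ a₁ : ℕ, a₁ = 1 + c₁ + 6 * h * D₁ := ⟨_, rfl⟩
  obtain ⟨a₂, ha₂⟩ : ∃ a₂ : ℕ, a₂ = 1 + 2 * b₂ + 6 * h * D₂ := ⟨_, rfl⟩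
  have hfin : {v : List (Fin 3) | v.length < 3 * D₂}.Finite := List.finite_length_lt (Fin 3) _
  refine ⟨3 + 2 * h + a₁ + a₂, 9 * hfin.toFinset.card,
    Q₀ + D₁ ^ 3 * D₁ + D₂ ^ 3 * D₂ ^ (3 * D₂) + D₂ ^ 2 + 2 * (2 + 2 * a₁) + 2 * (2 + a₁ + a₂) + 8,
    ?_⟩
  intro Q N B hQ hN s e g T hs he he' hNe hB hB' hT
  have hQ8 : 8 ≤ Q := by omega
  have hD₂1 : 1 ≤ D₂ := by omega
  obtain ⟨f, hf⟩ : ∃ f, f = fpoly s e := ⟨_, rfl⟩
  -- size of the derivatives of `g`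
  have hgB : ∀ P : Pt, Box N P → ∀ i, |eval P (pderiv i g)| ≤ ((Q ^ a₁ : ℕ) : ℤ) := by
    intro P hP i
    have h1 := (hD g [i] D₁ B hB).1
    have h2 := hE _ D₁ _ N P h1 hP
    refine h2.trans ?_
    have h3 : D₁ ^ 3 * (B * D₁ ^ ([i] : List (Fin 3)).length) * N ^ (3 * D₁) ≤
        Q ^ (1 + c₁ + 6 * h * D₁) := by
      refine num_le (X := D₁) (by omega) hN ?_ (by omega)
      simp only [List.length_singleton, pow_one]
      exact Nat.mul_le_mul_right _ hB'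
    rw [ha₁]
    exact_mod_cast h3
  -- the curves
  have hst : ∀ (t a : Fin 3) (l : ℕ) (c : Pt), ∃ H : Pol, l ∈ prm Q → ¬ (l : ℤ) ∣ crs f g a c →
      (H ≠ 0 ∧ t ∉ H.vars ∧ Bdd D₂ (l ^ b₂) H ∧
        ∀ P : Pt, Box N P → Cg l P c → eval P f = 0 → eval P g = 0 → eval P H = 0) := by
    intro t a l c
    by_cases hl : l ∈ prm Q ∧ ¬ (l : ℤ) ∣ crs f g a c
    · obtain ⟨hl1, hl2⟩ := hl
      rw [mem_prm] at hl1
      obtain ⟨hl0, hlQ, hlQ2⟩ := hl1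
      have hNl : N ≤ l ^ h := by
        refine hN.le.trans (Nat.pow_le_pow_left ?_ h)
        omega
      have hb : (4 * b₂) ^ 2 ≤ b₂ * D₂ ^ 2 := by
        have h1 : 16 * b₂ ≤ D₂ ^ 2 := by
          rw [hb₂]
          have : 1 ≤ h * D₂ := Nat.mul_le_mul hh hD₂1
          calc 16 * (h * D₂ + 1) ≤ 16 * (h * D₂ + h * D₂) := by omega
            _ = (32 * h) * D₂ := by ring
            _ = D₂ * D₂ := by rw [← hD₂]
            _ = D₂ ^ 2 := by ring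
        calc (4 * b₂) ^ 2 = b₂ * (16 * b₂) := by ring
          _ ≤ b₂ * D₂ ^ 2 := Nat.mul_le_mul_left _ h1
      have hlt : D₂ ^ 2 * l ^ b₂ * N ^ (2 * D₂) < l ^ (4 * b₂) := by
        have h1 : D₂ ^ 2 < l := by omega
        have h2 : N ^ (2 * D₂) ≤ l ^ (2 * h * D₂) := by
          calc N ^ (2 * D₂) ≤ (l ^ h) ^ (2 * D₂) := Nat.pow_le_pow_left hNl _
            _ = l ^ (2 * h * D₂) := by rw [← pow_mul]; congr 1; ring
        have h3 : 0 < l ^ b₂ := pow_pos hl0.pos _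
        have h4 : 0 < l ^ (2 * h * D₂) := pow_pos hl0.pos _
        calc D₂ ^ 2 * l ^ b₂ * N ^ (2 * D₂) ≤ D₂ ^ 2 * l ^ b₂ * l ^ (2 * h * D₂) :=
              Nat.mul_le_mul_left _ h2
          _ < l * l ^ b₂ * l ^ (2 * h * D₂) :=
              Nat.mul_lt_mul_of_pos_right (Nat.mul_lt_mul_of_pos_right h1 h3) h4
          _ = l ^ (1 + b₂ + 2 * h * D₂) := by rw [pow_add, pow_add, pow_one]
          _ ≤ l ^ (4 * b₂) := by
              apply Nat.pow_le_pow_right hl0.pos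
              rw [hb₂]
              nlinarith
      obtain ⟨H, h1, h2, h3, h4⟩ := hC f g c a t l b₂ D₂ N hl0 hl2 (by omega) hb hlt
      exact ⟨H, fun _ _ => ⟨h1, h2, h3, h4⟩⟩
    · exact ⟨1, fun h1 h2 => absurd ⟨h1, h2⟩ hl⟩
  choose Hf hHf using hst
  -- the labels
  obtain ⟨Lab, hLab⟩ : ∃ Lab : Finset (Fin 3 × Fin 3 × ℕ × Pt × List (Fin 3)),
      Lab = (univ : Finset (Fin 3)) ×ˢ (univ : Finset (Fin 3)) ×ˢ prm Q ×ˢ Cl (Q ^ 2) ×ˢ
        hfin.toFinset := ⟨_, rfl⟩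
  obtain ⟨ff, hff⟩ : ∃ ff : Fin 3 × Fin 3 × ℕ × Pt × List (Fin 3) → Finset Pt,
      ff = fun x => T.filter (fun P =>
        (∀ i, eval P (![f, g, dl x.2.2.2.2 (Hf x.1 x.2.1 x.2.2.1 x.2.2.2.1)] i) = 0) ∧
        ∃ l' ∈ prm Q, ¬ (l' : ℤ) ∣ jac ![f, g, dl x.2.2.2.2 (Hf x.1 x.2.1 x.2.2.1 x.2.2.2.1)] P) :=
    ⟨_, rfl⟩
  have hcov : T ⊆ Lab.biUnion ff := by
    intro P hPT
    obtain ⟨hsol, hg0, heul, i₀, hi₀, hi₀'⟩ := hT P hPT
    obtain ⟨hbox, hcop, hsum⟩ := hsol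
    have hP1 : ∀ i, 1 ≤ P i := fun i => (hbox i).1
    have hf0 : eval P f = 0 := by rw [hf, eval_fpoly]; exact hsum
    obtain ⟨a, ha⟩ := crs_ne s e P g hs he hP1 hsum heul
    rw [← hf] at ha
    obtain ⟨t, ht⟩ : ∃ t, eval P (pderiv t g) ≠ 0 := by
      by_contra hcon
      push Not at hcon
      apply heul
      unfold eul
      simp [hcon]
    have hfd : ∀ i, |eval P (pderiv i f)| ≤ ((Q * 2 ^ Q : ℕ) : ℤ) := by
      intro i; rw [hf]; exact fder_le hs he' hNe hbox i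
    have hgd := hgB P hbox
    obtain ⟨l, hl0, hlQ, hlQ2, hl⟩ := hPr Q (by omega) (crs f g a P * eval P (pderiv t g))
      (mul_ne_zero ha ht) (by
        rw [abs_mul]
        have h1 := crs_le f g a P _ _ hfd hgd
        have h2 := hgd t
        have h3 : |crs f g a P| * |eval P (pderiv t g)| ≤
            2 * (((Q * 2 ^ Q : ℕ) : ℤ) * ((Q ^ a₁ : ℕ) : ℤ)) * ((Q ^ a₁ : ℕ) : ℤ) :=
          mul_le_mul h1 h2 (abs_nonneg _) (by positivity)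
        refine h3.trans_lt ?_
        have h4 : 2 * ((Q * 2 ^ Q) * Q ^ a₁) * Q ^ a₁ < Q ^ Q := by
          calc 2 * ((Q * 2 ^ Q) * Q ^ a₁) * Q ^ a₁ = 2 * (Q * Q ^ (2 * a₁) * 2 ^ Q) := by ring
            _ < Q * (Q * Q ^ (2 * a₁) * 2 ^ Q) :=
                Nat.mul_lt_mul_of_pos_right (by omega) (by positivity)
            _ = Q ^ (2 + 2 * a₁) * 2 ^ Q := by ring
            _ ≤ Q ^ Q := pow_big (by omega) (by omega)
        exact_mod_cast h4)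
    have hlm : l ∈ prm Q := mem_prm.mpr ⟨hl0, hlQ, hlQ2⟩
    obtain ⟨c, hc⟩ : ∃ c : Pt, c = fun i => P i % l := ⟨_, rfl⟩
    have hcg : Cg l P c := by rw [hc]; exact cg_mod l P
    have hlc : ¬ (l : ℤ) ∣ crs f g a c := by
      intro hcon
      apply hl
      apply Dvd.dvd.mul_right
      have := dvd_add (cg_crs f g a hcg) hcon
      simpa using this
    obtain ⟨hH0, hHt, hHB, hH⟩ := hHf t a l c hlm hlc
    have hHP := hH P hbox hcg hf0 hg0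
    obtain ⟨v, hv1, hv2, j, hj⟩ := hV _ P D₂ _ hH0 hHB hHP
    have hHd : ∀ i, |eval P (pderiv i (dl v (Hf t a l c)))| ≤ ((Q ^ a₂ : ℕ) : ℤ) := by
      intro i
      have h1 := (hD (Hf t a l c) (i :: v) D₂ _ hHB).1
      have h2 := hE _ D₂ _ N P h1 hbox
      have h3 : dl (i :: v) (Hf t a l c) = pderiv i (dl v (Hf t a l c)) := rfl
      rw [h3] at h2
      refine h2.trans ?_
      have h4 : D₂ ^ 3 * (l ^ b₂ * D₂ ^ (i :: v).length) * N ^ (3 * D₂) ≤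
          Q ^ (1 + 2 * b₂ + 6 * h * D₂) := by
        refine num_le (X := D₂ ^ (3 * D₂)) (by omega) hN ?_ (by omega)
        refine Nat.mul_le_mul ?_ ?_
        · calc l ^ b₂ ≤ (Q ^ 2) ^ b₂ := Nat.pow_le_pow_left hlQ2 _
            _ = Q ^ (2 * b₂) := by rw [pow_mul]
        · apply Nat.pow_le_pow_right hD₂1
          simp only [List.length_cons]
          omega
      rw [ha₂]
      exact_mod_cast h4
    have htv : t ∉ (dl v (Hf t a l c)).vars := fun hcon => hHt ((hD _ v D₂ _ hHB).2 hcon)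
    have hjac : jac ![f, g, dl v (Hf t a l c)] P ≠ 0 := by
      rw [hf]
      refine hJ s e P i₀ t g _ _ _ hs he hP1 hcop hsum heul ht htv ⟨j, hj⟩ hgd hHd ?_
      intro i j'
      have h1 : (e i : ℤ) ≤ (Q : ℤ) := by exact_mod_cast he' i
      have h2 : P j' ≤ ((Q ^ (2 * h) : ℕ) : ℤ) :=
        (hbox j').2.trans (by exact_mod_cast N_le (by omega) hN)
      have h3 : (e i : ℤ) * P j' ≤ (Q : ℤ) * ((Q ^ (2 * h) : ℕ) : ℤ) :=
        mul_le_mul h1 h2 (by have := hP1 j'; omega) (by positivity)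
      have h4 : (4 : ℤ) * (e i * P j' * (((Q ^ a₁ : ℕ) : ℤ) * ((Q ^ a₂ : ℕ) : ℤ))) ≤
          4 * ((Q : ℤ) * ((Q ^ (2 * h) : ℕ) : ℤ) * (((Q ^ a₁ : ℕ) : ℤ) * ((Q ^ a₂ : ℕ) : ℤ))) := by
        have : (0 : ℤ) ≤ ((Q ^ a₁ : ℕ) : ℤ) * ((Q ^ a₂ : ℕ) : ℤ) := by positivity
        nlinarith [mul_le_mul_of_nonneg_right h3 this]
      refine h4.trans_lt ?_
      have h5 : 4 * (Q * Q ^ (2 * h) * (Q ^ a₁ * Q ^ a₂)) < Q ^ (2 + 2 * h + a₁ + a₂) := by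
        calc 4 * (Q * Q ^ (2 * h) * (Q ^ a₁ * Q ^ a₂)) <
              Q * (Q * Q ^ (2 * h) * (Q ^ a₁ * Q ^ a₂)) :=
              Nat.mul_lt_mul_of_pos_right (by omega) (by positivity)
          _ = Q ^ (2 + 2 * h + a₁ + a₂) := by ring
      have h6 : (Q : ℤ) ^ (2 + 2 * h + a₁ + a₂) ≤ P i₀ ^ (e i₀ - 1) := by
        calc (Q : ℤ) ^ (2 + 2 * h + a₁ + a₂) ≤ (Q : ℤ) ^ (e i₀ - 1) :=
              pow_le_pow_right₀ (by exact_mod_cast (by omega : 1 ≤ Q)) (by omega)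
          _ ≤ P i₀ ^ (e i₀ - 1) := pow_le_pow_left₀ (by positivity) hi₀' _
      refine lt_of_lt_of_le ?_ h6
      exact_mod_cast h5
    obtain ⟨l', hl'0, hl'Q, hl'Q2, hl'⟩ := hPr Q (by omega) _ hjac (by
      refine (jac_le f g _ P _ _ _ hfd hgd hHd).trans_lt ?_
      have h4 : 6 * ((Q * 2 ^ Q) * (Q ^ a₁ * Q ^ a₂)) < Q ^ Q := by
        calc 6 * ((Q * 2 ^ Q) * (Q ^ a₁ * Q ^ a₂)) = 6 * (Q * Q ^ a₁ * Q ^ a₂ * 2 ^ Q) := by ring
          _ < Q * (Q * Q ^ a₁ * Q ^ a₂ * 2 ^ Q) :=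
              Nat.mul_lt_mul_of_pos_right (by omega) (by positivity)
          _ = Q ^ (2 + a₁ + a₂) * 2 ^ Q := by ring
          _ ≤ Q ^ Q := pow_big (by omega) (by omega)
      exact_mod_cast h4)
    rw [Finset.mem_biUnion]
    refine ⟨(t, a, l, c, v), ?_, ?_⟩
    · rw [hLab]
      simp only [Finset.mem_product, Finset.mem_univ, true_and, Set.Finite.mem_toFinset,
        Set.mem_ofPred_eq]
      refine ⟨hlm, ?_, hv1⟩
      rw [hc]
      exact mem_Cl hl0.one_lt.le hlQ2 P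
    · rw [hff]
      simp only [Finset.mem_filter]
      refine ⟨hPT, ?_, l', mem_prm.mpr ⟨hl'0, hl'Q, hl'Q2⟩, hl'⟩
      intro i
      fin_cases i
      · exact hf0
      · exact hg0
      · exact hv2
  have hcard : ∀ x ∈ Lab, (ff x).card ≤ Q ^ 8 := by
    intro x _
    rw [hff]
    have h1 := hNd ![f, g, dl x.2.2.2.2 (Hf x.1 x.2.1 x.2.2.1 x.2.2.2.1)]
      (T.filter (fun P =>
        (∀ i, eval P (![f, g, dl x.2.2.2.2 (Hf x.1 x.2.1 x.2.2.1 x.2.2.2.1)] i) = 0) ∧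
        ∃ l' ∈ prm Q, ¬ (l' : ℤ) ∣ jac ![f, g, dl x.2.2.2.2 (Hf x.1 x.2.1 x.2.2.1 x.2.2.2.1)] P))
      (prm Q) (Q ^ 2) (fun l hl => ⟨(mem_prm.mp hl).1, (mem_prm.mp hl).2.2⟩)
      (fun P hP => (Finset.mem_filter.mp hP).2)
    refine h1.trans ?_
    calc (prm Q).card * (Q ^ 2) ^ 3 ≤ Q ^ 2 * (Q ^ 2) ^ 3 := Nat.mul_le_mul_right _ (prm_card Q)
      _ = Q ^ 8 := by ring
  have hLc : Lab.card ≤ 9 * hfin.toFinset.card * Q ^ 8 := by
    rw [hLab]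
    simp only [Finset.card_product, Cl_card, Finset.card_univ, Fintype.card_fin]
    calc 3 * (3 * ((prm Q).card * ((Q ^ 2) ^ 3 * hfin.toFinset.card))) ≤
          3 * (3 * (Q ^ 2 * ((Q ^ 2) ^ 3 * hfin.toFinset.card))) := by
            have := prm_card Q
            gcongr
      _ = 9 * hfin.toFinset.card * Q ^ 8 := by ring
  calc T.card ≤ (Lab.biUnion ff).card := Finset.card_le_card hcov
    _ ≤ Lab.card * Q ^ 8 := Finset.card_biUnion_le_card_mul _ _ _ hcard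
    _ ≤ (9 * hfin.toFinset.card * Q ^ 8) * Q ^ 8 := Nat.mul_le_mul_right _ hLc
    _ = 9 * hfin.toFinset.card * Q ^ 16 := by ring

end Pool.Agent.Lib.MP_509488_nt.Sparse
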