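import Mathlib

/-!
# Sparse bases: definitions

Points are `P : Fin 3 → ℤ`, polynomials are in three variables over `ℤ`.
-/

namespace Pool.Agent.Lib.MP_509488_nt.Sparse

open MvPolynomial Finset

/-- Integer points. -/
abbrev Pt := Fin 3 → ℤ

/-- Polynomials in three variables. -/
abbrev Pol := MvPolynomial (Fin 3) ℤ

/-- `f = Σ s_i X_i ^ e_i`. -/
noncomputable def fpoly (s : Fin 3 → ℤ) (e : Fin 3 → ℕ) : Pol :=
  ∑ i, MvPolynomial.C (s i) * X i ^ e i

/-- Degree `< D` in each variable, coefficients at most `B` in absolute value. -/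
def Bdd (D B : ℕ) (G : Pol) : Prop :=
  ∀ m ∈ G.support, (∀ i, m i < D) ∧ |G.coeff m| ≤ (B : ℤ)

/-- The points of the box `[1, N]^3`. -/
def Box (N : ℕ) (P : Pt) : Prop := ∀ i, 1 ≤ P i ∧ P i ≤ (N : ℤ)

/-- `P ≡ c mod l`. -/
def Cg (l : ℕ) (P c : Pt) : Prop := ∀ i, (l : ℤ) ∣ P i - c i

/-- Pairwise coprime coordinates. -/
def Cop (P : Pt) : Prop := ∀ i j, i ≠ j → IsCoprime (P i) (P j)

/-- The signs are `±1`. -/
def Sgn (s : Fin 3 → ℤ) : Prop := ∀ i, s i = 1 ∨ s i = -1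

/-- The Jacobian determinant of three polynomials at `P`. -/
noncomputable def jac (F : Fin 3 → Pol) (P : Pt) : ℤ :=
  (Matrix.of (fun i j : Fin 3 => eval P (pderiv j (F i)))).det

/-- The component `a` of `∇ f × ∇ g` at `P`. -/
noncomputable def crs (f g : Pol) (a : Fin 3) (P : Pt) : ℤ :=
  eval P (pderiv (a + 1) f) * eval P (pderiv (a + 2) g) -
    eval P (pderiv (a + 2) f) * eval P (pderiv (a + 1) g)

/-- `∏_{j ≠ i} e_j`. -/
def cof (e : Fin 3 → ℕ) (i : Fin 3) : ℕ := e (i + 1) * e (i + 2)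

/-- The weight of a monomial: `e_0 e_1 e_2 Σ m_i / e_i`. -/
def wt (e : Fin 3 → ℕ) (m : Fin 3 →₀ ℕ) : ℕ := ∑ i, cof e i * m i

/-- The `k`-th power of the Euler operator `Σ_i (∏_{j≠i} e_j) X_i ∂_i` applied to `G`. -/
noncomputable def eulk (e : Fin 3 → ℕ) (k : ℕ) (G : Pol) : Pol :=
  ∑ m ∈ G.support, monomial m (G.coeff m * (wt e m : ℤ) ^ k)

/-- The Euler operator at a point: `Σ_i (∏_{j≠i} e_j) P_i ∂_i g (P)`. -/
noncomputable def eul (e : Fin 3 → ℕ) (g : Pol) (P : Pt) : ℤ :=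
  ∑ i, (cof e i : ℤ) * P i * eval P (pderiv i g)

/-- The component of weight `w` of `G`, evaluated at `P`. -/
noncomputable def comp (e : Fin 3 → ℕ) (w : ℕ) (G : Pol) (P : Pt) : ℤ :=
  ∑ m ∈ G.support.filter (fun m => wt e m = w), G.coeff m * ∏ i, P i ^ m i

/-- Iterated partial derivatives along a list. -/
noncomputable def dl : List (Fin 3) → Pol → Pol
  | [], H => H
  | j :: l, H => pderiv j (dl l H)

/-- `P` is a solution: `Σ s_i P_i ^ e_i = 0` in coprime integers of `[1, N]`. -/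
def Sol (s : Fin 3 → ℤ) (e : Fin 3 → ℕ) (N : ℕ) (P : Pt) : Prop :=
  Box N P ∧ Cop P ∧ ∑ i, s i * P i ^ e i = 0

end Pool.Agent.Lib.MP_509488_nt.Sparse
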