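import Pool.Agent.Lib.MP_509488_nt.Sparse.Stmts
import Pool.Agent.Lib.MP_509488_nt.Unif.Fin3

/-!
# Sparse bases: the exponents in a solution are at most a power of `log N`
-/

namespace Pool.Agent.Lib.MP_509488_nt.Sparse

/-- `x` even: bounds for the three exponents. -/
lemma expBound_even (h1 : Unif.RBound1) (h2 : Unif.RBound2) (h3 : Unif.RBound3) :
    ∃ A N₀ : ℕ, ∀ N : ℕ, N₀ ≤ N → ∀ x y z p q r : ℕ, 2 ≤ x → x ≤ N → 2 ≤ y →
      y ≤ N → 2 ≤ z → z ≤ N → Nat.Coprime x y → p.Prime → q.Prime → r.Prime →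
      x ^ p + y ^ q = z ^ r → (Even x ∨ Even y ∨ Even z) →
      (p : ℝ) ≤ Real.log N ^ A ∧ (q : ℝ) ≤ Real.log N ^ A ∧ (r : ℝ) ≤ Real.log N ^ A := by
  obtain ⟨A₁, N₁, H₁⟩ := Unif.fin3_bound h1 h2 h3 1 le_rfl
  obtain ⟨A₂, N₂, H₂⟩ := Unif.fin3_bound h1 h2 h3 (max A₁ 1) (le_max_right _ _)
  obtain ⟨N₃, hN₃⟩ := Unif.log_ge 2
  refine ⟨max (max A₁ A₂) 1, max (max N₁ N₂) N₃, ?_⟩
  intro N hN x y z p q r hx2 hxN hy2 hyN hz2 hzN hxy hp hq hr heq hev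
  have hN1 : N₁ ≤ N := by omega
  have hN2 : N₂ ≤ N := by omega
  have hL : 2 ≤ Real.log N := hN₃ N (by omega)
  have mono : ∀ B C : ℕ, B ≤ C → Real.log N ^ B ≤ Real.log N ^ C :=
    fun B C hB => pow_le_pow_right₀ (by linarith) hB
  have hxz : Nat.Coprime x z := by
    have h : Nat.Coprime (x ^ p) (z ^ r) := by
      rw [← heq]
      exact (Nat.coprime_add_self_right.2 (Nat.Coprime.pow p q hxy) |> fun h => by
        rwa [add_comm] at h)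
    exact Nat.Coprime.coprime_dvd_left (dvd_pow_self x hp.ne_zero)
      (Nat.Coprime.coprime_dvd_right (dvd_pow_self z hr.ne_zero) h)
  have hyz : Nat.Coprime y z := by
    have h : Nat.Coprime (y ^ q) (z ^ r) := by
      rw [← heq]
      exact Nat.coprime_add_self_right.2 (Nat.Coprime.pow q p hxy.symm)
    exact Nat.Coprime.coprime_dvd_left (dvd_pow_self y hq.ne_zero)
      (Nat.Coprime.coprime_dvd_right (dvd_pow_self z hr.ne_zero) h)
  have heqZ : (x : ℤ) ^ p + (y : ℤ) ^ q = (z : ℤ) ^ r := by exact_mod_cast heq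
  -- even first base
  have small : ∀ (u v : ℕ), 2 ≤ u → u ≤ N → 2 ≤ v → v ≤ N → Nat.Coprime u v →
      (Even u ∨ Even v) → ∀ (a b c : ℕ) (w e₁ e₂ : ℤ), a.Prime → b.Prime → c.Prime →
      (e₁ = 1 ∨ e₁ = -1) → (e₂ = 1 ∨ e₂ = -1) → 2 ≤ w.natAbs →
      e₁ * (u : ℤ) ^ a + e₂ * (v : ℤ) ^ b = w ^ c → (c : ℝ) ≤ Real.log N ^ A₁ := by
    intro u v hu2 huN hv2 hvN huv hue a b c w e₁ e₂ ha hb hc he₁ he₂ hw he
    refine H₁ N hN1 u v hu2 huN hv2 hvN huv a b c w e₁ e₂ ha.one_le hb.one_le hc he₁ he₂ hw he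
      (Or.inl ⟨2, Nat.prime_two, ?_, ?_⟩)
    · rcases hue with h | h
      · exact Dvd.dvd.mul_right h.two_dvd v
      · exact Dvd.dvd.mul_left h.two_dvd u
    · rw [pow_one]; exact_mod_cast hL
  have big : ∀ (u v : ℕ), 2 ≤ u → u ≤ N → 2 ≤ v → v ≤ N → Nat.Coprime u v →
      ∀ (a b c : ℕ) (w e₁ e₂ : ℤ), a.Prime → b.Prime → c.Prime →
      (e₁ = 1 ∨ e₁ = -1) → (e₂ = 1 ∨ e₂ = -1) → 2 ≤ w.natAbs →
      e₁ * (u : ℤ) ^ a + e₂ * (v : ℤ) ^ b = w ^ c →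
      (a : ℝ) ≤ Real.log N ^ (max A₁ 1) → (b : ℝ) ≤ Real.log N ^ (max A₁ 1) →
      (c : ℝ) ≤ Real.log N ^ A₂ := by
    intro u v hu2 huN hv2 hvN huv a b c w e₁ e₂ ha hb hc he₁ he₂ hw he ha' hb'
    have hexp : Real.log N ^ (max A₁ 1) ≤ Real.exp (Real.log N ^ (max A₁ 1)) := by
      have := Real.add_one_le_exp (Real.log N ^ (max A₁ 1))
      linarith
    exact H₂ N hN2 u v hu2 huN hv2 hvN huv a b c w e₁ e₂ ha.one_le hb.one_le hc he₁ he₂ hw he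
      (Or.inr ⟨ha'.trans hexp, hb'.trans hexp⟩)
  -- odd or equal to two
  have two_le : (2 : ℝ) ≤ Real.log N ^ (max A₁ 1) := by
    calc (2 : ℝ) ≤ Real.log N := hL
      _ = Real.log N ^ 1 := (pow_one _).symm
      _ ≤ _ := mono _ _ (le_max_right _ _)
  have m1 : Real.log N ^ A₁ ≤ Real.log N ^ (max A₁ 1) := mono _ _ (le_max_left _ _)
  have M1 : Real.log N ^ (max A₁ 1) ≤ Real.log N ^ (max (max A₁ A₂) 1) := mono _ _ (by omega)
  have M2 : Real.log N ^ A₂ ≤ Real.log N ^ (max (max A₁ A₂) 1) := mono _ _ (by omega)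
  have key : ∀ x y z p q r : ℕ, 2 ≤ x → x ≤ N → 2 ≤ y → y ≤ N → 2 ≤ z → z ≤ N →
      Nat.Coprime x y → Nat.Coprime x z → Nat.Coprime y z → p.Prime → q.Prime → r.Prime →
      (x : ℤ) ^ p + (y : ℤ) ^ q = (z : ℤ) ^ r → Even x →
      (p : ℝ) ≤ Real.log N ^ A₂ ∧ (q : ℝ) ≤ Real.log N ^ (max A₁ 1) ∧
        (r : ℝ) ≤ Real.log N ^ (max A₁ 1) := by
    intro x y z p q r hx2 hxN hy2 hyN hz2 hzN hxy hxz hyz hp hq hr he hxe
    have hr' : (r : ℝ) ≤ Real.log N ^ (max A₁ 1) :=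
      (small x y hx2 hxN hy2 hyN hxy (Or.inl hxe) p q r z 1 1 hp hq hr (Or.inl rfl) (Or.inl rfl)
        (by simpa using hz2) (by rw [← he]; ring)).trans m1
    have hq' : (q : ℝ) ≤ Real.log N ^ (max A₁ 1) := by
      rcases hq.eq_two_or_odd' with h2 | hodd
      · rw [h2]; exact_mod_cast two_le
      · refine (small x z hx2 hxN hz2 hzN hxz (Or.inl hxe) p r q (-(y : ℤ)) 1 (-1) hp hr hq
          (Or.inl rfl) (Or.inr rfl) (by simpa using hy2) ?_).trans m1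
        rw [hodd.neg_pow, ← he]; ring
    have hp' : (p : ℝ) ≤ Real.log N ^ A₂ := by
      refine big z y hz2 hzN hy2 hyN hyz.symm r q p x 1 (-1) hr hq hp (Or.inl rfl) (Or.inr rfl)
        (by simpa using hx2) ?_ hr' hq'
      rw [← he]; ring
    exact ⟨hp', hq', hr'⟩
  rcases hev with hxe | hye | hze
  · obtain ⟨a, b, c⟩ := key x y z p q r hx2 hxN hy2 hyN hz2 hzN hxy hxz hyz hp hq hr heqZ hxe
    exact ⟨a.trans M2, b.trans M1, c.trans M1⟩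
  · obtain ⟨a, b, c⟩ := key y x z q p r hy2 hyN hx2 hxN hz2 hzN hxy.symm hyz hxz hq hp hr
      (by rw [← heqZ]; ring) hye
    exact ⟨b.trans M1, a.trans M2, c.trans M1⟩
  · have hq' : (q : ℝ) ≤ Real.log N ^ (max A₁ 1) := by
      refine (small z x hz2 hzN hx2 hxN hxz.symm (Or.inl hze) r p q y 1 (-1) hr hp hq
        (Or.inl rfl) (Or.inr rfl) (by simpa using hy2) ?_).trans m1
      rw [← heqZ]; ring
    have hp' : (p : ℝ) ≤ Real.log N ^ (max A₁ 1) := by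
      refine (small z y hz2 hzN hy2 hyN hyz.symm (Or.inl hze) r q p x 1 (-1) hr hq hp
        (Or.inl rfl) (Or.inr rfl) (by simpa using hx2) ?_).trans m1
      rw [← heqZ]; ring
    have hr' : (r : ℝ) ≤ Real.log N ^ A₂ :=
      big x y hx2 hxN hy2 hyN hxy p q r z 1 1 hp hq hr (Or.inl rfl) (Or.inl rfl)
        (by simpa using hz2) (by rw [← heqZ]; ring) hp' hq'
    exact ⟨hp'.trans M1, hq'.trans M1, hr'.trans M2⟩

theorem expBound (h1 : Unif.RBound1) (h2 : Unif.RBound2) (h3 : Unif.RBound3) : ExpBound := by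
  obtain ⟨A, N₀, H⟩ := expBound_even h1 h2 h3
  refine ⟨A, N₀, ?_⟩
  intro N hN x y z p q r hx2 hxN hy2 hyN hz2 hzN hxy hp hq hr heq
  refine H N hN x y z p q r hx2 hxN hy2 hyN hz2 hzN hxy hp hq hr heq ?_
  by_contra hcon
  push Not at hcon
  obtain ⟨hx, hy, hz⟩ := hcon
  rw [Nat.not_even_iff_odd] at hx hy hz
  have h1 : Even (x ^ p + y ^ q) := (hx.pow).add_odd hy.pow
  rw [heq] at h1
  exact (Nat.not_even_iff_odd.2 hz.pow) h1

end Pool.Agent.Lib.MP_509488_nt.Sparse
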