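import Pool.Agent.Lib.MP_509488_nt.Sparse.Defs

/-!
# Sparse bases: statements of the modules
-/

namespace Pool.Agent.Lib.MP_509488_nt.Sparse

open MvPolynomial Finset

/-- T: Taylor formula to the first order. -/
def Taylor : Prop := ∀ (F : Pol) (c P R : Pt) (l M : ℕ), 1 ≤ M → Cg l P c →
  (∀ i, ((l : ℤ) ^ M) ∣ P i - R i) →
  ((l : ℤ) ^ (M + 1)) ∣ eval P F - eval R F - ∑ i, eval c (pderiv i F) * (P i - R i)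

/-- N1: Hensel uniqueness. Few points with `F_1 = F_2 = F_3 = 0` and nonzero Jacobian modulo one
of the primes of `L`. -/
def NonDeg : Prop := ∀ (F : Fin 3 → Pol) (T : Finset Pt) (L : Finset ℕ) (R : ℕ),
  (∀ l ∈ L, l.Prime ∧ l ≤ R) →
  (∀ P ∈ T, (∀ i, eval P (F i) = 0) ∧ ∃ l ∈ L, ¬ (l : ℤ) ∣ jac F P) →
  T.card ≤ L.card * R ^ 3

/-- N2: a surface near a smooth point is parametrised by two of the variables. -/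
def Param1 : Prop := ∀ (f : Pol) (c : Pt) (t : Fin 3) (l M : ℕ), l.Prime →
  ¬ (l : ℤ) ∣ eval c (pderiv t f) →
  ∃ φ : Fin 3 → Pol, (∀ i, (φ i).vars ⊆ univ.erase t) ∧
    ∀ P : Pt, Cg l P c → eval P f = 0 → ∀ i, (l : ℤ) ^ M ∣ P i - eval P (φ i)

/-- N3: a curve near a smooth point is parametrised by one of the variables. -/
def Param2 : Prop := ∀ (f g : Pol) (c : Pt) (a : Fin 3) (l M : ℕ), l.Prime →
  ¬ (l : ℤ) ∣ crs f g a c →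
  ∃ φ : Fin 3 → Pol, (∀ i, (φ i).vars ⊆ {a}) ∧
    ∀ P : Pt, Cg l P c → eval P f = 0 → eval P g = 0 → ∀ i, (l : ℤ) ^ M ∣ P i - eval P (φ i)

/-- P: pigeonhole construction of an auxiliary polynomial. -/
def Pigeon : Prop := ∀ (φ : Fin 3 → Pol) (K : Finset (Fin 3)) (c : Pt) (l m b : ℕ)
  (E : Finset (Fin 3 →₀ ℕ)), l.Prime → 1 ≤ m → (∀ i, (φ i).vars ⊆ K) →
  m ^ (K.card + 1) ≤ b * E.card →
  ∃ G : Pol, G ≠ 0 ∧ G.support ⊆ E ∧ (∀ d, |G.coeff d| ≤ (l : ℤ) ^ b) ∧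
    ∀ P : Pt, Cg l P c → (∀ i, (l : ℤ) ^ m ∣ P i - eval P (φ i)) → (l : ℤ) ^ m ∣ eval P G

/-- S: all points of one class modulo `l` on the surface `f = 0` lie on a surface `G = 0`. -/
def StSurf : Prop := ∀ (f : Pol) (c : Pt) (t : Fin 3) (l b D N : ℕ), l.Prime →
  ¬ (l : ℤ) ∣ eval c (pderiv t f) → 1 ≤ b → (4 * b) ^ 3 ≤ b * D ^ 3 →
  D ^ 3 * l ^ b * N ^ (3 * D) < l ^ (4 * b) →
  ∃ G : Pol, G ≠ 0 ∧ Bdd D (l ^ b) G ∧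
    ∀ P : Pt, Box N P → Cg l P c → eval P f = 0 → eval P G = 0

/-- C: all points of one class modulo `l` on the curve `f = g = 0` lie on a cylinder `H = 0`, where
`H` does not contain the variable `X_t`. -/
def StCurve : Prop := ∀ (f g : Pol) (c : Pt) (a t : Fin 3) (l b D N : ℕ), l.Prime →
  ¬ (l : ℤ) ∣ crs f g a c → 1 ≤ b → (4 * b) ^ 2 ≤ b * D ^ 2 →
  D ^ 2 * l ^ b * N ^ (2 * D) < l ^ (4 * b) →
  ∃ H : Pol, H ≠ 0 ∧ t ∉ H.vars ∧ Bdd D (l ^ b) H ∧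
    ∀ P : Pt, Box N P → Cg l P c → eval P f = 0 → eval P g = 0 → eval P H = 0

/-- A: the arithmetic lemma: a small tangent vector is proportional to `(P_i / e_i)`. -/
def Arith : Prop := ∀ (s : Fin 3 → ℤ) (e : Fin 3 → ℕ) (P τ : Pt) (i₀ : Fin 3), Sgn s →
  (∀ i, 1 ≤ e i) → (∀ i, 1 ≤ P i) → Cop P → ∑ i, s i * P i ^ e i = 0 →
  ∑ i, s i * e i * P i ^ (e i - 1) * τ i = 0 →
  (∀ i j, 2 * |e i * P j * τ i| < P i₀ ^ (e i₀ - 1)) →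
  ∀ i j, e i * τ i * P j = e j * τ j * P i

/-- J: the Jacobian of `f, g, H` does not vanish. -/
def JacNe : Prop := ∀ (s : Fin 3 → ℤ) (e : Fin 3 → ℕ) (P : Pt) (i₀ t : Fin 3) (g H : Pol)
  (A B : ℤ), Sgn s → (∀ i, 1 ≤ e i) → (∀ i, 1 ≤ P i) → Cop P → ∑ i, s i * P i ^ e i = 0 →
  eul e g P ≠ 0 → eval P (pderiv t g) ≠ 0 → t ∉ H.vars → (∃ j, eval P (pderiv j H) ≠ 0) →
  (∀ i, |eval P (pderiv i g)| ≤ A) → (∀ i, |eval P (pderiv i H)| ≤ B) →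
  (∀ i j, 4 * (e i * P j * (A * B)) < P i₀ ^ (e i₀ - 1)) →
  jac ![fpoly s e, g, H] P ≠ 0

/-- W: if `G(P) = 0`, then some power of the Euler operator separates, or all weight components of
`G` vanish at `P`. -/
def Weights : Prop := ∀ (e : Fin 3 → ℕ) (D B : ℕ) (G : Pol) (P : Pt), Bdd D B G → eval P G = 0 →
  (∃ k < D ^ 3, eval P (eulk e k G) = 0 ∧ eul e (eulk e k G) P ≠ 0) ∨ ∀ w, comp e w G P = 0

/-- W': size of `eulk`. -/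
def EulBdd : Prop := ∀ (e : Fin 3 → ℕ) (D B E k : ℕ) (G : Pol), Bdd D B G → (∀ i, e i ≤ E) →
  Bdd D (B * (3 * D * E ^ 2) ^ k) (eulk e k G)

/-- D: few solutions at which all weight components of `G` vanish. -/
def Degen : Prop := ∀ (s : Fin 3 → ℤ) (e : Fin 3 → ℕ) (D B : ℕ) (G : Pol) (T : Finset Pt), Sgn s →
  (∀ i, (e i).Prime) → ¬ (e 0 = e 1 ∧ e 1 = e 2) →
  (∃ i j, i ≠ j ∧ 2 * D ≤ e i ∧ 2 * D ≤ e j) → G ≠ 0 → Bdd D B G →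
  (∀ P ∈ T, (∀ i, 1 ≤ P i) ∧ Cop P ∧ ∑ i, s i * P i ^ e i = 0 ∧ ∀ w, comp e w G P = 0) →
  T.card ≤ D

/-- V: a derivative of `H` vanishes at `P` to order exactly one. -/
def MinDeriv : Prop := ∀ (H : Pol) (P : Pt) (D B : ℕ), H ≠ 0 → Bdd D B H → eval P H = 0 →
  ∃ v : List (Fin 3), v.length < 3 * D ∧ eval P (dl v H) = 0 ∧
    ∃ j, eval P (pderiv j (dl v H)) ≠ 0

/-- V': size and variables of derivatives. -/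
def DerivBdd : Prop := ∀ (H : Pol) (v : List (Fin 3)) (D B : ℕ), Bdd D B H →
  Bdd D (B * D ^ v.length) (dl v H) ∧ (dl v H).vars ⊆ H.vars

/-- E: size of a value. -/
def EvalBdd : Prop := ∀ (G : Pol) (D B N : ℕ) (P : Pt), Bdd D B G → Box N P →
  |eval P G| ≤ ((D ^ 3 * B * N ^ (3 * D) : ℕ) : ℤ)

/-- Pi: a nonzero integer of absolute value less than `Q ^ Q` is not divisible by all primes in
`(Q, Q ^ 2]`. -/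
def PrimeNot : Prop := ∃ Q₀ : ℕ, ∀ Q : ℕ, Q₀ ≤ Q → ∀ Z : ℤ, Z ≠ 0 → |Z| < (Q : ℤ) ^ Q →
  ∃ l : ℕ, l.Prime ∧ Q < l ∧ l ≤ Q ^ 2 ∧ ¬ (l : ℤ) ∣ Z

/-- K2: the points on `f = g = 0` with `eul g ≠ 0`. -/
def Core2 : Prop := ∀ h c₁ D₁ : ℕ, 1 ≤ h → ∃ K C Q₀ : ℕ, ∀ Q N B : ℕ, Q₀ ≤ Q → N < (Q + 1) ^ h →
  ∀ (s : Fin 3 → ℤ) (e : Fin 3 → ℕ) (g : Pol) (T : Finset Pt), Sgn s →
  (∀ i, 1 ≤ e i) → (∀ i, e i ≤ Q) → (∀ i, N ^ e i ≤ 2 ^ Q) → Bdd D₁ B g → B ≤ Q ^ c₁ →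
  (∀ P ∈ T, Sol s e N P ∧ eval P g = 0 ∧ eul e g P ≠ 0 ∧ ∃ i, K ≤ e i ∧ (Q : ℤ) ≤ P i) →
  T.card ≤ C * Q ^ 16

/-- K1: the number of solutions for given exponents. -/
def Core : Prop := ∀ h : ℕ, 1 ≤ h → ∃ K C Q₀ : ℕ, ∀ Q N : ℕ, Q₀ ≤ Q → N < (Q + 1) ^ h →
  ∀ (s : Fin 3 → ℤ) (e : Fin 3 → ℕ) (T : Finset Pt), Sgn s → (∀ i, (e i).Prime) →
  ¬ (e 0 = e 1 ∧ e 1 = e 2) → (∀ i, e i ≤ Q) → (∀ i, N ^ e i ≤ 2 ^ Q) →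
  (∃ i j, i ≠ j ∧ K ≤ e i ∧ K ≤ e j) → (∀ P ∈ T, Sol s e N P) → T.card ≤ C * Q ^ 22

/-- X: the exponents in a solution are at most a power of `log N`. -/
def ExpBound : Prop := ∃ A N₀ : ℕ, ∀ N : ℕ, N₀ ≤ N → ∀ x y z p q r : ℕ, 2 ≤ x → x ≤ N → 2 ≤ y →
  y ≤ N → 2 ≤ z → z ≤ N → Nat.Coprime x y → p.Prime → q.Prime → r.Prime → x ^ p + y ^ q = z ^ r →
  (p : ℝ) ≤ Real.log N ^ A ∧ (q : ℝ) ≤ Real.log N ^ A ∧ (r : ℝ) ≤ Real.log N ^ A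

/-- The solutions `(x, y, z, p, q, r)` with bases in `[2, N]` and at least two exponents `≥ K`. -/
def SolSet (K N : ℕ) : Set (ℕ × ℕ × ℕ × ℕ × ℕ × ℕ) :=
  {v | ∃ x y z p q r : ℕ, v = (x, y, z, p, q, r) ∧ 2 ≤ x ∧ x ≤ N ∧ 2 ≤ y ∧ y ≤ N ∧ 2 ≤ z ∧ z ≤ N ∧
    Nat.Coprime x y ∧ p.Prime ∧ q.Prime ∧ r.Prime ∧ x ^ p + y ^ q = z ^ r ∧
    ¬ (p = q ∧ q = r) ∧ ((K ≤ p ∧ K ≤ q) ∨ (K ≤ p ∧ K ≤ r) ∨ (K ≤ q ∧ K ≤ r))}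

/-- F: the final theorem. -/
def Final : Prop := ∀ ε : ℝ, 0 < ε → ∃ K N₀ : ℕ, ∀ N : ℕ, N₀ ≤ N →
  (SolSet K N).Finite ∧ ((SolSet K N).ncard : ℝ) ≤ (N : ℝ) ^ ε

end Pool.Agent.Lib.MP_509488_nt.Sparse
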